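import Mathlib

/-!
# Definitions for MP_ee6709_co

`Σ*A`, weakly zero-sum-free sets, `ρ_Z(G, m)` and `f(m)`, as in the problem file.
-/

namespace Pool.Agent.Lib.MP_ee6709_co

/-- `Σ*A = {∑_{b ∈ B} b : ∅ ≠ B ⊆ A}`, the set of sums of nonempty subsets of the finite set `A`
(each element used at most once). -/
def SigmaStar {G : Type*} [AddCommGroup G] (A : Finset G) : Set G :=
  {s | ∃ B : Finset G, B ⊆ A ∧ B.Nonempty ∧ ∑ b ∈ B, b = s}

/-- `A` is weakly zero-sum-free: `0 ∉ Σ*A`. -/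
def WeaklyZeroSumFree {G : Type*} [AddCommGroup G] (A : Finset G) : Prop :=
  (0 : G) ∉ SigmaStar A

/-- `ρ_Z(G, m) = min {|Σ*A| : A ⊆ G, |A| = m, 0 ∉ Σ*A}`, an extended natural number; it is
`∞ = ⊤` if `G` has no weakly zero-sum-free `m`-subset. -/
noncomputable def rhoZ (G : Type*) [AddCommGroup G] (m : ℕ) : ℕ∞ :=
  ⨅ (A : Finset G) (_ : A.card = m) (_ : WeaklyZeroSumFree A), (SigmaStar A).encard

/-- `f(m) = min_G ρ_Z(G, m)` over all finite abelian groups `G`. (Every finite abelian group is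
isomorphic to one whose underlying type lives in `Type`.) -/
noncomputable def f (m : ℕ) : ℕ∞ :=
  ⨅ (G : Type) (_ : AddCommGroup G) (_ : Finite G), rhoZ G m

end Pool.Agent.Lib.MP_ee6709_co
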