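import Pool.Agent.Lib.MP_ee6709_co.Final2
import Pool.Agent.Lib.MP_ee6709_co.Defs

/-!
# The (known) cyclic example and the conclusion (MP_ee6709_co)
-/

set_option linter.style.longLine false
set_option linter.unusedSectionVars false

namespace Pool.Agent.Lib.MP_ee6709_co

open Finset

/-- The standard cyclic example. -/
lemma example_nat {a b h : ℕ} (hh : ∑ t ∈ Icc 1 a, t + ∑ t ∈ Icc 1 b, t < h) {T : Finset ℕ}
    (hT : T ⊆ Icc 1 a ∪ Icc h (h + b)) (h0 : 2 * h ∣ ∑ t ∈ T, t) : T = ∅ := by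
  have hah : a < h := by
    have : a ≤ ∑ t ∈ Icc 1 a, t := by
      rcases Nat.eq_zero_or_pos a with h | h
      · omega
      · exact single_le_sum (f := fun t => t) (fun _ _ => Nat.zero_le _) (mem_Icc.2 ⟨h, le_refl _⟩)
    omega
  set T1 := T.filter (fun t => t < h) with hT1
  set T2 := T.filter (fun t => ¬ t < h) with hT2
  have hsum : ∑ t ∈ T, t = ∑ t ∈ T1, t + ∑ t ∈ T2, t := (sum_filter_add_sum_filter_not T _ _).symm
  have h1 : T1 ⊆ Icc 1 a := by
    intro t ht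
    rw [hT1, mem_filter] at ht
    have := hT ht.1
    rw [mem_union, mem_Icc, mem_Icc] at this
    rw [mem_Icc]; omega
  have h2 : T2 ⊆ Icc h (h + b) := by
    intro t ht
    rw [hT2, mem_filter] at ht
    have := hT ht.1
    rw [mem_union, mem_Icc, mem_Icc] at this
    rw [mem_Icc]; omega
  obtain ⟨s1, hs1⟩ : ∃ s, s = ∑ t ∈ T1, t := ⟨_, rfl⟩
  obtain ⟨s2, hs2⟩ : ∃ s, s = ∑ t ∈ T2, (t - h) := ⟨_, rfl⟩
  have hsum2 : ∑ t ∈ T2, t = T2.card * h + s2 := by
    rw [hs2, ← smul_eq_mul, ← sum_const, ← sum_add_distrib]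
    refine sum_congr rfl fun t ht => ?_
    have := mem_Icc.1 (h2 ht)
    omega
  have hs1le : s1 ≤ ∑ t ∈ Icc 1 a, t := by rw [hs1]; exact sum_le_sum_of_subset h1
  have hs2le : s2 ≤ ∑ t ∈ Icc 1 b, t := by
    rw [hs2]
    have e1 : ∑ t ∈ T2, (t - h) = ∑ t ∈ T2.image (fun t => t - h), t := by
      rw [sum_image]
      intro x hx y hy hxy
      have h3 := mem_Icc.1 (h2 hx)
      have h4 := mem_Icc.1 (h2 hy)
      simp only at hxy
      omega
    rw [e1]
    have e2 : ∑ t ∈ Icc 1 b, t = ∑ t ∈ range (b + 1), t := by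
      have : range (b + 1) = insert 0 (Icc 1 b) := by
        ext t; rw [mem_range, mem_insert, mem_Icc]; omega
      rw [this, sum_insert (by rw [mem_Icc]; omega)]; simp
    rw [e2]
    apply sum_le_sum_of_subset
    intro t ht
    rw [mem_image] at ht
    obtain ⟨x, hx, rfl⟩ := ht
    have := mem_Icc.1 (h2 hx)
    rw [mem_range]; omega
  rw [hsum, ← hs1, hsum2] at h0
  obtain ⟨q, hq⟩ := h0
  -- s1 + s2 < h and s1 + s2 ≡ 0 mod h
  have hs : s1 + s2 < h := by omega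
  have hdvd : h ∣ s1 + s2 := by
    have e : s1 + (T2.card * h + s2) = (s1 + s2) + h * T2.card := by ring
    have : h ∣ (s1 + s2) + h * T2.card := by
      rw [← e, hq]; exact ⟨2 * q, by ring⟩
    exact (Nat.dvd_add_iff_left ⟨T2.card, rfl⟩).2 this
  have hs0 : s1 + s2 = 0 := Nat.eq_zero_of_dvd_of_lt hdvd hs
  have hs10 : s1 = 0 := by omega
  have hs20 : s2 = 0 := by omega
  -- T1 = ∅
  have hT1e : T1 = ∅ := by
    rw [eq_empty_iff_forall_notMem]
    intro t ht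
    have h3 := mem_Icc.1 (h1 ht)
    have h4 : t ≤ s1 := by
      rw [hs1]; exact single_le_sum (f := fun t => t) (fun _ _ => Nat.zero_le _) ht
    omega
  have hT2e : T2 ⊆ {h} := by
    intro t ht
    have h3 := mem_Icc.1 (h2 ht)
    have h4 : t - h ≤ s2 := by
      rw [hs2]; exact single_le_sum (f := fun t => t - h) (fun _ _ => Nat.zero_le _) ht
    rw [mem_singleton]; omega
  have hcard : T2.card ≤ 1 := by
    have := card_le_card hT2e
    rwa [card_singleton] at this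
  have hT2c : T2.card = 0 := by
    by_contra hne
    have h5 : T2.card = 1 := by omega
    rw [hs10, hs20, h5] at hq
    have hhpos : 0 < h := by omega
    have : h = 2 * (h * q) := by
      have e : 0 + (1 * h + 0) = h := by ring
      rw [e] at hq
      rw [hq]; ring_nf
      nth_rewrite 1 [hq]; ring
    rcases Nat.eq_zero_or_pos q with h6 | h6
    · rw [h6] at this; omega
    · have : h * 1 ≤ h * q := Nat.mul_le_mul_left _ h6
      omega
  have hunion : T = T1 ∪ T2 := (filter_union_filter_not_eq _ T).symm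
  rw [hunion, hT1e, card_eq_zero.1 hT2c, empty_union]

lemma two_mul_sum_Icc (n : ℕ) : 2 * ∑ t ∈ Icc 1 n, t = n * (n + 1) := by
  induction n with
  | zero => simp
  | succ n ih => rw [Finset.sum_Icc_succ_top (by omega), mul_add, ih]; ring

lemma le_sum_Icc (n : ℕ) : n ≤ ∑ t ∈ Icc 1 n, t := by
  rcases Nat.eq_zero_or_pos n with h | h
  · omega
  · exact single_le_sum (f := fun t => t) (fun _ _ => Nat.zero_le _) (mem_Icc.2 ⟨h, le_refl _⟩)

/-- The example in `ZMod n`, `n = ⌊m²/2⌋ + 2`. -/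
lemma example_zmod (m : ℕ) (hm : 1 ≤ m) : ∃ n : ℕ, n = m ^ 2 / 2 + 2 ∧ ∃ A : Finset (ZMod n),
    ZSF A ∧ A.card = m := by
  obtain ⟨a, ha⟩ : ∃ a, a = (m - 1) / 2 := ⟨_, rfl⟩
  obtain ⟨b, hb⟩ : ∃ b, b = m / 2 := ⟨_, rfl⟩
  obtain ⟨h, hh⟩ : ∃ h, h = ∑ t ∈ Icc 1 a, t + ∑ t ∈ Icc 1 b, t + 1 := ⟨_, rfl⟩
  have hn : 2 * h = m ^ 2 / 2 + 2 := by
    have h1 := two_mul_sum_Icc a
    have h2 := two_mul_sum_Icc b
    have h3 : 2 * h = a * (a + 1) + b * (b + 1) + 2 := by omega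
    rw [h3]
    congr 1
    rcases Nat.even_or_odd' m with ⟨p, hp | hp⟩
    · obtain ⟨q, rfl⟩ : ∃ q, p = q + 1 := ⟨p - 1, by omega⟩
      have e1 : a = q := by omega
      have e2 : b = q + 1 := by omega
      rw [e1, e2, hp]
      have : (2 * (q + 1)) ^ 2 = 2 * (2 * (q + 1) ^ 2) := by ring
      rw [this, Nat.mul_div_cancel_left _ (by norm_num)]
      ring
    · have e1 : a = p := by omega
      have e2 : b = p := by omega
      rw [e1, e2, hp]
      have : (2 * p + 1) ^ 2 = 1 + 2 * (2 * (p * (p + 1))) := by ring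
      rw [this, Nat.add_mul_div_left _ _ (by norm_num)]
      ring
  refine ⟨2 * h, hn, ?_⟩
  have hbh : b < h := by
    have := le_sum_Icc b
    omega
  have hah : a < h := by
    have := le_sum_Icc a
    omega
  have hinj : Set.InjOn (fun t : ℕ => (t : ZMod (2 * h))) (Icc 1 a ∪ Icc h (h + b) : Finset ℕ) := by
    intro x hx y hy hxy
    rw [mem_coe, mem_union, mem_Icc, mem_Icc] at hx hy
    simp only at hxy
    rw [ZMod.natCast_eq_natCast_iff'] at hxy
    rwa [Nat.mod_eq_of_lt (by omega), Nat.mod_eq_of_lt (by omega)] at hxy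
  refine ⟨(Icc 1 a ∪ Icc h (h + b)).image (fun t : ℕ => (t : ZMod (2 * h))), ?_, ?_⟩
  · intro T hT h0
    obtain ⟨T0, hT0, rfl⟩ := subset_image_iff.1 hT
    rw [sum_image (hinj.mono hT0), ← Nat.cast_sum, ZMod.natCast_eq_zero_iff] at h0
    rw [example_nat (by omega) hT0 h0, image_empty]
  · rw [card_image_of_injOn hinj, card_union_of_disjoint, Nat.card_Icc, Nat.card_Icc]
    · omega
    · rw [disjoint_left]
      intro t ht ht'
      rw [mem_Icc] at ht ht'
      omega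

lemma coe_SS {G : Type} [AddCommGroup G] [DecidableEq G] (A : Finset G) :
    (SS A : Set G) = insert 0 (SigmaStar A) := by
  ext z
  rw [mem_coe, mem_SS, Set.mem_insert_iff]
  constructor
  · rintro ⟨S, hS, hz⟩
    rcases S.eq_empty_or_nonempty with h | h
    · left; rw [← hz, h, sum_empty]
    · right; exact ⟨S, hS, h, hz⟩
  · rintro (h | ⟨S, hS, _, hz⟩)
    · exact ⟨∅, empty_subset _, by rw [h, sum_empty]⟩
    · exact ⟨S, hS, hz⟩

lemma zsf_iff {G : Type} [AddCommGroup G] [DecidableEq G] (A : Finset G) :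
    WeaklyZeroSumFree A ↔ ZSF A := by
  constructor
  · intro h S hS h0
    by_contra hne
    exact h ⟨S, hS, nonempty_iff_ne_empty.2 hne, h0⟩
  · rintro h ⟨S, hS, hne, h0⟩
    exact (nonempty_iff_ne_empty.1 hne) (h S hS h0)

lemma encard_SigmaStar {G : Type} [AddCommGroup G] [DecidableEq G] {A : Finset G}
    (hA : WeaklyZeroSumFree A) : (SigmaStar A).encard + 1 = ((SS A).card : ℕ∞) := by
  rw [← Set.encard_coe_eq_coe_finsetCard, coe_SS, Set.encard_insert_of_notMem hA]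

/-- Upper bound through a cyclic group. -/
lemma rho_cyclic_le (m : ℕ) (hm : 1 ≤ m) : ∃ n : ℕ, 1 ≤ n ∧
    rhoZ (ZMod n) m ≤ ((m ^ 2 / 2 + 1 : ℕ) : ℕ∞) := by
  obtain ⟨n, hn, A, hA, hAm⟩ := example_zmod m hm
  have hn1 : 1 ≤ n := by omega
  have : NeZero n := ⟨by omega⟩
  refine ⟨n, hn1, ?_⟩
  have hw : WeaklyZeroSumFree A := (zsf_iff A).2 hA
  have h1 : rhoZ (ZMod n) m ≤ (SigmaStar A).encard := iInf_le_of_le A (iInf_le_of_le hAm (iInf_le_of_le hw le_rfl))
  refine h1.trans ?_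
  have h2 := encard_SigmaStar hw
  have h3 : (SS A).card ≤ n := by
    have := card_le_univ (SS A)
    rwa [ZMod.card] at this
  have h4 : (SigmaStar A).encard + 1 ≤ ((m ^ 2 / 2 + 1 : ℕ) : ℕ∞) + 1 := by
    rw [h2]
    have : (SS A).card ≤ m ^ 2 / 2 + 1 + 1 := by omega
    exact_mod_cast this
  exact (ENat.add_le_add_iff_right (by simp)).1 h4

/-- Lower bound. -/
lemma rho_ge {M0 : ℕ} (hM0 : ∀ (K : Type) [AddCommGroup K] [DecidableEq K] [Fintype K]
    (A : Finset K), ZSF A → M0 ≤ A.card → A.card ^ 2 + 3 ≤ 2 * (SS A).card)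
    (G : Type) [AddCommGroup G] [Finite G] (m : ℕ) (hm : M0 ≤ m) :
    ((m ^ 2 / 2 + 1 : ℕ) : ℕ∞) ≤ rhoZ G m := by
  classical
  have : Fintype G := Fintype.ofFinite G
  refine le_iInf fun A => le_iInf fun hAm => le_iInf fun hw => ?_
  have h1 := hM0 G A ((zsf_iff A).1 hw) (by rw [hAm]; exact hm)
  rw [hAm] at h1
  have h2 := encard_SigmaStar hw
  have h4 : ((m ^ 2 / 2 + 1 : ℕ) : ℕ∞) + 1 ≤ (SigmaStar A).encard + 1 := by
    rw [h2]
    have : m ^ 2 / 2 + 1 + 1 ≤ (SS A).card := by omega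
    exact_mod_cast this
  exact (ENat.add_le_add_iff_right (by simp)).1 h4

/-- Main theorem: `f(m) = ⌊m²/2⌋ + 1` for all large `m`. -/
theorem f_eq : ∃ M : ℕ, ∀ m : ℕ, M ≤ m → f m = ((m ^ 2 / 2 + 1 : ℕ) : ℕ∞) := by
  obtain ⟨M0, hM0⟩ := lower_all.{0}
  refine ⟨max M0 1, fun m hm => ?_⟩
  have hm0 : M0 ≤ m := le_trans (le_max_left _ _) hm
  have hm1 : 1 ≤ m := le_trans (le_max_right _ _) hm
  apply le_antisymm
  · obtain ⟨n, hn, h⟩ := rho_cyclic_le m hm1
    have : NeZero n := ⟨by omega⟩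
    exact iInf_le_of_le (ZMod n) (iInf_le_of_le inferInstance (iInf_le_of_le inferInstance h))
  · refine le_iInf fun G => le_iInf fun _ => le_iInf fun _ => ?_
    exact rho_ge hM0 G m hm0

/-- Only finitely many `m` have `f(m) ≤ ⌊m²/2⌋`; moreover `f(m) = ⌊m²/2⌋ + 1` for all large `m`. -/
theorem main : {m : ℕ | 0 < m ∧ f m ≤ ((m ^ 2 / 2 : ℕ) : ℕ∞)}.Finite ∧
    ∃ M : ℕ, ∀ m : ℕ, M ≤ m → f m = ((m ^ 2 / 2 + 1 : ℕ) : ℕ∞) := by
  obtain ⟨M, hM⟩ := f_eq
  refine ⟨(Set.finite_Iio M).subset ?_, M, hM⟩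
  rintro m ⟨_, hm⟩
  rw [Set.mem_Iio]
  by_contra hcon
  push Not at hcon
  rw [hM m hcon] at hm
  have : m ^ 2 / 2 + 1 ≤ m ^ 2 / 2 := by exact_mod_cast hm
  omega

/-- For all large `m` the minimum over all finite abelian groups is attained by a cyclic group. -/
theorem cyclic_attains : ∃ M : ℕ, ∀ m : ℕ, M ≤ m → ∃ n : ℕ, 1 ≤ n ∧ f m = rhoZ (ZMod n) m ∧
    f m = ((m ^ 2 / 2 + 1 : ℕ) : ℕ∞) := by
  obtain ⟨M, hM⟩ := f_eq
  refine ⟨max M 1, fun m hm => ?_⟩
  have hm0 : M ≤ m := le_trans (le_max_left _ _) hm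
  have hm1 : 1 ≤ m := le_trans (le_max_right _ _) hm
  obtain ⟨n, hn, h⟩ := rho_cyclic_le m hm1
  have : NeZero n := ⟨by omega⟩
  refine ⟨n, hn, ?_, hM m hm0⟩
  apply le_antisymm
  · exact iInf_le_of_le (ZMod n) (iInf_le_of_le inferInstance (iInf_le_of_le inferInstance le_rfl))
  · rw [hM m hm0]; exact h

/-- For all large `m` the minimum is attained in the cyclic group of order `⌊m²/2⌋ + 2`. -/
theorem cyclic_attains' : ∃ M : ℕ, ∀ m : ℕ, M ≤ m → f m = rhoZ (ZMod (m ^ 2 / 2 + 2)) m := by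
  obtain ⟨M, hM⟩ := f_eq
  refine ⟨max M 1, fun m hm => ?_⟩
  have hm0 : M ≤ m := le_trans (le_max_left _ _) hm
  have hm1 : 1 ≤ m := le_trans (le_max_right _ _) hm
  have h : rhoZ (ZMod (m ^ 2 / 2 + 2)) m ≤ ((m ^ 2 / 2 + 1 : ℕ) : ℕ∞) := by
    obtain ⟨n, hn, A, hA, hAm⟩ := example_zmod m hm1
    subst hn
    have hw : WeaklyZeroSumFree A := (zsf_iff A).2 hA
    have h1 : rhoZ (ZMod (m ^ 2 / 2 + 2)) m ≤ (SigmaStar A).encard :=
      iInf_le_of_le A (iInf_le_of_le hAm (iInf_le_of_le hw le_rfl))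
    refine h1.trans ?_
    have h2 := encard_SigmaStar hw
    have h3 : (SS A).card ≤ m ^ 2 / 2 + 2 := by
      have := card_le_univ (SS A)
      rwa [ZMod.card] at this
    have h4 : (SigmaStar A).encard + 1 ≤ ((m ^ 2 / 2 + 1 : ℕ) : ℕ∞) + 1 := by
      rw [h2]
      exact_mod_cast h3
    exact (ENat.add_le_add_iff_right (by simp)).1 h4
  apply le_antisymm
  · exact iInf_le_of_le (ZMod (m ^ 2 / 2 + 2)) (iInf_le_of_le inferInstance
      (iInf_le_of_le inferInstance le_rfl))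
  · rw [hM m hm0]; exact h

end Pool.Agent.Lib.MP_ee6709_co
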