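import Pool.Agent.Lib.MP_ee6709_co.Incr

/-!
# Asymptotic lower bound `|SS A| ≥ (1/2 - η) m²` (MP_ee6709_co)
-/

set_option linter.style.longLine false
set_option linter.unusedSectionVars false

namespace Pool.Agent.Lib.MP_ee6709_co

open Finset
open scoped Pointwise

universe u

section transfer
variable {K K' : Type u} [AddCommGroup K] [DecidableEq K] [AddCommGroup K'] [DecidableEq K']

lemma SS_image (f : K' →+ K) (hf : Function.Injective f) (A : Finset K') :
    SS (A.image f) = (SS A).image f := by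
  ext z
  rw [mem_SS, mem_image]
  constructor
  · rintro ⟨S, hS, rfl⟩
    obtain ⟨S', hS', rfl⟩ := subset_image_iff.1 hS
    refine ⟨∑ x ∈ S', x, mem_SS.2 ⟨S', hS', rfl⟩, ?_⟩
    rw [map_sum, sum_image (fun a _ b _ h => hf h)]
  · rintro ⟨w, hw, rfl⟩
    obtain ⟨S, hS, rfl⟩ := mem_SS.1 hw
    refine ⟨S.image f, image_subset_image hS, ?_⟩
    rw [map_sum, sum_image (fun a _ b _ h => hf h)]

lemma ZSF_of_image (f : K' →+ K) (hf : Function.Injective f) {A : Finset K'}
    (h : ZSF (A.image f)) : ZSF A := by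
  intro S hS h0
  have := h (S.image f) (image_subset_image hS) (by
    rw [sum_image (fun a _ b _ h => hf h), ← map_sum, h0, map_zero])
  rwa [image_eq_empty] at this

end transfer

/-- Passing to the subgroup generated by `A`. -/
lemma exists_gen (K : Type u) [AddCommGroup K] [DecidableEq K] [Fintype K] (A : Finset K)
    (hA : ZSF A) : ∃ (K' : Type u) (_ : AddCommGroup K') (_ : DecidableEq K') (_ : Fintype K')
      (A' : Finset K'), ZSF A' ∧ Gn A' ∧ A'.card = A.card ∧ (SS A').card = (SS A).card := by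
  classical
  set H := AddSubgroup.closure (A : Set K) with hH
  set f : H →+ K := H.subtype with hf
  have hinj : Function.Injective f := H.subtype_injective
  set A' : Finset H := A.preimage f (hinj.injOn) with hA'
  have himg : A'.image f = A := by
    rw [hA', image_preimage]
    ext z
    rw [mem_filter]
    constructor
    · exact fun h => h.1
    · intro h
      exact ⟨h, ⟨⟨z, AddSubgroup.subset_closure h⟩, rfl⟩⟩
  refine ⟨H, inferInstance, inferInstance, Fintype.ofFinite H, A', ?_, ?_, ?_, ?_⟩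
  · exact ZSF_of_image f hinj (by rw [himg]; exact hA)
  · intro S hS hAS
    ext ⟨z, hz⟩
    simp only [mem_univ, iff_true]
    refine AddSubgroup.closure_induction (p := fun x hx => (⟨x, hx⟩ : H) ∈ S) ?_ ?_ ?_ ?_ hz
    · intro x hx
      apply hAS
      rw [hA', mem_preimage]
      exact hx
    · exact hS.zero
    · intro x y hx hy h1 h2
      exact hS.add h1 h2
    · intro x hx h1
      exact hS.neg h1
  · rw [← himg, card_image_of_injective _ hinj]
  · rw [← himg, SS_image f hinj, card_image_of_injective _ hinj]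

/-- If `2^e ≤ m²` then `e` is small. -/
lemma ord2_bound (ζ : ℝ) (hζ : 0 < ζ) : ∃ M : ℕ, ∀ m : ℕ, M ≤ m → ∀ e : ℕ, 2 ^ e ≤ m ^ 2 →
    (e : ℝ) ≤ ζ * m := by
  obtain ⟨M, hM⟩ := exists_nat_ge ((100 / (18 * ζ)) ^ 2)
  refine ⟨M, fun m hm e he => ?_⟩
  have hm' : (100 / (18 * ζ)) ^ 2 ≤ (m : ℝ) := hM.trans (by exact_mod_cast hm)
  have hmnn : (0 : ℝ) ≤ m := Nat.cast_nonneg _
  set s := Real.sqrt m with hs
  have hs2 : s * s = m := Real.mul_self_sqrt hmnn
  have hs0 : 0 ≤ s := Real.sqrt_nonneg _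
  have hs1 : 100 / (18 * ζ) ≤ s := Real.le_sqrt_of_sq_le hm'
  have h1 : (1 + (e : ℝ) * (18 / 100)) ≤ (118 / 100 : ℝ) ^ e := by
    have := one_add_mul_le_pow (a := (18 / 100 : ℝ)) (by norm_num) e
    have h2 : (1 + 18 / 100 : ℝ) = 118 / 100 := by norm_num
    rwa [h2] at this
  have h2 : ((118 / 100 : ℝ) ^ e) ^ 4 ≤ 2 ^ e := by
    rw [← pow_mul, mul_comm, pow_mul]
    apply pow_le_pow_left₀ (by norm_num)
    norm_num
  have h3 : ((2 : ℝ) ^ e) ≤ (m : ℝ) ^ 2 := by exact_mod_cast he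
  have henn : (0 : ℝ) ≤ e := Nat.cast_nonneg _
  have h4 : ((e : ℝ) * (18 / 100)) ^ 4 ≤ s ^ 4 := by
    calc ((e : ℝ) * (18 / 100)) ^ 4 ≤ ((118 / 100 : ℝ) ^ e) ^ 4 :=
          pow_le_pow_left₀ (by positivity) (by linarith) 4
      _ ≤ 2 ^ e := h2
      _ ≤ (m : ℝ) ^ 2 := h3
      _ = s ^ 4 := by rw [← hs2]; ring
  have h5 : (e : ℝ) * (18 / 100) ≤ s := by
    by_contra hcon
    push Not at hcon
    have := pow_lt_pow_left₀ hcon hs0 (n := 4) (by norm_num)
    linarith
  rw [div_le_iff₀ (by positivity)] at hs1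
  have h6 : (e : ℝ) * 18 ≤ 100 * s := by linarith
  have h7 : 100 * s ≤ (s * (18 * ζ)) * s := mul_le_mul_of_nonneg_right hs1 hs0
  have h8 : (s * (18 * ζ)) * s = 18 * (ζ * m) := by rw [← hs2]; ring
  linarith

/-- Greedy alternative. -/
theorem greedy_alt (ζ : ℝ) (hζ : 0 < ζ) (hζ1 : ζ ≤ 1/10) : ∃ M : ℕ, ∀ (K : Type u)
    [AddCommGroup K] [DecidableEq K] [Fintype K] (A : Finset K), ZSF A → M ≤ A.card → Gn A →
    (SS A).card ≤ A.card ^ 2 → ∀ i : ℕ, ζ * A.card ≤ i → (i : ℝ) ≤ (1 - ζ) * A.card →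
    (∃ D ⊆ A, D.card = i ∧ Gn (A \ D) ∧
      (i : ℝ) * A.card - (i : ℝ) ^ 2 / 2 - 5 * ζ * (A.card : ℝ) ^ 2 ≤ (SS D).card) ∨
    (∃ D D' : Finset K, D ⊆ D' ∧ D' ⊆ A ∧ D.card ≤ i ∧ D'.card ≤ D.card + 1 ∧
      (D.card : ℝ) * A.card - (D.card : ℝ) ^ 2 / 2 - 5 * ζ * (A.card : ℝ) ^ 2 ≤ (SS D).card ∧
      2 * (SS (A \ D')).card ≤ (SS A).card + 2) := by
  obtain ⟨M1, hM1⟩ := greedy_step.{u} ζ hζ (by linarith)
  obtain ⟨N, hN⟩ := exists_nat_ge (1 / ζ)
  obtain ⟨M2, hM2⟩ := crude_block.{u} N ζ hζ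
  obtain ⟨M3, hM3⟩ := ord2_bound (ζ * ζ) (by positivity)
  obtain ⟨M4, hM4⟩ := exists_nat_ge (M1 / ζ)
  refine ⟨max (max M2 M3) (max M4 1), fun K _ _ _ A hA hMA hG hSS i hi1 hi2 => ?_⟩
  have hA2 : M2 ≤ A.card := le_trans (le_trans (le_max_left _ _) (le_max_left _ _)) hMA
  have hA3 : M3 ≤ A.card := le_trans (le_trans (le_max_right _ _) (le_max_left _ _)) hMA
  have hA4 : M4 ≤ A.card := le_trans (le_trans (le_max_left _ _) (le_max_right _ _)) hMA
  have hA1 : 1 ≤ A.card := le_trans (le_trans (le_max_right _ _) (le_max_right _ _)) hMA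
  set m := A.card with hm
  have hm1 : (1 : ℝ) ≤ m := by exact_mod_cast hA1
  have hζm : (M1 : ℝ) ≤ ζ * m := by
    have h1 : (M1 : ℝ) / ζ ≤ m := hM4.trans (by exact_mod_cast hA4)
    rw [div_le_iff₀ hζ] at h1
    linarith
  have hord : ∀ R ⊆ A, ζ * m ≤ R.card → ((ord2 R).card : ℝ) ≤ ζ * R.card := by
    intro R hRA hR
    have h1 : (ord2 R).card ≤ (ord2 A).card := card_le_card (filter_subset_filter _ hRA)
    have h2 : 2 ^ (ord2 A).card ≤ (SS (ord2 A)).card := by
      apply (hA.mono (filter_subset _ _)).two_pow_card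
      intro x hx
      exact (mem_filter.1 hx).2
    have h3 : (SS (ord2 A)).card ≤ (SS A).card := card_le_card (SS_mono (filter_subset _ _))
    have h4 := hM3 m hA3 _ (h2.trans (h3.trans hSS))
    have h5 : ((ord2 R).card : ℝ) ≤ (ord2 A).card := by exact_mod_cast h1
    have h6 : ζ * (ζ * m) ≤ ζ * R.card := mul_le_mul_of_nonneg_left hR hζ.le
    nlinarith
  obtain ⟨D0, hD0A, hD0c, hD0⟩ := hM2 K A hA hA2
  rw [← hm] at hD0c hD0
  have hD0' : (m : ℝ) ≤ ζ * (SS D0).card := by
    have h1 : (N : ℝ) * m ≤ (SS D0).card := by exact_mod_cast hD0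
    have h2 : 1 / ζ * (m : ℝ) ≤ (SS D0).card := by nlinarith
    rw [div_mul_eq_mul_div, div_le_iff₀ hζ] at h2
    linarith
  have hi0 : D0.card ≤ i := by
    have : (D0.card : ℝ) ≤ i := hD0c.trans hi1
    exact_mod_cast this
  set i0 := D0.card with hi0def
  -- induction
  have main : ∀ n : ℕ, i0 + n ≤ i →
      (∃ D ⊆ A, D.card = i0 + n ∧ D0 ⊆ D ∧ Gn (A \ D) ∧
        (1 - 4 * ζ) * (n * (m - i0) - n ^ 2 / 2) ≤ ((SS D).card : ℝ)) ∨
      (∃ D D' : Finset K, D ⊆ D' ∧ D' ⊆ A ∧ D.card ≤ i ∧ D'.card ≤ D.card + 1 ∧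
      (D.card : ℝ) * m - (D.card : ℝ) ^ 2 / 2 - 5 * ζ * (m : ℝ) ^ 2 ≤ (SS D).card ∧
      2 * (SS (A \ D')).card ≤ (SS A).card + 2) := by
    have conv : ∀ (n : ℕ) (s : ℝ), i0 + n ≤ i → (1 - 4 * ζ) * (n * (m - i0) - n ^ 2 / 2) ≤ s →
        ((i0 + n : ℕ) : ℝ) * m - ((i0 + n : ℕ) : ℝ) ^ 2 / 2 - 5 * ζ * (m : ℝ) ^ 2 ≤ s := by
      intro n s hn hs
      have hnm : ((i0 + n : ℕ) : ℝ) ≤ m := by
        have h1 : ((i0 + n : ℕ) : ℝ) ≤ i := by exact_mod_cast hn
        nlinarith
      push_cast at hnm ⊢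
      have hn0 : (0 : ℝ) ≤ n := Nat.cast_nonneg _
      have hi00 : (0 : ℝ) ≤ i0 := Nat.cast_nonneg _
      have e1 : (i0 : ℝ) * m ≤ ζ * m ^ 2 := by nlinarith
      have e2 : (n : ℝ) * (m - i0) - n ^ 2 / 2 ≤ m ^ 2 := by nlinarith [mul_nonneg hn0 hi00]
      nlinarith [mul_nonneg hn0 hi00, mul_nonneg hζ.le (sub_nonneg.2 e2)]
    intro n
    induction n with
    | zero =>
      intro _
      by_cases hG0 : Gn (A \ D0)
      · left
        exact ⟨D0, hD0A, by rw [add_zero], subset_refl _, hG0, by simp⟩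
      · right
        obtain ⟨x, hxA, hxR, hx⟩ := exists_double hG hG0
        refine ⟨D0, D0, subset_refl _, hD0A, hi0, by omega, ?_, ?_⟩
        · have := conv 0 ((SS D0).card : ℝ) (by omega) (by simp)
          simpa using this
        · have h1 : (SS (insert x (A \ D0))).card ≤ (SS A).card :=
            card_le_card (SS_mono (insert_subset hxA sdiff_subset))
          omega
    | succ n ih =>
      intro hn
      rcases ih (by omega) with ⟨D, hDA, hDc, hD0D, hGD, hD⟩ | h
      · have hcR : (A \ D).card + (i0 + n) = m := by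
          rw [← hDc]; exact card_sdiff_add_card_eq_card hDA
        have hcR' : ((A \ D).card : ℝ) + (i0 + n) = m := by exact_mod_cast hcR
        have hRbig : ζ * m ≤ (A \ D).card := by
          have h1 : ((i0 + n : ℕ) : ℝ) ≤ i := by exact_mod_cast (by omega : i0 + n ≤ i)
          push_cast at h1
          nlinarith
        by_cases hb : 2 * (SS D).card ≤ Fintype.card K
        · have hMR : M1 ≤ (A \ D).card := by
            have : (M1 : ℝ) ≤ (A \ D).card := hζm.trans hRbig
            exact_mod_cast this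
          have hSD : (m : ℝ) ≤ ζ * (SS D).card := by
            have h1 : ((SS D0).card : ℝ) ≤ (SS D).card := by exact_mod_cast card_le_card (SS_mono hD0D)
            nlinarith
          have hRm : ((A \ D).card : ℝ) ≤ m := by
            have h2 : (0 : ℝ) ≤ i0 + n := by positivity
            linarith
          obtain ⟨x, hx, hlam⟩ := hM1 K (A \ D) (SS D) (hA.mono sdiff_subset) hMR hGD
            (hord _ sdiff_subset hRbig) hb (hRm.trans hSD)
          rw [mem_sdiff] at hx
          by_cases hG1 : Gn (A \ insert x D)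
          · left
            refine ⟨insert x D, insert_subset hx.1 hDA, by rw [card_insert_of_notMem hx.2, hDc]; ring,
              hD0D.trans (subset_insert _ _), hG1, ?_⟩
            rw [card_SS_insert hx.2]
            push_cast
            have hRe : ((A \ D).card : ℝ) = m - i0 - n := by linarith
            rw [hRe] at hlam
            nlinarith
          · right
            obtain ⟨y, hyA, hyR, hy⟩ := exists_double hGD hG1
            refine ⟨D, insert x D, subset_insert _ _, insert_subset hx.1 hDA, by omega,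
              by rw [card_insert_of_notMem hx.2], ?_, ?_⟩
            · rw [hDc]; exact conv n _ (by omega) hD
            · have h1 : (SS (insert y (A \ insert x D))).card ≤ (SS A).card :=
                card_le_card (SS_mono (insert_subset (sdiff_subset hyA) sdiff_subset))
              omega
        · right
          refine ⟨D, D, subset_refl _, hDA, by omega, by omega, ?_, ?_⟩
          · rw [hDc]; exact conv n _ (by omega) hD
          · have h1 := hA.card_SS_sdiff hDA
            have h2 : (SS A).card ≤ Fintype.card K := card_le_univ _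
            omega
      · right; exact h
  obtain ⟨n, hn⟩ := Nat.exists_eq_add_of_le hi0
  rcases main n (by omega) with ⟨D, hDA, hDc, _, hGD, hD⟩ | h
  · left
    refine ⟨D, hDA, by omega, hGD, ?_⟩
    have hnm : (i : ℝ) ≤ m := by nlinarith
    have hn' : (i : ℝ) = i0 + n := by rw [hn]; push_cast; ring
    have hn0 : (0 : ℝ) ≤ n := Nat.cast_nonneg _
    have hi00 : (0 : ℝ) ≤ i0 := Nat.cast_nonneg _
    have e1 : (i0 : ℝ) * m ≤ ζ * m ^ 2 := by nlinarith
    have e2 : (n : ℝ) * (m - i0) - n ^ 2 / 2 ≤ m ^ 2 := by nlinarith [mul_nonneg hn0 hi00]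
    rw [hn'] at hnm ⊢
    nlinarith [mul_nonneg hn0 hi00, mul_nonneg hζ.le (sub_nonneg.2 e2)]
  · right; exact h

end Pool.Agent.Lib.MP_ee6709_co
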