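import Pool.Agent.Lib.MP_ee6709_co.Asymp

/-!
# Asymptotic lower bound `|SS A| ≥ (1/2 - η) m²`, conclusion (MP_ee6709_co)
-/

set_option linter.style.longLine false
set_option linter.unusedSectionVars false

namespace Pool.Agent.Lib.MP_ee6709_co

open Finset
open scoped Pointwise

universe u

/-! ### Numerical lemmas -/

lemma base_num1 {n i : ℝ} (hn : 1000 ≤ n) (h1 : 8 * i ≤ n) (h2 : n ≤ 8 * i + 7) :
    n ^ 2 * (1 / 100) ≤ i * n - i ^ 2 / 2 - 5 * (1 / 100) * n ^ 2 := by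
  nlinarith

lemma base_num2 {n i s M1 S S' : ℝ} (hM : 1000 ≤ M1) (hn : M1 < n) (h1 : 8 * i ≤ n)
    (hs : n ≤ s + i + 1) (hS' : s ^ 2 ≤ S' * M1) (hS : 2 * S' ≤ S + 2) : n ^ 2 ≤ S * M1 := by
  have h2 : (7/8 : ℝ) * n - 1 ≤ s := by linarith
  have h4 : (87/100 : ℝ) * n ≤ s := by linarith
  have h3 : (87/100 * n) ^ 2 ≤ s ^ 2 := pow_le_pow_left₀ (by linarith) h4 2
  have h5 : 2 * S' * M1 ≤ (S + 2) * M1 := mul_le_mul_of_nonneg_right hS (by linarith)
  have h6 : M1 * 1000 ≤ n * n := mul_le_mul hn.le (by linarith) (by norm_num) (by linarith)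
  nlinarith

/-- Base bound. -/
theorem base_bound : ∃ c : ℝ, 0 < c ∧ ∀ n : ℕ, ∀ (K : Type u) [AddCommGroup K] [DecidableEq K]
    [Fintype K] (A : Finset K), ZSF A → A.card = n → c * (n : ℝ) ^ 2 ≤ (SS A).card := by
  obtain ⟨M, hM⟩ := greedy_alt.{u} (1/100) (by norm_num) (by norm_num)
  obtain ⟨M1, hM1⟩ : ∃ M1 : ℕ, M1 = max M 1000 := ⟨_, rfl⟩
  have hM1' : (1000 : ℝ) ≤ M1 := by rw [hM1]; exact_mod_cast le_max_right _ _
  have hMM1 : M ≤ M1 := by rw [hM1]; exact le_max_left _ _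
  have hM1pos : (0 : ℝ) < M1 := by linarith
  refine ⟨1 / M1, by positivity, ?_⟩
  intro n
  induction n using Nat.strong_induction_on with
  | _ n ih =>
    intro K _ _ _ A hA hAn
    rw [div_mul_eq_mul_div, one_mul, div_le_iff₀ hM1pos]
    by_cases hn : n ≤ M1
    · have h1 := hA.card_lt_SS
      rw [hAn] at h1
      have h2 : ((n : ℝ) + 1) ≤ (SS A).card := by exact_mod_cast h1
      have h3 : (n : ℝ) ≤ M1 := by exact_mod_cast hn
      have h4 : (0 : ℝ) ≤ n := Nat.cast_nonneg _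
      calc (n : ℝ) ^ 2 = n * n := sq _
        _ ≤ (SS A).card * M1 := mul_le_mul (by linarith) h3 h4 (by linarith)
    · push Not at hn
      have hn' : (M1 : ℝ) < n := by exact_mod_cast hn
      by_cases hbig : (SS A).card ≤ n ^ 2
      · obtain ⟨K', _, _, _, A', hA', hG', hc', hs'⟩ := exists_gen K A hA
        rw [← hs']
        have hcn : A'.card = n := by rw [hc', hAn]
        obtain ⟨i, hi⟩ : ∃ i : ℕ, i = n / 8 := ⟨_, rfl⟩
        have hi1 : 8 * i ≤ n := by omega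
        have hi2 : n ≤ 8 * i + 7 := by omega
        have hi1' : 8 * (i : ℝ) ≤ n := by exact_mod_cast hi1
        have hi2' : (n : ℝ) ≤ 8 * i + 7 := by exact_mod_cast hi2
        have key := hM K' A' hA' (by omega) hG' (by rw [hs', hcn]; exact hbig) i
          (by rw [hcn]; linarith) (by rw [hcn]; linarith)
        rw [hcn] at key
        rcases key with ⟨D, hDA, hDc, hGD, hD⟩ | ⟨D, D', hDD', hD'A, hDi, hD'c, hD, hSS⟩
        · have h1 : ((SS D).card : ℝ) ≤ (SS A').card := by exact_mod_cast card_le_card (SS_mono hDA)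
          have h2 := base_num1 (by linarith : (1000 : ℝ) ≤ n) hi1' hi2'
          have h3 : (n : ℝ) ^ 2 * (1/100) ≤ (SS A').card := h2.trans (hD.trans h1)
          have h4 : (n : ℝ) ^ 2 * (1/100) * 1000 ≤ (SS A').card * M1 :=
            mul_le_mul h3 hM1' (by norm_num) (Nat.cast_nonneg _)
          have h5 : (0 : ℝ) ≤ (n : ℝ) ^ 2 := sq_nonneg _
          linarith
        · have hc2 : (A' \ D').card + D'.card = n := by
            rw [← hcn]; exact card_sdiff_add_card_eq_card hD'A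
          have hrem : n ≤ (A' \ D').card + i + 1 := by omega
          have hrem' : (n : ℝ) ≤ (A' \ D').card + i + 1 := by exact_mod_cast hrem
          have hSS' : 2 * ((SS (A' \ D')).card : ℝ) ≤ (SS A').card + 2 := by exact_mod_cast hSS
          have hD'pos : 0 < D'.card := by
            by_contra hcon
            have h0 : D' = ∅ := by rw [← card_eq_zero]; omega
            rw [h0, sdiff_empty] at hSS
            have := hA'.card_lt_SS
            omega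
          have h1 := ih (A' \ D').card (by omega) K' (A' \ D') (hA'.mono sdiff_subset) rfl
          rw [div_mul_eq_mul_div, one_mul, div_le_iff₀ hM1pos] at h1
          exact base_num2 hM1' hn' hi1' hrem' h1 hSS'
      · push Not at hbig
        have h1 : ((n : ℝ) ^ 2) ≤ (SS A).card := by exact_mod_cast hbig.le
        have h2 : (SS A).card * (1 : ℝ) ≤ (SS A).card * M1 :=
          mul_le_mul_of_nonneg_left (by linarith) (Nat.cast_nonneg _)
        linarith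

/-- `P γ`: eventually `|SS A| ≥ γ |A|²`. -/
def Pg (γ : ℝ) : Prop := ∃ M : ℕ, ∀ (K : Type u) [AddCommGroup K] [DecidableEq K]
    [Fintype K] (A : Finset K), ZSF A → M ≤ A.card → γ * (A.card : ℝ) ^ 2 ≤ (SS A).card

lemma Pg.mono {γ γ' : ℝ} (h : Pg.{u} γ) (h' : γ' ≤ γ) : Pg.{u} γ' := by
  obtain ⟨M, hM⟩ := h
  refine ⟨M, fun K _ _ _ A hA hMA => ?_⟩
  exact (mul_le_mul_of_nonneg_right h' (sq_nonneg _)).trans (hM K A hA hMA)

lemma imp_num1 {m i ζ : ℝ} (hζ : 0 < ζ) (hζ1 : ζ ≤ 1/200) (h10 : 10 ≤ ζ * m)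
    (hi1 : i ≤ (1 - ζ) * m) (hi2 : (1 - ζ) * m < i + 1) :
    (1/2 - 100 * ζ) * m ^ 2 ≤ i * m - i ^ 2 / 2 - 5 * ζ * m ^ 2 := by
  have e2 : m - i ≤ 2 * ζ * m := by linarith
  have hm : 0 ≤ m := by
    by_contra hcon
    push Not at hcon
    nlinarith
  have hζm : 0 ≤ ζ * m := by positivity
  have e3 : 0 ≤ m - i := by linarith
  have e4 : (m - i) ^ 2 ≤ (2 * ζ * m) ^ 2 := pow_le_pow_left₀ e3 e2 2
  have e5 : i * m - i ^ 2 / 2 = m ^ 2 / 2 - (m - i) ^ 2 / 2 := by ring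
  rw [e5]
  have e6 : (2 * ζ * m) ^ 2 = 4 * ζ * (ζ * m ^ 2) := by ring
  have e7 : 4 * ζ * (ζ * m ^ 2) ≤ 1 * (ζ * m ^ 2) :=
    mul_le_mul_of_nonneg_right (by linarith) (by positivity)
  have e8 : 0 ≤ ζ * m ^ 2 := by positivity
  linarith

lemma imp_num2 {m d s γ S' : ℝ} (hd : 0 ≤ m - d) (hm : 1 ≤ m) (hdm : m - d ≤ m)
    (hs : m ≤ s + d + 1) (hγ : 0 < γ)
    (hγ1 : γ ≤ 1/2) (hS : γ * s ^ 2 ≤ S') : γ * (m - d) ^ 2 - m ≤ S' := by
  have h2 : (m - d) ^ 2 - 2 * m ≤ s ^ 2 := by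
    by_cases h : m - d ≤ 1
    · have : (m - d) ^ 2 ≤ 1 := by nlinarith
      have := sq_nonneg s
      linarith
    · push Not at h
      have e1 : (m - d - 1) ^ 2 ≤ s ^ 2 := pow_le_pow_left₀ (by linarith) (by linarith) 2
      nlinarith
  have h3 : γ * ((m - d) ^ 2 - 2 * m) ≤ γ * s ^ 2 := mul_le_mul_of_nonneg_left h2 hγ.le
  have h4 : γ * (2 * m) ≤ (1/2) * (2 * m) := mul_le_mul_of_nonneg_right hγ1 (by linarith)
  linarith

lemma imp_num3 {m d γ γ' c S S' : ℝ} (hm : 0 < m) (hdm : d ≤ m / 4) (hγ : c ≤ γ)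
    (hγ' : γ' ≤ γ + c / 16) (hc : 0 < c) (hcm : 100 ≤ c * m) (hm10 : 10 ≤ m)
    (h3 : γ * (m - d) ^ 2 - m ≤ S') (h : 2 * S' ≤ S + 2) : γ' * m ^ 2 ≤ S := by
  have e1 : (3/4 * m) ^ 2 ≤ (m - d) ^ 2 := pow_le_pow_left₀ (by positivity) (by linarith) 2
  have e2 : γ * (3/4 * m) ^ 2 ≤ γ * (m - d) ^ 2 := mul_le_mul_of_nonneg_left e1 (by linarith)
  have e3 : γ' * m ^ 2 ≤ (γ + c / 16) * m ^ 2 := mul_le_mul_of_nonneg_right hγ' (sq_nonneg _)
  have e4 : 100 * m ≤ (c * m) * m := mul_le_mul_of_nonneg_right hcm hm.le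
  have e5 : c * m ^ 2 ≤ γ * m ^ 2 := mul_le_mul_of_nonneg_right hγ (sq_nonneg _)
  have e6 : (c * m) * m = c * m ^ 2 := by ring
  have e7 : γ * (3/4 * m) ^ 2 = 9/16 * (γ * m ^ 2) := by ring
  have e8 : (γ + c / 16) * m ^ 2 = γ * m ^ 2 + 1/16 * (c * m ^ 2) := by ring
  rw [e7] at e2
  rw [e8] at e3
  rw [e6] at e4
  linarith

lemma imp_num4 {m d γ γ' ζ S S' SD : ℝ} (hm : 0 < m) (hdm : m / 4 < d) (hd : 0 ≤ m - d)
    (hγ : γ ≤ 1/2 - 100 * ζ) (hζ : 0 < ζ) (hζm : 10 ≤ ζ * m) (hζ1 : ζ ≤ 1/200)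
    (hγ' : γ' ≤ γ + 100 * ζ / 8)
    (h3 : γ * (m - d) ^ 2 - m ≤ S') (hD : d * m - d ^ 2 / 2 - 5 * ζ * m ^ 2 ≤ SD)
    (h : SD + S' ≤ S + 1) : γ' * m ^ 2 ≤ S := by
  have e1 : (m - d) ^ 2 ≤ (3/4 * m) ^ 2 := pow_le_pow_left₀ hd (by linarith) 2
  have e2 : d * m - d ^ 2 / 2 = m ^ 2 / 2 - (m - d) ^ 2 / 2 := by ring
  have e4 : (1/2 - γ) * (m - d) ^ 2 ≤ (1/2 - γ) * (3/4 * m) ^ 2 :=
    mul_le_mul_of_nonneg_left e1 (by linarith)
  have e5 : γ' * m ^ 2 ≤ (γ + 100 * ζ / 8) * m ^ 2 := mul_le_mul_of_nonneg_right hγ' (sq_nonneg _)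
  have e6 : 10 * m ≤ (ζ * m) * m := mul_le_mul_of_nonneg_right hζm hm.le
  have e7 : 100 * ζ * m ^ 2 ≤ (1/2 - γ) * m ^ 2 :=
    mul_le_mul_of_nonneg_right (by linarith) (sq_nonneg _)
  have e9 : 1 ≤ m := by
    have : ζ * m ≤ 1/200 * m := mul_le_mul_of_nonneg_right hζ1 hm.le
    linarith
  have e10 : 0 ≤ ζ * m ^ 2 := by positivity
  have r1 : (1/2 - γ) * (m - d) ^ 2 = (m - d) ^ 2 / 2 - γ * (m - d) ^ 2 := by ring
  have r2 : (1/2 - γ) * (3/4 * m) ^ 2 = 9/16 * ((1/2 - γ) * m ^ 2) := by ring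
  have r3 : (γ + 100 * ζ / 8) * m ^ 2 = γ * m ^ 2 + 100/8 * (ζ * m ^ 2) := by ring
  have r4 : (ζ * m) * m = ζ * m ^ 2 := by ring
  have r5 : (1/2 - γ) * m ^ 2 = m ^ 2 / 2 - γ * m ^ 2 := by ring
  have r6 : 100 * ζ * m ^ 2 = 100 * (ζ * m ^ 2) := by ring
  have r7 : 5 * ζ * m ^ 2 = 5 * (ζ * m ^ 2) := by ring
  rw [r1, r2, r5] at e4
  rw [r3] at e5
  rw [r4] at e6
  rw [r5, r6] at e7
  rw [r7, e2] at hD
  linarith

/-- Improvement step. -/
lemma Pg.improve {c γ ζ : ℝ} (hc : 0 < c) (hζ : 0 < ζ) (hcγ : c ≤ γ) (hγ : γ ≤ 1/2 - 100 * ζ)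
    (h : Pg.{u} γ) : Pg.{u} (min (γ + min (c/16) (100 * ζ/8)) (1/2 - 100 * ζ)) := by
  obtain ⟨Mγ, hMγ⟩ := h
  have hζ1 : ζ ≤ 1/200 := by linarith
  obtain ⟨M0, hM0⟩ := greedy_alt.{u} ζ hζ (by linarith)
  obtain ⟨M1, hM1⟩ := exists_nat_ge ((Mγ + 2) / ζ + 10 / ζ + 100 / c)
  refine ⟨max M0 M1, fun K _ _ _ A hA hMA => ?_⟩
  have hA0 : M0 ≤ A.card := le_trans (le_max_left _ _) hMA
  have hA1 : M1 ≤ A.card := le_trans (le_max_right _ _) hMA
  obtain ⟨γ', hγ'⟩ : ∃ γ' : ℝ, γ' = min (γ + min (c/16) (100 * ζ/8)) (1/2 - 100 * ζ) := ⟨_, rfl⟩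
  rw [← hγ']
  have hγ'1 : γ' ≤ γ + c / 16 := by
    rw [hγ']; exact (min_le_left _ _).trans (by linarith [min_le_left (c/16) (100 * ζ/8)])
  have hγ'2 : γ' ≤ γ + 100 * ζ / 8 := by
    rw [hγ']; exact (min_le_left _ _).trans (by linarith [min_le_right (c/16) (100 * ζ/8)])
  have hγ'3 : γ' ≤ 1/2 - 100 * ζ := by rw [hγ']; exact min_le_right _ _
  obtain ⟨m, hm⟩ : ∃ m : ℕ, m = A.card := ⟨_, rfl⟩
  rw [← hm] at hA0 hA1 ⊢
  have hm1 : (Mγ + 2) / ζ + 10 / ζ + 100 / c ≤ (m : ℝ) := hM1.trans (by exact_mod_cast hA1)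
  have hp1 : 0 ≤ (Mγ + 2) / ζ := by positivity
  have hp2 : 0 ≤ 10 / ζ := by positivity
  have hp3 : 0 ≤ 100 / c := by positivity
  have hm2 : (Mγ : ℝ) + 2 ≤ ζ * m := by
    have : (Mγ + 2) / ζ ≤ (m : ℝ) := by linarith
    rw [div_le_iff₀ hζ] at this; linarith
  have hm3 : (10 : ℝ) ≤ ζ * m := by
    have : 10 / ζ ≤ (m : ℝ) := by linarith
    rw [div_le_iff₀ hζ] at this; linarith
  have hm4 : (100 : ℝ) ≤ c * m := by
    have : 100 / c ≤ (m : ℝ) := by linarith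
    rw [div_le_iff₀ hc] at this; linarith
  have hmnn : (0 : ℝ) ≤ m := Nat.cast_nonneg _
  have hm10 : (10 : ℝ) ≤ m := by
    have : ζ * (m : ℝ) ≤ 1 * m := mul_le_mul_of_nonneg_right (by linarith) hmnn
    linarith
  have hmpos : (0 : ℝ) < m := by linarith
  by_cases hbig : (SS A).card ≤ m ^ 2
  · obtain ⟨K', _, _, _, A', hA', hG', hc', hs'⟩ := exists_gen K A hA
    rw [← hs']
    have hcn : A'.card = m := by rw [hc', hm]
    obtain ⟨i, hi⟩ : ∃ i : ℕ, i = ⌊(1 - ζ) * (m : ℝ)⌋₊ := ⟨_, rfl⟩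
    have hpos : 0 ≤ (1 - ζ) * (m : ℝ) := mul_nonneg (by linarith) hmnn
    have hi1 : (i : ℝ) ≤ (1 - ζ) * m := by
      rw [hi]; exact Nat.floor_le hpos
    have hi2 : (1 - ζ) * (m : ℝ) < i + 1 := by
      rw [hi]; exact Nat.lt_floor_add_one _
    have hζm : ζ * (m : ℝ) ≤ 1/200 * m := mul_le_mul_of_nonneg_right hζ1 hmnn
    have key := hM0 K' A' hA' (by rw [hcn]; exact hA0) hG' (by rw [hs', hcn]; exact hbig) i
          (by rw [hcn]; linarith) (by rw [hcn]; exact hi1)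
    rw [hcn] at key
    rcases key with ⟨D, hDA, hDc, hGD, hD⟩ | ⟨D, D', hDD', hD'A, hDi, hD'c, hD, hSS⟩
    · have h1 : ((SS D).card : ℝ) ≤ (SS A').card := by exact_mod_cast card_le_card (SS_mono hDA)
      have h2 := imp_num1 hζ hζ1 hm3 hi1 hi2
      calc γ' * (m : ℝ) ^ 2 ≤ (1/2 - 100 * ζ) * (m : ℝ) ^ 2 :=
            mul_le_mul_of_nonneg_right hγ'3 (sq_nonneg _)
        _ ≤ _ := h2
        _ ≤ _ := hD
        _ ≤ _ := h1
    · have hc2 : (A' \ D').card + D'.card = m := by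
        rw [← hcn]; exact card_sdiff_add_card_eq_card hD'A
      have hrem : m ≤ (A' \ D').card + D.card + 1 := by omega
      have hrem' : (m : ℝ) ≤ (A' \ D').card + D.card + 1 := by exact_mod_cast hrem
      have hDi' : (D.card : ℝ) ≤ i := by exact_mod_cast hDi
      have hSS' : 2 * ((SS (A' \ D')).card : ℝ) ≤ (SS A').card + 2 := by exact_mod_cast hSS
      have hMs : Mγ ≤ (A' \ D').card := by
        have : (Mγ : ℝ) ≤ (A' \ D').card := by linarith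
        exact_mod_cast this
      have h1 := hMγ K' (A' \ D') (hA'.mono sdiff_subset) hMs
      have hsch := hA'.card_SS_sdiff hD'A
      have hDD := card_le_card (SS_mono hDD')
      have hsch' : ((SS D).card : ℝ) + (SS (A' \ D')).card ≤ (SS A').card + 1 := by
        exact_mod_cast (by omega : (SS D).card + (SS (A' \ D')).card ≤ (SS A').card + 1)
      have hd0 : (0 : ℝ) ≤ D.card := Nat.cast_nonneg _
      have hmd : 0 ≤ (m : ℝ) - D.card := by linarith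
      have hγ0 : 0 < γ := by linarith
      have h3 := imp_num2 hmd (by linarith) (by linarith) hrem' hγ0 (by linarith) h1
      by_cases hdm : (D.card : ℝ) ≤ m / 4
      · exact imp_num3 hmpos hdm hcγ hγ'1 hc hm4 hm10 h3 hSS'
      · push Not at hdm
        exact imp_num4 hmpos hdm hmd hγ hζ hm3 hζ1 hγ'2 h3 hD hsch'
  · push Not at hbig
    have h1 : ((m : ℝ) ^ 2) ≤ (SS A).card := by exact_mod_cast hbig.le
    have h2 : γ' * (m : ℝ) ^ 2 ≤ 1 * (m : ℝ) ^ 2 :=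
      mul_le_mul_of_nonneg_right (by linarith) (sq_nonneg _)
    linarith

/-- Asymptotic lower bound. -/
theorem asymp (η : ℝ) (hη : 0 < η) (hη1 : η < 1/2) : Pg.{u} (1/2 - η) := by
  obtain ⟨c0, hc0, hbase⟩ := base_bound.{u}
  obtain ⟨c, hc⟩ : ∃ c : ℝ, c = min c0 (1/2 - η) := ⟨_, rfl⟩
  have hcpos : 0 < c := by rw [hc]; exact lt_min hc0 (by linarith)
  obtain ⟨ζ, hζdef⟩ : ∃ ζ : ℝ, ζ = η / 100 := ⟨_, rfl⟩
  have hζ : 0 < ζ := by rw [hζdef]; positivity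
  have hηζ : η = 100 * ζ := by rw [hζdef]; ring
  obtain ⟨δ, hδ⟩ : ∃ δ : ℝ, δ = min (c/16) (100 * ζ/8) := ⟨_, rfl⟩
  have hδpos : 0 < δ := by rw [hδ]; exact lt_min (by positivity) (by positivity)
  have hP0 : Pg.{u} c := by
    refine ⟨0, fun K _ _ _ A hA _ => ?_⟩
    have h1 := hbase A.card K A hA rfl
    have h2 : c ≤ c0 := by rw [hc]; exact min_le_left _ _
    exact (mul_le_mul_of_nonneg_right h2 (sq_nonneg _)).trans h1
  have hk : ∀ k : ℕ, Pg.{u} (min (c + k * δ) (1/2 - η)) := by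
    intro k
    induction k with
    | zero =>
      refine hP0.mono ?_
      rw [Nat.cast_zero, zero_mul, add_zero]
      exact min_le_left _ _
    | succ k ih =>
      by_cases h : 1/2 - η ≤ c + k * δ
      · rw [min_eq_right h] at ih
        exact ih.mono (min_le_right _ _)
      · push Not at h
        rw [min_eq_left h.le] at ih
        have hkδ : 0 ≤ (k : ℝ) * δ := by positivity
        have h3 := ih.improve hcpos hζ (by linarith) (by linarith)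
        refine h3.mono ?_
        rw [← hδ, ← hηζ]
        push_cast
        have h4 : c + (k + 1) * δ = c + k * δ + δ := by ring
        rw [h4]
  obtain ⟨k, hk1⟩ := exists_nat_ge ((1/2) / δ)
  have h5 := hk k
  rw [min_eq_right] at h5
  · exact h5
  · rw [div_le_iff₀ hδpos] at hk1
    linarith

end Pool.Agent.Lib.MP_ee6709_co
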