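import Mathlib

/-!
# Basic facts on subset sums of zero-sum-free sets (MP_ee6709_co)
-/

set_option linter.style.longLine false
set_option linter.unusedSectionVars false

namespace Pool.Agent.Lib.MP_ee6709_co

open Finset
open scoped Pointwise

variable {K : Type*} [AddCommGroup K] [DecidableEq K]

/-- All subset sums (including the empty sum `0`). -/
def SS (A : Finset K) : Finset K := A.powerset.image (fun S => ∑ x ∈ S, x)

/-- Weakly zero-sum-free sets: only the empty subset has sum zero. -/
def ZSF (A : Finset K) : Prop := ∀ S ⊆ A, ∑ x ∈ S, x = 0 → S = ∅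

lemma mem_SS {A : Finset K} {z : K} : z ∈ SS A ↔ ∃ S ⊆ A, ∑ x ∈ S, x = z := by
  simp [SS]

lemma SS_empty : SS (∅ : Finset K) = {0} := by
  simp [SS]

lemma zero_mem_SS (A : Finset K) : (0 : K) ∈ SS A := mem_SS.2 ⟨∅, by simp, by simp⟩

lemma SS_mono {A B : Finset K} (h : A ⊆ B) : SS A ⊆ SS B := by
  intro z hz
  obtain ⟨S, hS, rfl⟩ := mem_SS.1 hz
  exact mem_SS.2 ⟨S, hS.trans h, rfl⟩

lemma mem_SS_of_mem {A : Finset K} {x : K} (h : x ∈ A) : x ∈ SS A :=
  mem_SS.2 ⟨{x}, by simpa using h, by simp⟩

lemma ZSF.mono {A B : Finset K} (h : ZSF B) (hAB : A ⊆ B) : ZSF A :=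
  fun S hS h0 => h S (hS.trans hAB) h0

lemma ZSF.zero_notMem {A : Finset K} (h : ZSF A) : (0 : K) ∉ A := by
  intro h0
  have := h {0} (by simpa using h0) (by simp)
  simp at this

/-- Disjoint unions: the subset sums form the sumset. -/
lemma SS_union {A B : Finset K} (h : Disjoint A B) : SS (A ∪ B) = SS A + SS B := by
  ext z
  rw [mem_add]
  constructor
  · intro hz
    obtain ⟨S, hS, rfl⟩ := mem_SS.1 hz
    refine ⟨∑ x ∈ S ∩ A, x, mem_SS.2 ⟨_, inter_subset_right, rfl⟩,
      ∑ x ∈ S \ A, x, mem_SS.2 ⟨_, ?_, rfl⟩, ?_⟩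
    · intro x hx
      rw [mem_sdiff] at hx
      have := hS hx.1
      rw [mem_union] at this
      tauto
    · exact Finset.sum_inter_add_sum_sdiff S A _
  · rintro ⟨a, ha, b, hb, rfl⟩
    obtain ⟨S, hS, rfl⟩ := mem_SS.1 ha
    obtain ⟨T, hT, rfl⟩ := mem_SS.1 hb
    refine mem_SS.2 ⟨S ∪ T, union_subset_union hS hT, ?_⟩
    exact sum_union (h.mono hS hT)

lemma SS_singleton (x : K) : SS ({x} : Finset K) = {0, x} := by
  ext z
  rw [mem_SS]
  constructor
  · rintro ⟨S, hS, rfl⟩
    rcases subset_singleton_iff.1 hS with rfl | rfl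
    · simp
    · simp
  · intro hz
    rw [mem_insert, mem_singleton] at hz
    rcases hz with rfl | rfl
    · exact ⟨∅, by simp, by simp⟩
    · exact ⟨{z}, by simp, by simp⟩

/-- Translate of a finite set. -/
def tr (B : Finset K) (x : K) : Finset K := B.image (fun b => b + x)

lemma mem_tr {B : Finset K} {x z : K} : z ∈ tr B x ↔ z - x ∈ B := by
  rw [tr, mem_image]
  constructor
  · rintro ⟨b, hb, rfl⟩; simpa using hb
  · intro h; exact ⟨z - x, h, by abel⟩

lemma card_tr (B : Finset K) (x : K) : (tr B x).card = B.card :=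
  card_image_of_injective _ (add_left_injective x)

lemma SS_insert {A : Finset K} {x : K} (hx : x ∉ A) :
    SS (insert x A) = SS A ∪ tr (SS A) x := by
  have h : insert x A = A ∪ {x} := by
    ext y; simp
  rw [h, SS_union (by simpa using hx), SS_singleton]
  ext z
  rw [mem_add, mem_union, mem_tr]
  constructor
  · rintro ⟨a, ha, b, hb, rfl⟩
    rw [mem_insert, mem_singleton] at hb
    rcases hb with rfl | rfl
    · left; simpa using ha
    · right; simpa using ha
  · rintro (h | h)
    · exact ⟨z, h, 0, by simp, by simp⟩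
    · exact ⟨z - x, h, x, by simp, by abel⟩

/-- `λ_B(x) = |(B+x) \ B|`. -/
def lam (B : Finset K) (x : K) : ℕ := ((tr B x) \ B).card

lemma card_SS_insert {A : Finset K} {x : K} (hx : x ∉ A) :
    (SS (insert x A)).card = (SS A).card + lam (SS A) x := by
  rw [SS_insert hx, lam, ← card_union_of_disjoint, union_sdiff_self_eq_union]
  exact disjoint_sdiff

lemma lam_zero (B : Finset K) : lam B 0 = 0 := by
  rw [lam, card_eq_zero, sdiff_eq_empty_iff_subset]
  intro z hz
  rw [mem_tr] at hz
  simpa using hz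

lemma lam_neg (B : Finset K) (x : K) : lam B (-x) = lam B x := by
  have h1 : lam B (-x) + ((tr B (-x)) ∩ B).card = B.card := by
    rw [lam, card_sdiff_add_card_inter, card_tr]
  have h2 : lam B x + ((tr B x) ∩ B).card = B.card := by
    rw [lam, card_sdiff_add_card_inter, card_tr]
  have h3 : ((tr B (-x)) ∩ B).card = ((tr B x) ∩ B).card := by
    rw [← card_tr ((tr B (-x)) ∩ B) x]
    congr 1
    ext z
    simp only [mem_tr, mem_inter]
    constructor
    · rintro ⟨h, h'⟩; exact ⟨h', by simpa using h⟩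
    · rintro ⟨h, h'⟩; exact ⟨by simpa using h', h⟩
  omega

lemma lam_add_le (B : Finset K) (x y : K) : lam B (x + y) ≤ lam B x + lam B y := by
  -- (B + x + y) \ B ⊆ ((B+x) \ B) + y ∪ ((B + y) \ B)
  have h : (tr B (x + y)) \ B ⊆ tr ((tr B x) \ B) y ∪ ((tr B y) \ B) := by
    intro z hz
    rw [mem_sdiff, mem_tr] at hz
    rw [mem_union, mem_tr, mem_sdiff, mem_tr, mem_sdiff, mem_tr]
    by_cases h : z - y ∈ B
    · right; exact ⟨h, hz.2⟩
    · left
      refine ⟨?_, h⟩
      have : z - y - x = z - (x + y) := by abel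
      rw [this]; exact hz.1
  calc lam B (x + y) ≤ (tr ((tr B x) \ B) y ∪ ((tr B y) \ B)).card := card_le_card h
    _ ≤ _ := by
      refine (card_union_le _ _).trans ?_
      rw [card_tr]; rfl

lemma lam_le_card (B : Finset K) (x : K) : lam B x ≤ B.card := by
  rw [lam, ← card_tr B x]
  exact card_le_card sdiff_subset

/-- T3: `Σ_{c∈C} λ_B(c) ≥ |B| (|C| - |B|)`. -/
lemma sum_lam_ge (B C : Finset K) : B.card * C.card ≤ ∑ c ∈ C, lam B c + B.card * B.card := by
  have h1 : ∀ c ∈ C, lam B c + ((tr B c) ∩ B).card = B.card := by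
    intro c _
    rw [lam, card_sdiff_add_card_inter, card_tr]
  have h2 : ∑ c ∈ C, lam B c + ∑ c ∈ C, ((tr B c) ∩ B).card = C.card * B.card := by
    rw [← sum_add_distrib, sum_congr rfl h1, sum_const, smul_eq_mul]
  have h3 : ∑ c ∈ C, ((tr B c) ∩ B).card ≤ B.card * B.card := by
    have : ∑ c ∈ C, ((tr B c) ∩ B).card = ∑ b ∈ B, (C.filter (fun c => b - c ∈ B)).card := by
      have e1 : ∀ c ∈ C, ((tr B c) ∩ B).card = ∑ b ∈ B, if b - c ∈ B then 1 else 0 := by
        intro c _
        rw [← card_filter]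
        congr 1
        ext z
        simp only [mem_inter, mem_tr, mem_filter]
        tauto
      rw [sum_congr rfl e1, sum_comm]
      refine sum_congr rfl fun b _ => ?_
      rw [card_filter]
    rw [this, ← smul_eq_mul, ← sum_const]
    refine sum_le_sum fun b _ => ?_
    refine card_le_card_of_injOn (fun c => b - c) ?_ ?_
    · intro c hc
      simp only [coe_filter, Set.mem_ofPred_eq] at hc
      exact hc.2
    · intro c _ d _ hcd
      simpa using hcd
  nlinarith [h2, h3]

/-- Scherk: if `0 ∈ U, V` and `0 = u + v` only trivially then `|U+V| ≥ |U|+|V|-1`. -/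
lemma scherk (n : ℕ) : ∀ (U V : Finset K), V.card = n → (0 : K) ∈ U → (0 : K) ∈ V →
    (∀ u ∈ U, ∀ v ∈ V, u + v = 0 → u = 0 ∧ v = 0) →
    U.card + V.card ≤ (U + V).card + 1 := by
  induction n using Nat.strong_induction_on with
  | _ n ih =>
    intro U V hn hU hV huv
    by_cases h1 : ∃ v ∈ V, v ≠ 0
    · obtain ⟨v, hv, hv0⟩ := h1
      -- there is u ∈ U with u + v ∉ U
      have h2 : ∃ u ∈ U, u + v ∉ U := by
        by_contra hcon
        push Not at hcon
        have hsub : tr U v ⊆ U := by
          intro z hz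
          rw [mem_tr] at hz
          have := hcon _ hz
          simpa using this
        have heq : tr U v = U := eq_of_subset_of_card_le hsub (by rw [card_tr])
        have h0 : (0 : K) ∈ tr U v := by rw [heq]; exact hU
        rw [mem_tr] at h0
        have := huv _ h0 v hv (by abel)
        exact hv0 this.2
      obtain ⟨u, hu, huv'⟩ := h2
      set V1 := V.filter (fun w => u + w ∉ U) with hV1
      have hv1 : v ∈ V1 := by rw [hV1, mem_filter]; exact ⟨hv, huv'⟩
      have h01 : (0 : K) ∉ V1 := by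
        rw [hV1, mem_filter]; simp [hu]
      set U' := U ∪ V1.image (fun w => u + w) with hU'
      set V' := V \ V1 with hV'
      have hdisj : Disjoint U (V1.image (fun w => u + w)) := by
        rw [disjoint_left]
        intro z hz hz'
        rw [mem_image] at hz'
        obtain ⟨w, hw, rfl⟩ := hz'
        rw [hV1, mem_filter] at hw
        exact hw.2 hz
      have hcU : U'.card = U.card + V1.card := by
        rw [hU', card_union_of_disjoint hdisj, card_image_of_injective _ (add_right_injective u)]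
      have hcV : V'.card + V1.card = V.card := by
        rw [hV']
        exact card_sdiff_add_card_eq_card (filter_subset _ _)
      have hV1pos : 0 < V1.card := card_pos.2 ⟨v, hv1⟩
      have hlt : V'.card < n := by omega
      have key := ih V'.card hlt U' V' rfl (by rw [hU']; exact mem_union_left _ hU)
        (by rw [hV', mem_sdiff]; exact ⟨hV, h01⟩) (by
          intro a ha b hb hab
          rw [hV', mem_sdiff] at hb
          rw [hU', mem_union, mem_image] at ha
          rcases ha with ha | ⟨w, hw, rfl⟩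
          · exact huv a ha b hb.1 hab
          · exfalso
            have hbU : u + b ∈ U := by
              by_contra hcon
              exact hb.2 (by rw [hV1, mem_filter]; exact ⟨hb.1, hcon⟩)
            have hwV : w ∈ V := (mem_filter.1 hw).1
            have := huv _ hbU w hwV (by rw [← hab]; abel)
            rw [this.2] at hw
            exact h01 hw)
      have hsub : U' + V' ⊆ U + V := by
        intro z hz
        rw [mem_add] at hz
        obtain ⟨a, ha, b, hb, rfl⟩ := hz
        rw [hV', mem_sdiff] at hb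
        rw [hU', mem_union, mem_image] at ha
        rcases ha with ha | ⟨w, hw, rfl⟩
        · exact add_mem_add ha hb.1
        · have hbU : u + b ∈ U := by
            by_contra hcon
            exact hb.2 (by rw [hV1, mem_filter]; exact ⟨hb.1, hcon⟩)
          have hwV : w ∈ V := (mem_filter.1 hw).1
          have : u + w + b = (u + b) + w := by abel
          rw [this]
          exact add_mem_add hbU hwV
      have := card_le_card hsub
      omega
    · push Not at h1
      have hV0 : V = {0} := by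
        ext z
        rw [mem_singleton]
        exact ⟨fun h => h1 z h, fun h => h ▸ hV⟩
      rw [hV0]
      simp

/-- For disjoint parts of a zero-sum-free set. -/
lemma ZSF.sum_add_sum {A S T : Finset K} (h : ZSF A) (hS : S ⊆ A) (hT : T ⊆ A)
    (hd : Disjoint S T) (h0 : ∑ x ∈ S, x + ∑ x ∈ T, x = 0) : S = ∅ ∧ T = ∅ := by
  rw [← sum_union hd] at h0
  have := h _ (union_subset hS hT) h0
  exact union_eq_empty.1 this

lemma ZSF.card_SS_union {A D E : Finset K} (h : ZSF A) (hD : D ⊆ A) (hE : E ⊆ A)
    (hd : Disjoint D E) : (SS D).card + (SS E).card ≤ (SS (D ∪ E)).card + 1 := by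
  rw [SS_union hd]
  refine scherk _ (SS D) (SS E) rfl (zero_mem_SS _) (zero_mem_SS _) ?_
  intro u hu v hv huv
  obtain ⟨S, hS, rfl⟩ := mem_SS.1 hu
  obtain ⟨T, hT, rfl⟩ := mem_SS.1 hv
  obtain ⟨h1, h2⟩ := h.sum_add_sum (hS.trans hD) (hT.trans hE) (hd.mono hS hT) huv
  subst h1; subst h2
  simp

lemma ZSF.card_SS_sdiff {A D : Finset K} (h : ZSF A) (hD : D ⊆ A) :
    (SS D).card + (SS (A \ D)).card ≤ (SS A).card + 1 := by
  have := h.card_SS_union hD (sdiff_subset : A \ D ⊆ A) disjoint_sdiff
  rwa [union_sdiff_of_subset hD] at this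

/-- `-x` is not a subset sum of `A \ {x}`. -/
lemma ZSF.neg_notMem {A : Finset K} (h : ZSF A) {x : K} (hx : x ∈ A) {E : Finset K}
    (hE : E ⊆ A) (hxE : x ∉ E) : -x ∉ SS E := by
  intro hcon
  obtain ⟨S, hS, hsum⟩ := mem_SS.1 hcon
  have := h.sum_add_sum (S := {x}) (T := S) (by simpa using hx) (hS.trans hE)
    (by rw [disjoint_singleton_left]; exact fun h' => hxE (hS h')) (by simp [hsum])
  simp at this

lemma ZSF.lam_pos {A : Finset K} (h : ZSF A) {x : K} (hx : x ∈ A) {E : Finset K}
    (hE : E ⊆ A) (hxE : x ∉ E) : 1 ≤ lam (SS E) x := by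
  by_contra hcon
  have h0 : lam (SS E) x = 0 := by omega
  rw [lam, card_eq_zero, sdiff_eq_empty_iff_subset] at h0
  have heq : tr (SS E) x = SS E := eq_of_subset_of_card_le h0 (by rw [card_tr])
  have : (0 : K) ∈ tr (SS E) x := by rw [heq]; exact zero_mem_SS _
  rw [mem_tr, zero_sub] at this
  exact h.neg_notMem hx hE hxE this

/-- `|SS A| ≥ |A| + 1`. -/
lemma ZSF.card_lt_SS {A : Finset K} (h : ZSF A) : A.card + 1 ≤ (SS A).card := by
  have : insert 0 A ⊆ SS A := by
    intro z hz
    rw [mem_insert] at hz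
    rcases hz with rfl | hz
    · exact zero_mem_SS _
    · exact mem_SS_of_mem hz
  have h2 := card_le_card this
  rwa [card_insert_of_notMem h.zero_notMem] at h2

/-- Elements of order two in a zero-sum-free set are independent. -/
lemma ZSF.two_pow_card {E : Finset K} (h : ZSF E) (h2 : ∀ x ∈ E, x + x = 0) :
    2 ^ E.card ≤ (SS E).card := by
  rw [← card_powerset, SS, card_image_of_injOn]
  intro S hS T hT hST
  simp only [coe_powerset, Set.mem_preimage, Set.mem_powerset_iff, coe_subset] at hS hT
  simp only at hST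
  have e1 : ∑ x ∈ S \ T, x + ∑ x ∈ S ∩ T, x = ∑ x ∈ S, x := by
    rw [add_comm]; exact sum_inter_add_sum_sdiff S T _
  have e2 : ∑ x ∈ T \ S, x + ∑ x ∈ S ∩ T, x = ∑ x ∈ T, x := by
    rw [add_comm, inter_comm]; exact sum_inter_add_sum_sdiff T S _
  have e3 : ∑ x ∈ S \ T, x = ∑ x ∈ T \ S, x := by
    have : ∑ x ∈ S \ T, x + ∑ x ∈ S ∩ T, x = ∑ x ∈ T \ S, x + ∑ x ∈ S ∩ T, x := by
      rw [e1, e2, hST]
    exact add_right_cancel this
  have e4 : ∑ x ∈ S \ T, x + ∑ x ∈ T \ S, x = 0 := by
    rw [e3, ← sum_add_distrib]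
    exact sum_eq_zero fun x hx => h2 x (hT (mem_sdiff.1 hx).1)
  have e5 := h.sum_add_sum (sdiff_subset.trans hS) (sdiff_subset.trans hT)
    disjoint_sdiff_sdiff e4
  rw [sdiff_eq_empty_iff_subset, sdiff_eq_empty_iff_subset] at e5
  exact subset_antisymm e5.1 e5.2

end Pool.Agent.Lib.MP_ee6709_co
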