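import Pool.Agent.Lib.MP_ee6709_co.Fibre

/-!
# Windows of full fibres (MP_ee6709_co)
-/

set_option linter.style.longLine false
set_option linter.unusedSectionVars false

namespace Pool.Agent.Lib.MP_ee6709_co

open Finset
open scoped Pointwise

universe u

section
variable {K : Type u} [AddCommGroup K] [DecidableEq K] [Fintype K]

/-- `E` contains the `q` consecutive fibres over `w, w+1, ..., w+q-1`. -/
def Win {ν : ℕ} (ψ : K →+ ZMod ν) (E : Finset K) (w : ZMod ν) (q : ℕ) : Prop :=
  ∀ i < q, fib ψ (w + (i : ZMod ν)) ⊆ E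

lemma Win.mono {ν : ℕ} {ψ : K →+ ZMod ν} {E E' : Finset K} {w : ZMod ν} {q : ℕ}
    (h : Win ψ E w q) (hE : E ⊆ E') : Win ψ E' w q := fun i hi => (h i hi).trans hE

lemma Win.tr {ν : ℕ} {ψ : K →+ ZMod ν} {E : Finset K} {w : ZMod ν} {q : ℕ}
    (h : Win ψ E w q) (σ : K) : Win ψ (tr E σ) (w + ψ σ) q := by
  intro i hi z hz
  rw [mem_fib] at hz
  rw [mem_tr]
  apply h i hi
  rw [mem_fib, map_sub, hz]; ring

lemma Win.add {ν : ℕ} {ψ : K →+ ZMod ν} {E : Finset K} {w : ZMod ν} {q : ℕ} (h : Win ψ E w q)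
    {y : K} (hy : ht (ψ y) ≤ q) : ∃ w' : ZMod ν, Win ψ (E ∪ MP_ee6709_co.tr E y) w' (q + ht (ψ y)) := by
  obtain ⟨t, ht'⟩ : ∃ t, t = ht (ψ y) := ⟨_, rfl⟩
  rw [← ht'] at hy ⊢
  rcases eq_of_ht ht'.symm with h1 | h1
  · refine ⟨w, fun i hi => ?_⟩
    by_cases hiq : i < q
    · exact (h i hiq).trans subset_union_left
    · intro z hz
      rw [mem_fib] at hz
      rw [mem_union, mem_tr]
      right
      apply h (i - t) (by omega)
      rw [mem_fib, map_sub, hz, h1, Nat.cast_sub (by omega)]; ring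
  · refine ⟨w - t, fun i hi => ?_⟩
    by_cases hiq : i < q
    · intro z hz
      rw [mem_fib] at hz
      rw [mem_union, mem_tr]
      right
      apply h i hiq
      rw [mem_fib, map_sub, hz, h1]; ring
    · intro z hz
      rw [mem_fib] at hz
      rw [mem_union]
      left
      apply h (i - t) (by omega)
      rw [mem_fib, hz, Nat.cast_sub (by omega)]; ring

lemma card_image_cast {ν q : ℕ} (hq : q ≤ ν) (w : ZMod ν) :
    ((range q).image (fun i : ℕ => w + (i : ZMod ν))).card = q := by
  rw [card_image_of_injOn, card_range]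
  intro a ha b hb hab
  rw [mem_coe, mem_range] at ha hb
  have h1 : ((a : ℕ) : ZMod ν) = b := add_left_cancel hab
  rw [ZMod.natCast_eq_natCast_iff'] at h1
  rwa [Nat.mod_eq_of_lt (by omega), Nat.mod_eq_of_lt (by omega)] at h1

lemma Win.card {ν : ℕ} [NeZero ν] {ψ : K →+ ZMod ν} (hψ : Function.Surjective ψ) {E : Finset K}
    {w : ZMod ν} {q : ℕ} (h : Win ψ E w q) (hq : q ≤ ν) : (fib ψ 0).card * q ≤ E.card := by
  have h1 := card_image_cast hq w
  rw [← h1, ← card_pre hψ]
  apply card_le_card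
  intro z hz
  rw [mem_filter, mem_image] at hz
  obtain ⟨_, i, hi, hiz⟩ := hz
  apply h i (mem_range.1 hi)
  rw [mem_fib]; exact hiz.symm

lemma Win.eq_univ {ν : ℕ} [NeZero ν] {ψ : K →+ ZMod ν} {E : Finset K}
    {w : ZMod ν} {q : ℕ} (h : Win ψ E w q) (hq : ν ≤ q) : E = univ := by
  apply subset_antisymm (subset_univ _)
  intro z _
  have h1 : (ψ z - w).val < q := lt_of_lt_of_le (ZMod.val_lt _) hq
  apply h _ h1
  rw [mem_fib, ZMod.natCast_zmod_val]; ring

/-- Adding an element of height larger than the window doubles. -/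
lemma Win.double {ν : ℕ} [NeZero ν] {ψ : K →+ ZMod ν} (hψ : Function.Surjective ψ) {E : Finset K}
    {w : ZMod ν} {q : ℕ} (h : Win ψ E w q) (hq : q ≤ ν) {y : K} (hy : q < ht (ψ y)) :
    2 * ((fib ψ 0).card * q) ≤ (E ∪ MP_ee6709_co.tr E y).card := by
  set S1 := (range q).image (fun i : ℕ => w + (i : ZMod ν)) with hS1
  set S2 := (range q).image (fun i : ℕ => (w + ψ y) + (i : ZMod ν)) with hS2
  have hc1 : S1.card = q := card_image_cast hq _
  have hc2 : S2.card = q := card_image_cast hq _
  have hdisj : Disjoint S1 S2 := by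
    rw [disjoint_left]
    intro s hs hs'
    rw [hS1, mem_image] at hs
    rw [hS2, mem_image] at hs'
    obtain ⟨i, hi, rfl⟩ := hs
    obtain ⟨j, hj, hij⟩ := hs'
    rw [mem_range] at hi hj
    have h1 : ψ y = (((i : ℤ) - j : ℤ) : ZMod ν) := by
      push_cast
      linear_combination hij
    have h2 : ht (ψ y) ≤ ((i : ℤ) - j).natAbs := by
      rw [ht]
      exact ZMod.natAbs_min_of_le_div_two ν _ _ (by rw [ZMod.coe_valMinAbs, h1])
        (ZMod.natAbs_valMinAbs_le _)
    omega
  have hcard : (S1 ∪ S2).card = 2 * q := by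
    rw [card_union_of_disjoint hdisj, hc1, hc2]; ring
  have h2 : 2 * ((fib ψ 0).card * q) = (fib ψ 0).card * (S1 ∪ S2).card := by rw [hcard]; ring
  rw [h2, ← card_pre hψ]
  apply card_le_card
  intro z hz
  rw [mem_filter, mem_union] at hz
  rw [mem_union]
  rcases hz.2 with h3 | h3
  · left
    rw [hS1, mem_image] at h3
    obtain ⟨i, hi, hiz⟩ := h3
    apply h i (mem_range.1 hi)
    rw [mem_fib]; exact hiz.symm
  · right
    rw [hS2, mem_image] at h3
    obtain ⟨i, hi, hiz⟩ := h3
    rw [mem_tr]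
    apply h i (mem_range.1 hi)
    rw [mem_fib, map_sub, ← hiz]; ring

/-- Total height. -/
def tot {ν : ℕ} (ψ : K →+ ZMod ν) (F : Finset K) : ℕ := ∑ y ∈ F, ht (ψ y)

/-- The process of adding elements in order of increasing height. -/
lemma process {ν : ℕ} {ψ : K →+ ZMod ν} {Z : Finset K} {w : ZMod ν} {q0 : ℕ}
    (hw : Win ψ (SS Z) w q0) (n : ℕ) : ∀ F : Finset K, F.card = n → Disjoint Z F →
    (∀ y ∈ F, ht (ψ y) ≤ q0 + tot ψ (F.filter (fun y' => ht (ψ y') < ht (ψ y)))) →
    ∃ w' : ZMod ν, Win ψ (SS (Z ∪ F)) w' (q0 + tot ψ F) := by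
  induction n with
  | zero =>
    intro F hF _ _
    rw [card_eq_zero] at hF
    subst hF
    exact ⟨w, by rw [union_empty, tot, sum_empty, add_zero]; exact hw⟩
  | succ n ih =>
    intro F hF hd hcond
    have hne : F.Nonempty := card_pos.1 (by omega)
    obtain ⟨y, hy, hmax⟩ := exists_max_image F (fun y => ht (ψ y)) hne
    have hfil : ∀ y' ∈ F.erase y, (F.erase y).filter (fun y'' => ht (ψ y'') < ht (ψ y'))
        = F.filter (fun y'' => ht (ψ y'') < ht (ψ y')) := by
      intro y' hy'
      ext z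
      rw [mem_filter, mem_filter, mem_erase]
      constructor
      · rintro ⟨⟨_, h2⟩, h3⟩; exact ⟨h2, h3⟩
      · rintro ⟨h2, h3⟩
        refine ⟨⟨?_, h2⟩, h3⟩
        intro hzy
        subst hzy
        have := hmax y' (mem_of_mem_erase hy')
        omega
    obtain ⟨w', hw'⟩ := ih (F.erase y) (by rw [card_erase_of_mem hy, hF]; rfl)
      (hd.mono_right (erase_subset _ _)) (by
        intro y' hy'
        rw [hfil y' hy']
        exact hcond y' (mem_of_mem_erase hy'))
    have htot : tot ψ F = tot ψ (F.erase y) + ht (ψ y) := by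
      rw [tot, tot, sum_erase_add _ _ hy]
    have hle : tot ψ (F.filter (fun y' => ht (ψ y') < ht (ψ y))) ≤ tot ψ (F.erase y) := by
      rw [tot, tot]
      apply sum_le_sum_of_subset
      intro z hz
      rw [mem_filter] at hz
      rw [mem_erase]
      refine ⟨?_, hz.1⟩
      intro h; subst h; omega
    have hyq : ht (ψ y) ≤ q0 + tot ψ (F.erase y) := by
      have := hcond y hy
      omega
    obtain ⟨w'', hw''⟩ := hw'.add hyq
    refine ⟨w'', ?_⟩
    have hynot : y ∉ Z ∪ F.erase y := by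
      rw [mem_union, mem_erase]
      rintro (h | h)
      · exact (disjoint_left.1 hd h) hy
      · exact h.1 rfl
    have hset : Z ∪ F = insert y (Z ∪ F.erase y) := by
      rw [← union_insert, insert_erase hy]
    rw [hset, SS_insert hynot, htot, ← add_assoc]
    exact hw''

/-- The process for all of `F`, given control on elements of height at most `L`. -/
lemma proc {ν : ℕ} [NeZero ν] {ψ : K →+ ZMod ν} (hψ : Function.Surjective ψ) {A Z F : Finset K}
    (hZA : Z ⊆ A) (hFA : F ⊆ A) (hd : Disjoint Z F) {w : ZMod ν} {q0 L : ℕ}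
    (hw : Win ψ (SS Z) w q0)
    (hcond : ∀ y ∈ F, ht (ψ y) ≤ L → ht (ψ y) ≤ q0 + tot ψ (F.filter (fun y' => ht (ψ y') < ht (ψ y))))
    (hbig : (SS A).card < 2 * ((fib ψ 0).card * (q0 + tot ψ (F.filter (fun y' => ht (ψ y') ≤ L))))) :
    ∃ w' : ZMod ν, Win ψ (SS (Z ∪ F)) w' (q0 + tot ψ F) := by
  apply process hw F.card F rfl hd
  by_contra hcon
  push Not at hcon
  -- violators
  set V := F.filter (fun y => q0 + tot ψ (F.filter (fun y' => ht (ψ y') < ht (ψ y))) < ht (ψ y)) with hV
  have hVne : V.Nonempty := by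
    obtain ⟨y, hy, hyv⟩ := hcon
    exact ⟨y, by rw [hV, mem_filter]; exact ⟨hy, hyv⟩⟩
  obtain ⟨y, hyV, hmin⟩ := exists_min_image V (fun y => ht (ψ y)) hVne
  rw [hV, mem_filter] at hyV
  obtain ⟨hyF, hyv⟩ := hyV
  have hyL : L < ht (ψ y) := by
    by_contra hc
    push Not at hc
    have := hcond y hyF hc
    omega
  set E := F.filter (fun y' => ht (ψ y') < ht (ψ y)) with hE
  have hEF : E ⊆ F := filter_subset _ _
  obtain ⟨w', hw'⟩ := process hw E.card E rfl (hd.mono_right hEF) (by
    intro y' hy'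
    have hy'' := mem_filter.1 hy'
    have hfil : E.filter (fun y'' => ht (ψ y'') < ht (ψ y')) = F.filter (fun y'' => ht (ψ y'') < ht (ψ y')) := by
      ext z
      rw [hE, mem_filter, mem_filter, mem_filter]
      constructor
      · rintro ⟨⟨h1, _⟩, h3⟩; exact ⟨h1, h3⟩
      · rintro ⟨h1, h3⟩; exact ⟨⟨h1, by omega⟩, h3⟩
    rw [hfil]
    by_contra hc
    push Not at hc
    have h4 : y' ∈ V := by rw [hV, mem_filter]; exact ⟨hy''.1, hc⟩
    have h5 := hmin y' h4
    omega)
  have hqν : q0 + tot ψ E ≤ ν := by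
    have h1 : ht (ψ y) ≤ ν / 2 := ZMod.natAbs_valMinAbs_le _
    omega
  have h6 := hw'.double hψ hqν hyv
  have hynot : y ∉ Z ∪ E := by
    rw [mem_union, hE, mem_filter]
    rintro (h | h)
    · exact (disjoint_left.1 hd h) hyF
    · omega
  rw [← SS_insert hynot] at h6
  have h7 : (SS (insert y (Z ∪ E))).card ≤ (SS A).card :=
    card_le_card (SS_mono (insert_subset (hFA hyF) (union_subset hZA (hEF.trans hFA))))
  have h8 : tot ψ (F.filter (fun y' => ht (ψ y') ≤ L)) ≤ tot ψ E := by
    rw [tot, tot]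
    apply sum_le_sum_of_subset
    intro z hz
    rw [mem_filter] at hz
    rw [hE, mem_filter]
    exact ⟨hz.1, by omega⟩
  have h9 : 2 * ((fib ψ 0).card * (q0 + tot ψ (F.filter (fun y' => ht (ψ y') ≤ L))))
      ≤ 2 * ((fib ψ 0).card * (q0 + tot ψ E)) :=
    Nat.mul_le_mul_left _ (Nat.mul_le_mul_left _ (by omega))
  omega

/-! ### Sign flips -/

/-- Flip signs of the elements not satisfying `p`. -/
lemma SS_flip (p : K → Prop) [DecidablePred p] (n : ℕ) : ∀ Z : Finset K, Z.card = n → ZSF Z →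
    ∃ σ : K, SS Z = MP_ee6709_co.tr (SS (Z.image (fun y => if p y then y else -y))) σ := by
  induction n with
  | zero =>
    intro Z hZ _
    rw [card_eq_zero] at hZ
    subst hZ
    refine ⟨0, ?_⟩
    rw [image_empty]
    ext z; rw [mem_tr, sub_zero]
  | succ n ih =>
    intro Z hZ hZS
    obtain ⟨y, hy⟩ : Z.Nonempty := card_pos.1 (by omega)
    obtain ⟨σ, hσ⟩ := ih (Z.erase y) (by rw [card_erase_of_mem hy, hZ]; rfl)
      (hZS.mono (erase_subset _ _))
    set f : K → K := fun y => if p y then y else -y with hf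
    have hnot : f y ∉ (Z.erase y).image f := by
      intro hcon
      rw [mem_image] at hcon
      obtain ⟨x, hx, hxy⟩ := hcon
      rw [mem_erase] at hx
      simp only [hf] at hxy
      -- x = ± y
      have hcase : x = y ∨ x = -y := by
        split_ifs at hxy with h1 h2 h2
        · left; exact hxy
        · right; exact hxy
        · right; rw [← hxy]; simp
        · left; exact neg_injective hxy
      rcases hcase with h | h
      · exact hx.1 h
      · have h1 := hZS.inter_neg hy (by rw [← h]; exact hx.2)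
        apply hx.1
        rw [h, neg_eq_iff_add_eq_zero]; exact h1
    have himg : Z.image f = insert (f y) ((Z.erase y).image f) := by
      rw [← image_insert, insert_erase hy]
    have hZe : Z = insert y (Z.erase y) := (insert_erase hy).symm
    have h1 : SS Z = SS (Z.erase y) ∪ MP_ee6709_co.tr (SS (Z.erase y)) y := by
      conv_lhs => rw [hZe]
      exact SS_insert (notMem_erase _ _)
    rw [himg, SS_insert hnot, h1, hσ]
    by_cases hp : p y
    · refine ⟨σ, ?_⟩
      have hfy : f y = y := by simp [hf, hp]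
      rw [hfy]
      ext z
      simp only [mem_union, mem_tr]
      have e : z - σ - y = z - y - σ := by abel
      rw [e]
    · refine ⟨σ + y, ?_⟩
      have hfy : f y = -y := by simp [hf, hp]
      rw [hfy]
      ext z
      simp only [mem_union, mem_tr]
      have e1 : z - (σ + y) = z - y - σ := by abel
      have e2 : z - (σ + y) - -y = z - σ := by abel
      rw [e2, e1]
      tauto

end

end Pool.Agent.Lib.MP_ee6709_co
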