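import Pool.Agent.Lib.MP_ee6709_co.Count1

/-!
# Sums of heights and seed windows (MP_ee6709_co)
-/

set_option linter.style.longLine false
set_option linter.unusedSectionVars false

namespace Pool.Agent.Lib.MP_ee6709_co

open Finset
open scoped Pointwise

universe u

section
variable {K : Type u} [AddCommGroup K] [DecidableEq K] [Fintype K]

/-- Holes at height `v`. -/
def hole {ν : ℕ} (ψ : K →+ ZMod ν) (A : Finset K) (v : ℕ) : ℕ := (fib ψ 0).card - (lev ψ A v).card

lemma hole_add {ν : ℕ} {ψ : K →+ ZMod ν} (hψ : Function.Surjective ψ) {A : Finset K} (hA : ZSF A) (v : ℕ) :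
    hole ψ A v + (lev ψ A v).card = (fib ψ 0).card := by
  have := card_lev_le hψ hA v
  rw [hole]; omega

/-- Lower bound for the total height. -/
lemma tot_ge {ν : ℕ} {ψ : K →+ ZMod ν} (hψ : Function.Surjective ψ) {B : Finset K} (hB : ZSF B)
    (k : ℕ) :
    ((k : ℝ) + 1) * ((B.card : ℝ) - (lev ψ B 0).card) - (fib ψ 0).card * (k * (k + 1) / 2)
      + ∑ v ∈ Icc 1 k, ((k : ℝ) + 1 - v) * hole ψ B v ≤ tot ψ B := by
  -- nonzero heights
  set B' := B.filter (fun x => 1 ≤ ht (ψ x)) with hB'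
  have hB'c : (B'.card : ℝ) = (B.card : ℝ) - (lev ψ B 0).card := by
    have h1 : (lev ψ B 0).card + B'.card = B.card := by
      rw [lev, hB', ← card_filter_add_card_filter_not (s := B) (fun x => ht (ψ x) = 0)]
      congr 2
      apply filter_congr
      intro x _
      omega
    have h2 : ((lev ψ B 0).card : ℝ) + B'.card = B.card := by exact_mod_cast h1
    linarith
  have htot : (tot ψ B : ℝ) = ∑ x ∈ B', (ht (ψ x) : ℝ) := by
    rw [tot, Nat.cast_sum, hB']
    rw [sum_filter]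
    refine sum_congr rfl fun x _ => ?_
    split_ifs with h
    · rfl
    · have : ht (ψ x) = 0 := by omega
      rw [this]; simp
  rw [← hB'c, htot]
  have h1 : ∑ x ∈ B', (((k : ℝ) + 1) - ht (ψ x)) ≤
      ∑ x ∈ B'.filter (fun x => ht (ψ x) ≤ k), (((k : ℝ) + 1) - ht (ψ x)) := by
    rw [sum_filter (s := B')]
    apply sum_le_sum
    intro x _
    split_ifs with h
    · exact le_refl _
    · push Not at h
      have : ((k : ℝ) + 1) ≤ ht (ψ x) := by exact_mod_cast h
      linarith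
  have h2 : ∑ x ∈ B'.filter (fun x => ht (ψ x) ≤ k), (((k : ℝ) + 1) - ht (ψ x))
      = ∑ v ∈ Icc 1 k, ((k : ℝ) + 1 - v) * (lev ψ B v).card := by
    rw [← sum_fiberwise_of_maps_to (s := B'.filter (fun x => ht (ψ x) ≤ k)) (t := Icc 1 k)
      (g := fun x => ht (ψ x))]
    · refine sum_congr rfl fun v hv => ?_
      rw [mem_Icc] at hv
      have h3 : (B'.filter (fun x => ht (ψ x) ≤ k)).filter (fun x => ht (ψ x) = v) = lev ψ B v := by
        ext x
        rw [lev, hB', mem_filter, mem_filter, mem_filter, mem_filter]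
        constructor
        · rintro ⟨⟨⟨h, _⟩, _⟩, h'⟩; exact ⟨h, h'⟩
        · rintro ⟨h, h'⟩; exact ⟨⟨⟨h, by omega⟩, by omega⟩, h'⟩
      rw [h3]
      have h4 : ∀ x ∈ lev ψ B v, (((k : ℝ) + 1) - ht (ψ x)) = (k : ℝ) + 1 - v := by
        intro x hx
        rw [lev, mem_filter] at hx
        rw [hx.2]
      rw [sum_congr rfl h4, sum_const, nsmul_eq_mul]; ring
    · intro x hx
      rw [hB', mem_filter, mem_filter] at hx
      rw [mem_Icc]; exact ⟨hx.1.2, hx.2⟩
  have h3 : ∑ v ∈ Icc 1 k, ((k : ℝ) + 1 - v) * (lev ψ B v).card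
      = (fib ψ 0).card * (k * (k + 1) / 2) - ∑ v ∈ Icc 1 k, ((k : ℝ) + 1 - v) * hole ψ B v := by
    have h4 : ∑ v ∈ Icc 1 k, ((k : ℝ) + 1 - v) * (lev ψ B v).card
        + ∑ v ∈ Icc 1 k, ((k : ℝ) + 1 - v) * hole ψ B v
        = ∑ v ∈ Icc 1 k, ((k : ℝ) + 1 - v) * (fib ψ 0).card := by
      rw [← sum_add_distrib]
      refine sum_congr rfl fun v _ => ?_
      have := hole_add hψ hB v
      have h5 : (hole ψ B v : ℝ) + (lev ψ B v).card = (fib ψ 0).card := by exact_mod_cast this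
      rw [← h5]; ring
    have h5 : ∑ v ∈ Icc 1 k, ((k : ℝ) + 1 - v) = k * (k + 1) / 2 := by
      have h6 : ∀ n : ℕ, ∑ v ∈ Icc 1 n, (v : ℝ) = n * (n + 1) / 2 := by
        intro n
        induction n with
        | zero => simp
        | succ n ih =>
          rw [Finset.sum_Icc_succ_top (by omega), ih]
          push_cast; ring
      rw [sum_sub_distrib, h6, sum_const, Nat.card_Icc, nsmul_eq_mul]
      simp; ring
    rw [← sum_mul, h5] at h4
    linarith
  have h4 : ∑ x ∈ B', (((k : ℝ) + 1) - ht (ψ x)) = B'.card * ((k : ℝ) + 1) - ∑ x ∈ B', (ht (ψ x) : ℝ) := by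
    rw [sum_sub_distrib, sum_const, nsmul_eq_mul]
  rw [h2, h3, h4] at h1
  linarith

/-- Existence of a pair of levels. -/
lemma exists_pair {hl : ℕ → ℕ} {τ N c w : ℕ} (hN : ∑ v ∈ Icc 1 (4 * c), hl v ≤ N)
    (hc : 2 * N < (c - 2) * τ) (hw1 : 2 * c ≤ w) (hw2 : w < 7 * c) :
    ∃ i j, 1 ≤ i ∧ i < j ∧ j ≤ 4 * c ∧ i + j = w ∧ hl i + hl j < τ := by
  by_contra hcon
  push Not at hcon
  set I := (Icc 1 (4 * c)).filter (fun i => 2 * i < w ∧ w ≤ i + 4 * c) with hI
  have h1 : I.card * τ ≤ ∑ i ∈ I, (hl i + hl (w - i)) := by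
    rw [← smul_eq_mul, ← sum_const]
    refine sum_le_sum fun i hi => ?_
    rw [hI, mem_filter, mem_Icc] at hi
    exact hcon i (w - i) hi.1.1 (by omega) (by omega) (by omega)
  have h2 : ∑ i ∈ I, (hl i + hl (w - i)) ≤ ∑ v ∈ Icc 1 (4 * c), hl v := by
    rw [sum_add_distrib]
    have h3 : ∑ i ∈ I, hl (w - i) = ∑ j ∈ I.image (fun i => w - i), hl j := by
      rw [sum_image]
      intro a ha b hb hab
      rw [mem_coe, hI, mem_filter, mem_Icc] at ha hb
      simp only at hab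
      omega
    rw [h3, ← sum_union]
    · apply sum_le_sum_of_subset
      intro v hv
      rw [mem_union, mem_image] at hv
      rcases hv with hv | ⟨i, hi, rfl⟩
      · exact (mem_filter.1 hv).1
      · rw [hI, mem_filter, mem_Icc] at hi
        rw [mem_Icc]; omega
    · rw [disjoint_left]
      intro v hv hv'
      rw [mem_image] at hv'
      obtain ⟨i, hi, hiv⟩ := hv'
      rw [hI, mem_filter, mem_Icc] at hi hv
      omega
  have h4 : c - 2 ≤ 2 * I.card := by
    have hsub : Icc (max 1 (w - 4 * c)) ((w - 1) / 2) ⊆ I := by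
      intro i hi
      rw [mem_Icc] at hi
      rw [hI, mem_filter, mem_Icc]
      have := le_max_left 1 (w - 4 * c)
      have := le_max_right 1 (w - 4 * c)
      omega
    have h5 := card_le_card hsub
    rw [Nat.card_Icc] at h5
    rcases le_total 1 (w - 4 * c) with h | h
    · rw [max_eq_right h] at h5; omega
    · rw [max_eq_left h] at h5; omega
  have h6 : (c - 2) * τ ≤ 2 * (I.card * τ) := by
    calc (c - 2) * τ ≤ (2 * I.card) * τ := Nat.mul_le_mul_right _ h4
      _ = 2 * (I.card * τ) := by ring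
  omega

/-- Seed window. -/
lemma seeds {ν : ℕ} {ψ : K →+ ZMod ν} (hψ : Function.Surjective ψ) {A : Finset K} (hA : ZSF A)
    {c N : ℕ} (hN : ∑ v ∈ Icc 1 (4 * c), hole ψ A v ≤ N) (hc : 2 * N < (c - 2) * (fib ψ 0).card) :
    ∃ w : ZMod ν, Win ψ (SS (A.filter (fun y => 1 ≤ ht (ψ y) ∧ ht (ψ y) ≤ 4 * c))) w (5 * c) := by
  classical
  set Z := A.filter (fun y => 1 ≤ ht (ψ y) ∧ ht (ψ y) ≤ 4 * c) with hZ
  have hZA : Z ⊆ A := filter_subset _ _
  obtain ⟨σ, hσ⟩ := SS_flip (fun y => ψ y = ((ht (ψ y) : ℕ) : ZMod ν)) Z.card Z rfl (hA.mono hZA)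
  set f : K → K := fun y => if ψ y = ((ht (ψ y) : ℕ) : ZMod ν) then y else -y with hf
  have hψf : ∀ y, ψ (f y) = ((ht (ψ y) : ℕ) : ZMod ν) := by
    intro y
    simp only [hf]
    split_ifs with h
    · exact h
    · rcases eq_of_ht (rfl : ht (ψ y) = ht (ψ y)) with h' | h'
      · exact absurd h' h
      · rw [map_neg]; nth_rewrite 1 [h']; rw [neg_neg]
  have hhtf : ∀ y, ht (ψ (f y)) = ht (ψ y) := by
    intro y
    simp only [hf]
    split_ifs with h
    · rfl
    · rw [map_neg, ht_neg]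
  have hinj : Set.InjOn f (A : Set K) := by
    intro x hx y hy hxy
    rw [mem_coe] at hx hy
    simp only [hf] at hxy
    split_ifs at hxy with h1 h2 h2
    · exact hxy
    · exfalso
      have h3 := hA.inter_neg hy (by rw [← hxy]; exact hx)
      have h4 : -y = y := by rw [neg_eq_iff_add_eq_zero]; exact h3
      rw [h4] at hxy
      exact h2 (by rw [← hxy]; exact h1)
    · exfalso
      have h3 := hA.inter_neg hx (by rw [hxy]; exact hy)
      have h4 : -x = x := by rw [neg_eq_iff_add_eq_zero]; exact h3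
      rw [h4] at hxy
      exact h1 (by rw [hxy]; exact h2)
    · exact neg_injective hxy
  have hlevc : ∀ i, ((lev ψ A i).image f).card = (lev ψ A i).card := by
    intro i
    apply card_image_of_injOn
    exact hinj.mono (by intro x hx; rw [mem_coe] at hx ⊢; exact (mem_filter.1 hx).1)
  have hlevsub : ∀ i, (lev ψ A i).image f ⊆ fib ψ (i : ZMod ν) := by
    intro i z hz
    rw [mem_image] at hz
    obtain ⟨x, hx, rfl⟩ := hz
    rw [lev, mem_filter] at hx
    rw [mem_fib, hψf, hx.2]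
  have hlevU : ∀ i, 1 ≤ i → i ≤ 4 * c → (lev ψ A i).image f ⊆ Z.image f := by
    intro i h1 h2
    apply image_subset_image
    intro x hx
    rw [lev, mem_filter] at hx
    rw [hZ, mem_filter]
    exact ⟨hx.1, by omega, by omega⟩
  refine ⟨(((2 * c : ℕ) : ZMod ν)) + ψ σ, ?_⟩
  rw [hσ]
  apply Win.tr
  intro k hk
  obtain ⟨i, j, hi1, hij, hj, hijw, hsum⟩ := exists_pair (hl := hole ψ A) (τ := (fib ψ 0).card)
    (w := 2 * c + k) hN hc (by omega) (by omega)
  have h1 := hole_add hψ hA i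
  have h2 := hole_add hψ hA j
  have h3 := fib_sum hψ (hlevsub i) (hlevsub j) (by rw [hlevc, hlevc]; omega)
  have h4 : ((2 * c : ℕ) : ZMod ν) + (k : ZMod ν) = (i : ZMod ν) + (j : ZMod ν) := by
    rw [← Nat.cast_add, ← Nat.cast_add, hijw]
  rw [h4]
  refine h3.trans ?_
  intro z hz
  rw [mem_add] at hz
  obtain ⟨x, hx, y, hy, rfl⟩ := hz
  have hxU := hlevU i hi1 (by omega) hx
  have hyU := hlevU j (by omega) hj hy
  have hne : x ≠ y := by
    intro hxy
    rw [mem_image] at hx hy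
    obtain ⟨x', hx', rfl⟩ := hx
    obtain ⟨y', hy', hy''⟩ := hy
    rw [lev, mem_filter] at hx' hy'
    have e1 := hhtf x'
    have e2 := hhtf y'
    rw [hy'', ← hxy, e1] at e2
    omega
  exact mem_SS.2 ⟨{x, y}, by
    intro z hz
    rw [mem_insert, mem_singleton] at hz
    rcases hz with rfl | rfl <;> assumption, sum_pair hne⟩

/-- Lower bound for the number of elements in a range of levels. -/
lemma tot_low {ν : ℕ} {ψ : K →+ ZMod ν} (hψ : Function.Surjective ψ) {A : Finset K} (hA : ZSF A)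
    {l t L' N : ℕ} (ht1 : l < t) (htL : t ≤ L' + 1) (hN : ∑ v ∈ Icc 1 L', hole ψ A v ≤ N) :
    (l + 1) * ((t - 1 - l) * (fib ψ 0).card)
      ≤ tot ψ (A.filter (fun y => l < ht (ψ y) ∧ ht (ψ y) < t)) + (l + 1) * N := by
  set B := A.filter (fun y => l < ht (ψ y) ∧ ht (ψ y) < t) with hB
  have h1 : (l + 1) * B.card ≤ tot ψ B := by
    rw [tot, mul_comm, ← smul_eq_mul, ← sum_const]
    refine sum_le_sum fun y hy => ?_
    rw [hB, mem_filter] at hy
    omega
  have h2 : B.card = ∑ v ∈ Ioo l t, (lev ψ A v).card := by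
    rw [card_eq_sum_card_fiberwise (f := fun x => ht (ψ x)) (t := Ioo l t)]
    · refine sum_congr rfl fun v hv => ?_
      rw [mem_Ioo] at hv
      congr 1
      ext x
      rw [lev, hB, mem_filter, mem_filter, mem_filter]
      constructor
      · rintro ⟨⟨h, _⟩, h'⟩; exact ⟨h, h'⟩
      · rintro ⟨h, h'⟩; exact ⟨⟨h, by omega⟩, h'⟩
    · intro x hx
      rw [mem_coe, hB, mem_filter] at hx
      rw [mem_coe, mem_Ioo]; exact hx.2
  have h3 : ∑ v ∈ Ioo l t, (lev ψ A v).card + ∑ v ∈ Ioo l t, hole ψ A v = (t - 1 - l) * (fib ψ 0).card := by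
    rw [← sum_add_distrib]
    have h4 : ∀ v ∈ Ioo l t, (lev ψ A v).card + hole ψ A v = (fib ψ 0).card := by
      intro v _
      have := hole_add hψ hA v
      omega
    rw [sum_congr rfl h4, sum_const, Nat.card_Ioo, smul_eq_mul]
    congr 1
    omega
  have h5 : ∑ v ∈ Ioo l t, hole ψ A v ≤ N := by
    refine le_trans ?_ hN
    apply sum_le_sum_of_subset
    intro v hv
    rw [mem_Ioo] at hv
    rw [mem_Icc]; omega
  have h6 : (t - 1 - l) * (fib ψ 0).card ≤ B.card + N := by omega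
  calc (l + 1) * ((t - 1 - l) * (fib ψ 0).card) ≤ (l + 1) * (B.card + N) := Nat.mul_le_mul_left _ h6
    _ = (l + 1) * B.card + (l + 1) * N := by ring
    _ ≤ _ := by omega

lemma sum_id_le (τ n : ℕ) : 2 * ∑ v ∈ Icc 1 n, v * τ = n * (n + 1) * τ := by
  induction n with
  | zero => simp
  | succ n ih =>
    rw [Finset.sum_Icc_succ_top (by omega), mul_add, ih]
    ring

/-- Total height of the seeds. -/
lemma tot_seeds {ν : ℕ} {ψ : K →+ ZMod ν} (hψ : Function.Surjective ψ) {A : Finset K} (hA : ZSF A)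
    (c : ℕ) (hc : 1 ≤ c) :
    tot ψ (A.filter (fun y => 1 ≤ ht (ψ y) ∧ ht (ψ y) ≤ 4 * c)) ≤ 10 * (fib ψ 0).card * c ^ 2 := by
  set B := A.filter (fun y => 1 ≤ ht (ψ y) ∧ ht (ψ y) ≤ 4 * c) with hB
  have h1 : tot ψ B = ∑ v ∈ Icc 1 (4 * c), v * (lev ψ A v).card := by
    rw [tot, ← sum_fiberwise_of_maps_to (s := B) (t := Icc 1 (4 * c)) (g := fun x => ht (ψ x))]
    · refine sum_congr rfl fun v hv => ?_
      rw [mem_Icc] at hv
      have h3 : B.filter (fun x => ht (ψ x) = v) = lev ψ A v := by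
        ext x
        rw [lev, hB, mem_filter, mem_filter, mem_filter]
        constructor
        · rintro ⟨⟨h, _⟩, h'⟩; exact ⟨h, h'⟩
        · rintro ⟨h, h'⟩; exact ⟨⟨h, by omega, by omega⟩, h'⟩
      rw [h3]
      have h4 : ∀ x ∈ lev ψ A v, ht (ψ x) = v := by
        intro x hx
        rw [lev, mem_filter] at hx
        exact hx.2
      rw [sum_congr rfl h4, sum_const, smul_eq_mul, mul_comm]
    · intro x hx
      rw [hB, mem_filter] at hx
      rw [mem_Icc]; exact hx.2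
  have h2 : ∑ v ∈ Icc 1 (4 * c), v * (lev ψ A v).card ≤ ∑ v ∈ Icc 1 (4 * c), v * (fib ψ 0).card :=
    sum_le_sum fun v _ => Nat.mul_le_mul_left _ (card_lev_le hψ hA v)
  have h3 := sum_id_le (fib ψ 0).card (4 * c)
  have h4 : 4 * c * (4 * c + 1) * (fib ψ 0).card ≤ 20 * (fib ψ 0).card * c ^ 2 := by
    have : 4 * c * (4 * c + 1) ≤ 20 * c ^ 2 := by nlinarith
    calc 4 * c * (4 * c + 1) * (fib ψ 0).card ≤ 20 * c ^ 2 * (fib ψ 0).card :=
          Nat.mul_le_mul_right _ this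
      _ = _ := by ring
  have h5 : 20 * (fib ψ 0).card * c ^ 2 = 2 * (10 * (fib ψ 0).card * c ^ 2) := by ring
  omega

/-- Quadratic lower bound for `τ · tot`. -/
lemma tot_sq {ν : ℕ} {ψ : K →+ ZMod ν} (hψ : Function.Surjective ψ) {B : Finset K} (hB : ZSF B)
    {n : ℕ} (hn : n + (lev ψ B 0).card = B.card) {k : ℕ} (hk : k = n / (fib ψ 0).card) :
    ((n : ℝ) ^ 2 + (fib ψ 0).card * n) / 2
      + (fib ψ 0).card * ∑ v ∈ Icc 1 k, ((k : ℝ) + 1 - v) * hole ψ B v
      ≤ (fib ψ 0).card * tot ψ B := by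
  have h1 := tot_ge hψ hB k
  have hτpos : 0 < (fib ψ 0).card := card_pos.2 ⟨0, by rw [mem_fib, map_zero]⟩
  obtain ⟨τ, hτ⟩ : ∃ τ, τ = (fib ψ 0).card := ⟨_, rfl⟩
  rw [← hτ] at h1 hk hτpos ⊢
  have hn' : (B.card : ℝ) - (lev ψ B 0).card = n := by
    have : (n : ℝ) + (lev ψ B 0).card = B.card := by exact_mod_cast hn
    linarith
  rw [hn'] at h1
  obtain ⟨ρ, hρ⟩ : ∃ ρ, ρ = n % τ := ⟨_, rfl⟩
  have hρlt : ρ < τ := by rw [hρ]; exact Nat.mod_lt _ hτpos
  have hnk : n = τ * k + ρ := by rw [hk, hρ]; exact (Nat.div_add_mod n τ).symm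
  have hnk' : (n : ℝ) = τ * k + ρ := by exact_mod_cast hnk
  have hρ' : (ρ : ℝ) ≤ τ := by exact_mod_cast hρlt.le
  have hρ0 : (0 : ℝ) ≤ ρ := Nat.cast_nonneg _
  have hτ0 : (0 : ℝ) ≤ τ := Nat.cast_nonneg _
  have h2 := mul_le_mul_of_nonneg_left h1 hτ0
  have h3 : 0 ≤ (ρ : ℝ) * (τ - ρ) := mul_nonneg hρ0 (by linarith)
  have h4 : (τ : ℝ) * (((k : ℝ) + 1) * n - τ * (k * (k + 1) / 2)) = ((n : ℝ) ^ 2 + τ * n) / 2
      + ρ * (τ - ρ) / 2 := by
    rw [hnk']; ring
  have h5 : (τ : ℝ) * (((k : ℝ) + 1) * n - τ * (k * (k + 1) / 2)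
      + ∑ v ∈ Icc 1 k, ((k : ℝ) + 1 - v) * hole ψ B v)
      = τ * (((k : ℝ) + 1) * n - τ * (k * (k + 1) / 2))
        + τ * ∑ v ∈ Icc 1 k, ((k : ℝ) + 1 - v) * hole ψ B v := by ring
  rw [h5, h4] at h2
  linarith

end

end Pool.Agent.Lib.MP_ee6709_co
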