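import Pool.Agent.Lib.MP_ee6709_co.Mann

/-!
# Crude superlinear bound and the growth constant of a zero-sum-free set (MP_ee6709_co)
-/

set_option linter.style.longLine false
set_option linter.unusedSectionVars false

namespace Pool.Agent.Lib.MP_ee6709_co

open Finset
open scoped Pointwise

universe u

section
variable {K : Type u} [AddCommGroup K] [DecidableEq K]

/-- Averaging: some `c ∈ C` has `|C| λ_B(c) ≥ |B| (|C| - |B|)`. -/
lemma exists_lam_ge (B C : Finset K) (hC : C.Nonempty) :
    ∃ c ∈ C, B.card * C.card ≤ C.card * lam B c + B.card * B.card := by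
  by_contra hcon
  push Not at hcon
  have h1 := sum_lam_ge B C
  have h2 : ∑ c ∈ C, (C.card * lam B c + B.card * B.card) < ∑ _c ∈ C, B.card * C.card :=
    sum_lt_sum_of_nonempty hC hcon
  rw [sum_add_distrib, ← mul_sum, sum_const, sum_const, smul_eq_mul, smul_eq_mul] at h2
  have h3 := Nat.mul_le_mul_left C.card h1
  nlinarith

/-- Growing a block. -/
lemma grow_block (A : Finset K) : ∀ j ≤ A.card, ∃ D ⊆ A, D.card = j ∧
    (A.card ≤ j + 2 * (SS D).card ∨ ((3 : ℝ) / 2) ^ j ≤ ((SS D).card : ℝ)) := by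
  intro j
  induction j with
  | zero => intro _; exact ⟨∅, by simp, by simp, Or.inr (by simp [SS_empty])⟩
  | succ j ih =>
    intro hj
    obtain ⟨D, hDA, hDc, hD⟩ := ih (by omega)
    have hcard : (A \ D).card + j = A.card := by
      rw [← hDc]; exact card_sdiff_add_card_eq_card hDA
    by_cases hcase : A.card ≤ j + 2 * (SS D).card
    · obtain ⟨x, hx⟩ : (A \ D).Nonempty := card_pos.1 (by omega)
      rw [mem_sdiff] at hx
      refine ⟨insert x D, insert_subset hx.1 hDA, by rw [card_insert_of_notMem hx.2, hDc], Or.inl ?_⟩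
      have := card_le_card (SS_mono (subset_insert x D))
      omega
    · have hpow : ((3 : ℝ) / 2) ^ j ≤ ((SS D).card : ℝ) := by tauto
      have hne : (A \ D).Nonempty := card_pos.1 (by omega)
      obtain ⟨x, hx, hlam⟩ := exists_lam_ge (SS D) (A \ D) hne
      rw [mem_sdiff] at hx
      refine ⟨insert x D, insert_subset hx.1 hDA, by rw [card_insert_of_notMem hx.2, hDc], Or.inr ?_⟩
      rw [card_SS_insert hx.2]
      set b := (SS D).card
      set r := (A \ D).card
      have hr : 2 * b ≤ r := by omega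
      have hrpos : 0 < r := by omega
      have hb : b ≤ 2 * lam (SS D) x := by
        by_contra hcon
        push Not at hcon
        nlinarith
      have hb' : (b : ℝ) ≤ 2 * lam (SS D) x := by exact_mod_cast hb
      push_cast
      rw [pow_succ]
      linarith

/-- Blocks. -/
lemma ZSF.blocks {A : Finset K} (hA : ZSF A) (k : ℕ) (h8 : 8 ≤ A.card)
    (hk : (A.card : ℝ) ≤ ((3 : ℝ) / 2) ^ k) : ∀ q : ℕ, 4 * (q * k) ≤ A.card →
    ∃ D ⊆ A, D.card = q * k ∧ q * A.card + 4 ≤ 4 * (SS D).card := by
  intro q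
  induction q with
  | zero => intro _; exact ⟨∅, by simp, by simp, by simp [SS_empty]⟩
  | succ q ih =>
    intro hq
    have hqk : (q + 1) * k = q * k + k := by ring
    obtain ⟨D, hDA, hDc, hD⟩ := ih (by nlinarith)
    have hcard : (A \ D).card + q * k = A.card := by
      rw [← hDc]; exact card_sdiff_add_card_eq_card hDA
    obtain ⟨D1, hD1, hD1c, h1⟩ := grow_block (A \ D) k (by omega)
    have hdisj : Disjoint D D1 := by
      rw [disjoint_left]
      intro x hx hx'
      exact (mem_sdiff.1 (hD1 hx')).2 hx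
    have hD1A : D1 ⊆ A := hD1.trans sdiff_subset
    refine ⟨D ∪ D1, union_subset hDA hD1A, ?_, ?_⟩
    · rw [card_union_of_disjoint hdisj, hDc, hD1c, hqk]
    · have h2 := hA.card_SS_union hDA hD1A hdisj
      have h3 : A.card + 4 ≤ 4 * (SS D1).card := by
        rcases h1 with h1 | h1
        · omega
        · have : (A.card : ℝ) ≤ ((SS D1).card : ℝ) := hk.trans h1
          have : A.card ≤ (SS D1).card := by exact_mod_cast this
          omega
      nlinarith

end

/-- Crude bound: small subsets already have superlinearly many subset sums. -/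
theorem crude_block (N : ℕ) (ζ : ℝ) (hζ : 0 < ζ) : ∃ M : ℕ, ∀ (K : Type u) [AddCommGroup K]
    [DecidableEq K] (A : Finset K), ZSF A → M ≤ A.card →
    ∃ D ⊆ A, (D.card : ℝ) ≤ ζ * A.card ∧ N * A.card ≤ (SS D).card := by
  set z : ℝ := min ζ (1/4) with hz
  have hz0 : 0 < z := lt_min hζ (by norm_num)
  obtain ⟨M, hM⟩ := exists_nat_ge ((24 * (N + 1) / z) ^ 2 + 8)
  refine ⟨M, fun K _ _ A hA hMA => ?_⟩
  set m := A.card with hm
  have hMm : (M : ℝ) ≤ m := by exact_mod_cast hMA
  have hm0 : ((24 * (N + 1) / z) ^ 2 + 8 : ℝ) ≤ m := hM.trans hMm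
  have h8 : 8 ≤ m := by
    have : (8 : ℝ) ≤ m := by nlinarith [sq_nonneg (24 * ((N : ℝ) + 1) / z)]
    exact_mod_cast this
  set s : ℝ := Real.sqrt m with hs
  have hs2 : s * s = m := Real.mul_self_sqrt (Nat.cast_nonneg m)
  have hs0 : 0 ≤ s := Real.sqrt_nonneg _
  have hs1 : 24 * (N + 1) / z ≤ s := by
    apply Real.le_sqrt_of_sq_le
    linarith
  have hs2' : (1 : ℝ) ≤ s := by
    have h8' : (8 : ℝ) ≤ m := by exact_mod_cast h8
    nlinarith
  set l : ℕ := ⌈2 * s⌉₊ with hl
  have hl1 : 2 * s ≤ l := Nat.le_ceil _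
  have hl2 : (l : ℝ) < 2 * s + 1 := Nat.ceil_lt_add_one (by positivity)
  have hpow : (m : ℝ) ≤ ((3 : ℝ) / 2) ^ (2 * l) := by
    have hb := one_add_mul_le_pow (a := (1 / 2 : ℝ)) (by norm_num) l
    have hb2 : (1 + (l : ℝ) * (1/2)) ≤ ((3 : ℝ) / 2) ^ l := by
      have : (1 + 1/2 : ℝ) = 3 / 2 := by norm_num
      rwa [this] at hb
    have hb3 : s ≤ ((3 : ℝ) / 2) ^ l := by linarith
    rw [mul_comm 2 l, pow_mul, sq]
    nlinarith
  have hkey : (4 * N) * (2 * l : ℝ) ≤ z * m := by
    have h1 : 24 * (N + 1 : ℝ) ≤ s * z := by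
      rw [div_le_iff₀ hz0] at hs1; exact hs1
    have hN : (0 : ℝ) ≤ N := Nat.cast_nonneg N
    have h2 : (l : ℝ) ≤ 3 * s := by linarith
    have h3 : (4 * N) * (2 * l : ℝ) ≤ (24 * (N + 1)) * s := by nlinarith
    calc (4 * N) * (2 * l : ℝ) ≤ (24 * (N + 1)) * s := h3
      _ ≤ (s * z) * s := by nlinarith
      _ = z * m := by rw [← hs2]; ring
  have hzle : z ≤ 1/4 := min_le_right _ _
  have hcond : 4 * ((4 * N) * (2 * l)) ≤ A.card := by
    have : (4 * ((4 * N) * (2 * l)) : ℝ) ≤ m := by
      have hm' : (0 : ℝ) ≤ m := Nat.cast_nonneg m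
      nlinarith
    exact_mod_cast this
  obtain ⟨D, hDA, hDc, hD⟩ := hA.blocks (2 * l) h8 hpow (4 * N) hcond
  refine ⟨D, hDA, ?_, ?_⟩
  · rw [hDc]
    push_cast
    calc (4 * N : ℝ) * (2 * l) ≤ z * m := hkey
      _ ≤ ζ * m := mul_le_mul_of_nonneg_right (min_le_left _ _) (Nat.cast_nonneg m)
  · rw [← hm] at hD
    nlinarith

theorem crude (N : ℕ) : ∃ M : ℕ, ∀ (K : Type u) [AddCommGroup K] [DecidableEq K]
    (A : Finset K), ZSF A → M ≤ A.card → N * A.card ≤ (SS A).card := by
  obtain ⟨M, hM⟩ := crude_block.{u} N 1 one_pos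
  refine ⟨M, fun K _ _ A hA hMA => ?_⟩
  obtain ⟨D, hDA, _, h⟩ := hM K A hA hMA
  exact h.trans (card_le_card (SS_mono hDA))

section
variable {K : Type u} [AddCommGroup K] [DecidableEq K]

/-- Symmetrization with zero. -/
def sym (R : Finset K) : Finset K := R ∪ R.image (fun x => -x) ∪ {0}

lemma mem_sym {R : Finset K} {z : K} : z ∈ sym R ↔ z ∈ R ∨ -z ∈ R ∨ z = 0 := by
  simp only [sym, mem_union, mem_image, mem_singleton]
  constructor
  · rintro ((h | ⟨x, hx, rfl⟩) | h)
    · exact Or.inl h
    · right; left; simpa using hx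
    · exact Or.inr (Or.inr h)
  · rintro (h | h | h)
    · exact Or.inl (Or.inl h)
    · exact Or.inl (Or.inr ⟨-z, h, by simp⟩)
    · exact Or.inr h

lemma zero_mem_sym (R : Finset K) : (0 : K) ∈ sym R := mem_sym.2 (Or.inr (Or.inr rfl))

lemma neg_mem_sym {R : Finset K} : ∀ x ∈ sym R, -x ∈ sym R := by
  intro x hx
  rw [mem_sym] at *
  rcases hx with h | h | h
  · right; left; simpa using h
  · left; exact h
  · right; right; simp [h]

lemma subset_sym (R : Finset K) : R ⊆ sym R := fun _ hx => mem_sym.2 (Or.inl hx)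

lemma sym_mono {R S : Finset K} (h : R ⊆ S) : sym R ⊆ sym S := by
  intro x hx
  rw [mem_sym] at *
  rcases hx with h' | h' | h'
  · exact Or.inl (h h')
  · exact Or.inr (Or.inl (h h'))
  · exact Or.inr (Or.inr h')

/-- Number of elements of order two. -/
def ord2 (R : Finset K) : Finset K := R.filter (fun x => x + x = 0)

lemma ZSF.inter_neg {A : Finset K} (h : ZSF A) {x : K} (hx : x ∈ A) (hx' : -x ∈ A) :
    x + x = 0 := by
  by_contra hcon
  have hne : x ≠ -x := by
    intro h'
    apply hcon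
    nth_rewrite 2 [h']
    simp
  have := h {x, -x} (by
    intro z hz
    rw [mem_insert, mem_singleton] at hz
    rcases hz with rfl | rfl <;> assumption) (by rw [sum_pair hne]; simp)
  simp at this

/-- For a subset `R'` of a zero-sum-free set, `|R' ∪ -R'| ≥ 2|R'| - ord2`. -/
lemma ZSF.card_union_neg {R : Finset K} (h : ZSF R) :
    2 * R.card ≤ (R ∪ R.image (fun x => -x)).card + (ord2 R).card := by
  have h1 := card_union_add_card_inter R (R.image (fun x => -x))
  have h2 : (R.image (fun x => -x)).card = R.card := card_image_of_injective _ neg_injective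
  have h3 : R ∩ R.image (fun x => -x) ⊆ ord2 R := by
    intro z hz
    rw [mem_inter, mem_image] at hz
    obtain ⟨hz1, x, hx, rfl⟩ := hz
    rw [ord2, mem_filter]
    refine ⟨hz1, ?_⟩
    have := h.inter_neg hx hz1
    have h' : -x + -x = -(x + x) := by abel
    rw [h', this, neg_zero]
  have h4 := card_le_card h3
  omega

lemma ZSF.card_sym {R : Finset K} (h : ZSF R) :
    2 * R.card + 1 ≤ (sym R).card + (ord2 R).card := by
  have h1 := h.card_union_neg
  have h2 : (sym R).card = (R ∪ R.image (fun x => -x)).card + 1 := by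
    rw [sym, card_union_of_disjoint, card_singleton]
    rw [disjoint_singleton_right, mem_union, mem_image]
    rintro (h0 | ⟨x, hx, hx0⟩)
    · exact h.zero_notMem h0
    · rw [neg_eq_zero] at hx0
      subst hx0
      exact h.zero_notMem hx
  omega

variable [Fintype K]

/-- `R` generates `K`. -/
def Gn (R : Finset K) : Prop := ∀ H : Finset K, IsSubgp H → R ⊆ H → H = univ

lemma isSubgp_univ : IsSubgp (univ : Finset K) := ⟨mem_univ _, fun _ _ _ _ => mem_univ _⟩

lemma Gn.mono {R S : Finset K} (h : Gn R) (hRS : R ⊆ S) : Gn S :=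
  fun H hH hS => h H hH (hRS.trans hS)

lemma Gn.gen {R : Finset K} (h : Gn R) : Gen (sym R) (univ : Finset K) :=
  ⟨isSubgp_univ, subset_univ _, fun H hH hR => by rw [h H hH ((subset_sym R).trans hR)]⟩

lemma SS_subset_gp {R H : Finset K} (hH : IsSubgp H) (hR : R ⊆ H) : SS R ⊆ H := by
  intro z hz
  obtain ⟨S, hS, rfl⟩ := mem_SS.1 hz
  refine Finset.sum_induction (fun x => x) (fun x => x ∈ H) (fun a b ha hb => hH.add ha hb) hH.zero ?_
  intro x hx
  exact hR (hS hx)

/-- If `R ⊆ A` does not generate `K` but `A` does, some `x ∈ A` doubles `SS R`. -/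
lemma exists_double {A R : Finset K} (hA : Gn A) (hR : ¬ Gn R) :
    ∃ x ∈ A, x ∉ R ∧ (SS (insert x R)).card = 2 * (SS R).card := by
  unfold Gn at hR
  push Not at hR
  obtain ⟨H, hH, hRH, hne⟩ := hR
  have : ¬ A ⊆ H := fun h => hne (hA H hH h)
  rw [not_subset] at this
  obtain ⟨x, hxA, hxH⟩ := this
  have hxR : x ∉ R := fun h => hxH (hRH h)
  refine ⟨x, hxA, hxR, ?_⟩
  rw [card_SS_insert hxR]
  have : lam (SS R) x = (SS R).card := by
    rw [lam, sdiff_eq_self_of_disjoint, card_tr]
    rw [disjoint_left]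
    intro z hz hz'
    rw [mem_tr] at hz
    have h1 := SS_subset_gp hH hRH hz
    have h2 := SS_subset_gp hH hRH hz'
    apply hxH
    have := hH.sub _ h2 _ h1
    simpa using this
  omega

end

/-- Growth constant of the symmetrization of a large generating zero-sum-free set. -/
theorem kappa (ζ : ℝ) (hζ : 0 < ζ) : ∃ M : ℕ, ∀ (K : Type u) [AddCommGroup K]
    [DecidableEq K] [Fintype K] (R : Finset K), ZSF R → M ≤ R.card → Gn R →
    ((ord2 R).card : ℝ) ≤ ζ * R.card →
    Grows (univ : Finset K) (sym R) ((2 - 3 * ζ) * R.card) := by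
  obtain ⟨N, hN⟩ := exists_nat_ge (2 / ζ)
  obtain ⟨M1, hM1⟩ := crude.{u} N
  obtain ⟨M2, hM2⟩ := exists_nat_ge (M1 / ζ)
  refine ⟨M2, fun K _ _ _ R hR hMR hG he => ?_⟩
  have hgen := hG.gen
  apply mann isSubgp_univ (subset_univ _) (zero_mem_sym R) neg_mem_sym
  intro H hH _ hne
  have hr : (M1 : ℝ) ≤ ζ * R.card := by
    have : (M2 : ℝ) ≤ R.card := by exact_mod_cast hMR
    have h2 : M1 / ζ ≤ (R.card : ℝ) := hM2.trans this
    rw [div_le_iff₀ hζ] at h2
    linarith
  -- two cosets
  have h2H : 2 * H.card ≤ (H + sym R).card := by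
    have := hgen.coset_growth (zero_mem_sym R) hH (subset_univ _) 1
    rw [it_one] at this
    rcases this with h | h
    · exact absurd h hne
    · simpa using h
  have h2H' : 2 * (H.card : ℝ) ≤ ((H + sym R).card : ℝ) := by exact_mod_cast h2H
  have hrnn : (0 : ℝ) ≤ R.card := Nat.cast_nonneg _
  by_cases hbig : 2 * R.card ≤ H.card
  · have : 2 * (R.card : ℝ) ≤ H.card := by exact_mod_cast hbig
    nlinarith
  · push Not at hbig
    -- few elements of R in H
    have hfew : ((R ∩ H).card : ℝ) ≤ ζ * R.card := by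
      by_cases h1 : M1 ≤ (R ∩ H).card
      · have h3 := hM1 K (R ∩ H) (hR.mono inter_subset_left) h1
        have h4 : (SS (R ∩ H)).card ≤ H.card :=
          card_le_card (SS_subset_gp hH inter_subset_right)
        have h5 : N * (R ∩ H).card ≤ 2 * R.card := by omega
        have h6 : (N : ℝ) * (R ∩ H).card ≤ 2 * R.card := by exact_mod_cast h5
        have h7 : 2 / ζ * ((R ∩ H).card : ℝ) ≤ 2 * R.card :=
          (mul_le_mul_of_nonneg_right hN (Nat.cast_nonneg _)).trans h6
        rw [div_mul_eq_mul_div, div_le_iff₀ hζ] at h7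
        linarith
      · push Not at h1
        have : ((R ∩ H).card : ℝ) < M1 := by exact_mod_cast h1
        linarith
    -- the part outside H
    have hdis : H ∪ (sym R \ H) ⊆ H + sym R := by
      apply union_subset (subset_add_of_zero (zero_mem_sym R))
      intro z hz
      rw [mem_add]
      exact ⟨0, hH.zero, z, (mem_sdiff.1 hz).1, by simp⟩
    have hcard := card_le_card hdis
    rw [card_union_of_disjoint disjoint_sdiff] at hcard
    have hout : 2 * (R \ H).card ≤ (sym R \ H).card + (ord2 R).card := by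
      have h1 := (hR.mono (sdiff_subset : R \ H ⊆ R)).card_union_neg
      have h2 : (R \ H) ∪ (R \ H).image (fun x => -x) ⊆ sym R \ H := by
        intro z hz
        rw [mem_union, mem_image] at hz
        rw [mem_sdiff, mem_sym]
        rcases hz with hz | ⟨x, hx, rfl⟩
        · rw [mem_sdiff] at hz
          exact ⟨Or.inl hz.1, hz.2⟩
        · rw [mem_sdiff] at hx
          refine ⟨Or.inr (Or.inl (by simpa using hx.1)), fun h => hx.2 ?_⟩
          have := hH.neg h
          simpa using this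
      have h3 := card_le_card h2
      have h4 : (ord2 (R \ H)).card ≤ (ord2 R).card :=
        card_le_card (filter_subset_filter _ sdiff_subset)
      omega
    have hRH : (R \ H).card + (R ∩ H).card = R.card := card_sdiff_add_card_inter R H
    have hRH' : ((R \ H).card : ℝ) + (R ∩ H).card = R.card := by exact_mod_cast hRH
    have hout' : 2 * ((R \ H).card : ℝ) ≤ (sym R \ H).card + (ord2 R).card := by
      exact_mod_cast hout
    have hcard' : (H.card : ℝ) + (sym R \ H).card ≤ (H + sym R).card := by exact_mod_cast hcard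
    nlinarith

end Pool.Agent.Lib.MP_ee6709_co
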