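import Pool.Agent.Lib.MP_ee6709_co.Struct1

/-!
# Fibres of `ψ : K → ZMod ν` (MP_ee6709_co)
-/

set_option linter.style.longLine false
set_option linter.unusedSectionVars false

namespace Pool.Agent.Lib.MP_ee6709_co

open Finset
open scoped Pointwise

universe u

section
variable {K : Type u} [AddCommGroup K] [DecidableEq K] [Fintype K]

/-- Fibre of `ψ`. -/
def fib {ν : ℕ} (ψ : K →+ ZMod ν) (c : ZMod ν) : Finset K := univ.filter (fun z => ψ z = c)

lemma mem_fib {ν : ℕ} {ψ : K →+ ZMod ν} {c : ZMod ν} {z : K} : z ∈ fib ψ c ↔ ψ z = c := by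
  rw [fib, mem_filter]; simp

lemma fib_zero_isSubgp {ν : ℕ} (ψ : K →+ ZMod ν) : IsSubgp (fib ψ 0) := by
  constructor
  · rw [mem_fib, map_zero]
  · intro a ha b hb
    rw [mem_fib] at *
    rw [map_sub, ha, hb, sub_zero]

lemma card_fib {ν : ℕ} {ψ : K →+ ZMod ν} (hψ : Function.Surjective ψ) (c : ZMod ν) :
    (fib ψ c).card = (fib ψ 0).card := by
  obtain ⟨x, hx⟩ := hψ c
  have : fib ψ c = tr (fib ψ 0) x := by
    ext z
    rw [mem_tr, mem_fib, mem_fib, map_sub, hx, sub_eq_zero]
  rw [this, card_tr]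

lemma card_pre {ν : ℕ} [NeZero ν] {ψ : K →+ ZMod ν} (hψ : Function.Surjective ψ) (S : Finset (ZMod ν)) :
    (univ.filter (fun z => ψ z ∈ S)).card = (fib ψ 0).card * S.card := by
  rw [card_eq_sum_card_fiberwise (f := ψ) (t := S)]
  · rw [mul_comm, ← smul_eq_mul, ← sum_const]
    refine sum_congr rfl fun c hc => ?_
    rw [← card_fib hψ c]
    congr 1
    ext z
    rw [mem_filter, mem_filter, mem_fib]
    constructor
    · exact fun h => h.2
    · intro h; exact ⟨⟨mem_univ _, by rw [h]; exact hc⟩, h⟩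
  · intro z hz
    exact (mem_filter.1 hz).2

/-- Two subsets of fibres with more than `τ` elements in total fill the sum fibre. -/
lemma fib_sum {ν : ℕ} {ψ : K →+ ZMod ν} (hψ : Function.Surjective ψ) {U V : Finset K} {u v : ZMod ν}
    (hU : U ⊆ fib ψ u) (hV : V ⊆ fib ψ v) (hc : (fib ψ 0).card < U.card + V.card) :
    fib ψ (u + v) ⊆ U + V := by
  intro z hz
  rw [mem_fib] at hz
  have h1 : U.image (fun x => z - x) ⊆ fib ψ v := by
    intro w hw
    rw [mem_image] at hw
    obtain ⟨x, hx, rfl⟩ := hw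
    have := mem_fib.1 (hU hx)
    rw [mem_fib, map_sub, hz, this]; ring
  have h2 : (U.image (fun x => z - x)).card = U.card :=
    card_image_of_injective _ sub_right_injective
  have h3 : ¬ Disjoint (U.image (fun x => z - x)) V := by
    intro hd
    have h4 := card_le_card (union_subset h1 hV)
    rw [card_union_of_disjoint hd, h2, card_fib hψ] at h4
    omega
  rw [not_disjoint_iff] at h3
  obtain ⟨w, hw, hwV⟩ := h3
  rw [mem_image] at hw
  obtain ⟨x, hx, rfl⟩ := hw
  rw [mem_add]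
  exact ⟨x, hx, z - x, hwV, by abel⟩

lemma ht_natCast {ν v : ℕ} (h : 2 * v ≤ ν) : ht (v : ZMod ν) = v := by
  rw [ht, ZMod.valMinAbs_natCast_of_le_half (by omega)]
  simp

lemma ht_intCast {ν : ℕ} {v : ℤ} (h : 2 * v.natAbs ≤ ν) : ht (v : ZMod ν) = v.natAbs := by
  obtain ⟨n, hn⟩ : ∃ n : ℕ, n = v.natAbs := ⟨_, rfl⟩
  rw [← hn] at h ⊢
  rcases Int.natAbs_eq v with hv | hv
  · rw [hv, ← hn, Int.cast_natCast, ht_natCast h]
  · rw [hv, ← hn, Int.cast_neg, Int.cast_natCast, ht_neg, ht_natCast h]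

lemma eq_of_ht {ν v : ℕ} {a : ZMod ν} (h : ht a = v) : a = (v : ZMod ν) ∨ a = -(v : ZMod ν) := by
  rw [ht] at h
  have h1 : a = ((a.valMinAbs : ℤ) : ZMod ν) := (ZMod.coe_valMinAbs a).symm
  rcases Int.natAbs_eq a.valMinAbs with h2 | h2
  · left; rw [h1, h2, h]; simp
  · right; rw [h1, h2, h]; simp

lemma ht_eq_zero {ν : ℕ} {a : ZMod ν} : ht a = 0 ↔ a = 0 := by
  rw [ht, Int.natAbs_eq_zero, ZMod.valMinAbs_eq_zero]

/-- The elements of height `v`. -/
def lev {ν : ℕ} (ψ : K →+ ZMod ν) (A : Finset K) (v : ℕ) : Finset K :=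
  A.filter (fun x => ht (ψ x) = v)

/-- Sign change into the positive fibre. -/
def flip {ν : ℕ} (ψ : K →+ ZMod ν) (v : ℕ) (x : K) : K := if ψ x = (v : ZMod ν) then x else -x

lemma flip_mem {ν : ℕ} (ψ : K →+ ZMod ν) {A : Finset K} {v : ℕ} {x : K} (hx : x ∈ lev ψ A v) :
    ψ (flip ψ v x) = (v : ZMod ν) := by
  rw [lev, mem_filter] at hx
  rw [flip]
  split_ifs with h
  · exact h
  · rw [map_neg]
    rcases eq_of_ht hx.2 with h' | h'
    · exact absurd h' h
    · rw [h', neg_neg]

lemma flip_injOn {ν : ℕ} (ψ : K →+ ZMod ν) {A : Finset K} (hA : ZSF A) {v : ℕ} :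
    Set.InjOn (flip ψ v) (lev ψ A v : Set K) := by
  intro x hx y hy hxy
  rw [mem_coe, lev, mem_filter] at hx hy
  rw [flip, flip] at hxy
  split_ifs at hxy with h1 h2 h2
  · exact hxy
  · exfalso
    -- x = -y
    have h3 := hA.inter_neg hy.1 (by rw [← hxy]; exact hx.1)
    have h4 : -y = y := by
      rw [neg_eq_iff_add_eq_zero]; exact h3
    rw [h4] at hxy
    exact h2 (by rw [← hxy]; exact h1)
  · exfalso
    have h3 := hA.inter_neg hx.1 (by rw [hxy]; exact hy.1)
    have h4 : -x = x := by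
      rw [neg_eq_iff_add_eq_zero]; exact h3
    rw [h4] at hxy
    exact h1 (by rw [hxy]; exact h2)
  · exact neg_injective hxy

lemma card_lev_le_sym {ν : ℕ} (ψ : K →+ ZMod ν) {A : Finset K} (hA : ZSF A) (v : ℕ) :
    (lev ψ A v).card ≤ ((sym A).filter (fun x => ψ x = (v : ZMod ν))).card := by
  refine card_le_card_of_injOn (flip ψ v) ?_ (flip_injOn ψ hA)
  intro x hx
  rw [mem_coe] at hx
  rw [mem_coe, mem_filter]
  refine ⟨?_, flip_mem ψ hx⟩
  rw [lev, mem_filter] at hx
  rw [flip, mem_sym]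
  split_ifs
  · exact Or.inl hx.1
  · right; left; simpa using hx.1

lemma card_lev_le {ν : ℕ} {ψ : K →+ ZMod ν} (hψ : Function.Surjective ψ) {A : Finset K} (hA : ZSF A)
    (v : ℕ) : (lev ψ A v).card ≤ (fib ψ 0).card := by
  refine (card_lev_le_sym ψ hA v).trans ?_
  rw [← card_fib hψ (v : ZMod ν)]
  apply card_le_card
  intro x hx
  rw [mem_fib]; exact (mem_filter.1 hx).2

lemma card_sym_fib_neg {ν : ℕ} (ψ : K →+ ZMod ν) (A : Finset K) (c : ZMod ν) :
    ((sym A).filter (fun x => ψ x = -c)).card = ((sym A).filter (fun x => ψ x = c)).card := by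
  refine card_bij (fun x _ => -x) ?_ ?_ ?_
  · intro x hx
    rw [mem_filter] at *
    exact ⟨neg_mem_sym _ hx.1, by rw [map_neg, hx.2, neg_neg]⟩
  · intro x _ y _ h; exact neg_injective h
  · intro y hy
    rw [mem_filter] at hy
    exact ⟨-y, by rw [mem_filter]; exact ⟨neg_mem_sym _ hy.1, by rw [map_neg, hy.2]⟩, neg_neg y⟩

/-- If all elements have height at most `L`, count by levels. -/
lemma card_eq_sum_lev {ν : ℕ} (ψ : K →+ ZMod ν) {R : Finset K} {L : ℕ}
    (hR : ∀ x ∈ R, ht (ψ x) ≤ L) :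
    R.card = (lev ψ R 0).card + ∑ v ∈ Icc 1 L, (lev ψ R v).card := by
  have h1 : R.card = ∑ v ∈ range (L + 1), (lev ψ R v).card := by
    rw [card_eq_sum_card_fiberwise (f := fun x => ht (ψ x)) (t := range (L + 1))]
    · rfl
    · intro x hx
      have := hR x hx
      rw [coe_range, Set.mem_Iio]
      show ht (ψ x) < L + 1
      omega
  rw [h1, sum_range_succ', add_comm]
  congr 1
  have : Icc 1 L = (range L).image (fun i => i + 1) := by
    ext v
    rw [mem_Icc, mem_image]
    constructor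
    · intro h; exact ⟨v - 1, by rw [mem_range]; omega, by omega⟩
    · rintro ⟨i, hi, rfl⟩; rw [mem_range] at hi; omega
  rw [this, sum_image (fun a _ b _ h => by omega)]

/-- If the symmetric set fills more than half of each fibre of small nonzero height then its
iterates fill long intervals of fibres. -/
lemma full_it {ν : ℕ} {ψ : K →+ ZMod ν} (hψ : Function.Surjective ψ) {R : Finset K} {L : ℕ}
    (hL : 1 ≤ L)
    (hfull : ∀ v : ℕ, 1 ≤ v → v ≤ L → (fib ψ 0).card < 2 * ((sym R).filter (fun x => ψ x = (v : ZMod ν))).card)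
    (j : ℕ) : ∀ w : ℤ, |w| ≤ j * L → fib ψ (w : ZMod ν) ⊆ it (sym R) (j + 2) := by
  have hfull' : ∀ v : ℤ, v ≠ 0 → |v| ≤ L →
      (fib ψ 0).card < 2 * ((sym R).filter (fun x => ψ x = (v : ZMod ν))).card := by
    intro v hv hvL
    have h1 : 1 ≤ v.natAbs := Int.natAbs_pos.2 hv
    have h2 : v.natAbs ≤ L := by
      have : (v.natAbs : ℤ) = |v| := Int.natCast_natAbs v
      omega
    have h3 := hfull v.natAbs h1 h2
    rcases Int.natAbs_eq v with h | h
    · rw [h, Int.cast_natCast]; exact h3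
    · rw [h, Int.cast_neg, Int.cast_natCast, card_sym_fib_neg]; exact h3
  induction j with
  | zero =>
    intro w hw
    have hw0 : w = 0 := by
      rw [Nat.cast_zero, zero_mul] at hw
      exact abs_nonpos_iff.1 hw
    subst hw0
    have h1 := hfull' 1 one_ne_zero (by simpa using hL)
    have h2 := hfull' (-1) (by norm_num) (by simpa using hL)
    have h3 := fib_sum hψ (U := (sym R).filter (fun x => ψ x = ((1 : ℤ) : ZMod ν)))
      (V := (sym R).filter (fun x => ψ x = ((-1 : ℤ) : ZMod ν))) (u := ((1 : ℤ) : ZMod ν))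
      (v := ((-1 : ℤ) : ZMod ν)) (fun x hx => mem_fib.2 (mem_filter.1 hx).2)
      (fun x hx => mem_fib.2 (mem_filter.1 hx).2) (by omega)
    have h4 : ((1 : ℤ) : ZMod ν) + ((-1 : ℤ) : ZMod ν) = ((0 : ℤ) : ZMod ν) := by simp
    rw [h4] at h3
    refine h3.trans ?_
    have h5 : it (sym R) (0 + 2) = sym R + sym R := by
      have : (0 + 2 : ℕ) = 1 + 1 := rfl
      rw [this, it_succ, it_one]
    rw [h5]
    exact add_subset_add (filter_subset _ _) (filter_subset _ _)
  | succ j ih =>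
    intro w hw
    obtain ⟨v, hv1, hv2, hv0⟩ : ∃ v : ℤ, |v| ≤ L ∧ |w - v| ≤ j * L ∧ (v = 0 → w = 0) := by
      have hL' : (1 : ℤ) ≤ L := by exact_mod_cast hL
      push_cast at hw
      rw [add_mul, one_mul] at hw
      have hjL : (0 : ℤ) ≤ j * L := by positivity
      rw [abs_le] at hw
      by_cases h1 : (L : ℤ) ≤ w
      · refine ⟨L, ?_, ?_, ?_⟩
        · rw [abs_of_nonneg (by omega)]
        · rw [abs_le]; constructor <;> linarith
        · intro h; omega
      · by_cases h2 : w ≤ -(L : ℤ)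
        · refine ⟨-L, ?_, ?_, ?_⟩
          · rw [abs_neg, abs_of_nonneg (by omega)]
          · rw [abs_le]; constructor <;> linarith
          · intro h; omega
        · refine ⟨w, ?_, ?_, fun h => h⟩
          · rw [abs_le]; constructor <;> omega
          · rw [sub_self, abs_zero]; exact hjL
    by_cases hv : v = 0
    · have hw0 := hv0 hv
      subst hw0
      refine (ih 0 (by rw [abs_zero]; positivity)).trans ?_
      exact it_mono (zero_mem_sym R) (by omega)
    · have h1 := hfull' v hv hv1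
      obtain ⟨x, hx⟩ : ((sym R).filter (fun x => ψ x = (v : ZMod ν))).Nonempty := by
        rw [← card_pos]; omega
      rw [mem_filter] at hx
      intro z hz
      rw [mem_fib] at hz
      have h2 : z - x ∈ fib ψ ((w - v : ℤ) : ZMod ν) := by
        rw [mem_fib, map_sub, hz, hx.2]; push_cast; rfl
      have h3 := ih (w - v) hv2 h2
      have h4 : z - x + x ∈ it (sym R) (j + 2) + sym R := add_mem_add h3 hx.1
      have h5 : j + 1 + 2 = (j + 2) + 1 := by ring
      rw [h5, it_succ]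
      simpa using h4

lemma card_full_it {ν : ℕ} [NeZero ν] {ψ : K →+ ZMod ν} (hψ : Function.Surjective ψ) {R : Finset K} {L : ℕ}
    (hL : 1 ≤ L)
    (hfull : ∀ v : ℕ, 1 ≤ v → v ≤ L → (fib ψ 0).card < 2 * ((sym R).filter (fun x => ψ x = (v : ZMod ν))).card)
    {j : ℕ} (hj : 2 * (j * L) < ν) :
    (fib ψ 0).card * (2 * (j * L) + 1) ≤ (it (sym R) (j + 2)).card := by
  have h1 := full_it hψ hL hfull j
  set S : Finset (ZMod ν) := (Icc (-(j * L : ℤ)) (j * L)).image (fun w : ℤ => (w : ZMod ν)) with hS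
  have hSc : S.card = 2 * (j * L) + 1 := by
    rw [hS, card_image_of_injOn, Int.card_Icc]
    · have : (j * L : ℤ) + 1 - -(j * L : ℤ) = ((2 * (j * L) + 1 : ℕ) : ℤ) := by push_cast; ring
      rw [this, Int.toNat_natCast]
    · intro a ha b hb hab
      rw [mem_coe, mem_Icc] at ha hb
      simp only at hab
      rw [ZMod.intCast_eq_intCast_iff_dvd_sub] at hab
      have h2 : |b - a| < ν := by
        have h3 : (2 * (j * L) : ℤ) < ν := by exact_mod_cast hj
        rw [abs_lt]; constructor <;> linarith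
      have := Int.eq_zero_of_abs_lt_dvd hab h2
      omega
  rw [← hSc, ← card_pre hψ S]
  apply card_le_card
  intro z hz
  rw [mem_filter, hS, mem_image] at hz
  obtain ⟨_, w, hw, hwz⟩ := hz
  rw [mem_Icc] at hw
  apply h1 w (abs_le.2 hw)
  rw [mem_fib]; exact hwz.symm

end

end Pool.Agent.Lib.MP_ee6709_co
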