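import Pool.Agent.Lib.MP_ee6709_co.Crude

/-!
# Zero-sum-free sets filling half of a finite group (MP_ee6709_co)
-/

set_option linter.style.longLine false
set_option linter.unusedSectionVars false

namespace Pool.Agent.Lib.MP_ee6709_co

open Finset
open scoped Pointwise

universe u

section
variable {K : Type u} [AddCommGroup K] [DecidableEq K] [Fintype K]

/-- `SS D` is periodic under an element `ε ∈ D` of order two. -/
lemma SS_periodic {D : Finset K} {ε : K} (hε : ε ∈ D) (h2 : ε + ε = 0) {z : K} (hz : z ∈ SS D) :
    z + ε ∈ SS D := by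
  have hD : D = insert ε (D.erase ε) := (insert_erase hε).symm
  rw [hD, SS_insert (notMem_erase _ _), mem_union, mem_tr] at hz ⊢
  rcases hz with h | h
  · right; simpa using h
  · left
    have : z + ε = z - ε := by
      rw [sub_eq_add_neg]
      congr 1
      rw [eq_neg_iff_add_eq_zero]; exact h2
    rw [this]; exact h

lemma two_le_lam {B D : Finset K} (hB : ZSF B) {ε : K} (hε : ε ∈ D) (h2 : ε + ε = 0) (hDB : D ⊆ B)
    {x : K} (hx : x ∈ B) (hxD : x ∉ D) : 2 ≤ lam (SS D) x := by
  have h1 := hB.lam_pos hx hDB hxD
  rw [lam] at h1 ⊢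
  obtain ⟨z, hz⟩ : (tr (SS D) x \ SS D).Nonempty := card_pos.1 h1
  have hε0 : ε ≠ 0 := by
    intro h; subst h
    exact hB.zero_notMem (hDB hε)
  have hsub : ({z, z + ε} : Finset K) ⊆ tr (SS D) x \ SS D := by
    intro w hw
    rw [mem_insert, mem_singleton] at hw
    rcases hw with rfl | rfl
    · exact hz
    · rw [mem_sdiff, mem_tr] at hz ⊢
      refine ⟨?_, fun hcon => hz.2 ?_⟩
      · have := SS_periodic hε h2 hz.1
        have e : z + ε - x = z - x + ε := by abel
        rw [e]; exact this
      · have := SS_periodic hε h2 hcon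
        rwa [add_assoc, h2, add_zero] at this
  have h3 := card_le_card hsub
  rwa [card_pair (by simpa using hε0)] at h3

lemma chain_periodic {B : Finset K} (hB : ZSF B) {ε : K} (h2 : ε + ε = 0) (n : ℕ) :
    ∀ D ⊆ B, ε ∈ D → (B \ D).card = n → (SS D).card + 2 * n ≤ (SS B).card := by
  induction n with
  | zero =>
    intro D hDB _ hc
    rw [card_eq_zero, sdiff_eq_empty_iff_subset] at hc
    have : D = B := subset_antisymm hDB hc
    rw [this]; omega
  | succ n ih =>
    intro D hDB hε hc
    obtain ⟨x, hx⟩ : (B \ D).Nonempty := card_pos.1 (by omega)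
    rw [mem_sdiff] at hx
    have h1 := two_le_lam hB hε h2 hDB hx.1 hx.2
    have h3 := card_SS_insert hx.2
    have h4 : (B \ insert x D).card = n := by
      have : B \ insert x D = (B \ D).erase x := by
        ext z
        rw [mem_sdiff, mem_insert, mem_erase, mem_sdiff]; tauto
      rw [this, card_erase_of_mem (mem_sdiff.2 hx), hc]; rfl
    have h5 := ih (insert x D) (insert_subset hx.1 hDB) (mem_insert_of_mem hε) h4
    omega

lemma two_card_le_SS {B : Finset K} (hB : ZSF B) {ε : K} (hε : ε ∈ B) (h2 : ε + ε = 0) :
    2 * B.card ≤ (SS B).card := by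
  have h1 := chain_periodic hB h2 (B \ {ε}).card {ε} (by simpa using hε) (mem_singleton_self _) rfl
  have h3 : (B \ {ε}).card + 1 = B.card := by
    have := card_sdiff_add_card_eq_card (singleton_subset_iff.2 hε)
    rwa [card_singleton] at this
  have hε0 : ε ≠ 0 := by
    intro h; subst h
    exact hB.zero_notMem hε
  have h4 : (SS ({ε} : Finset K)).card = 2 := by
    rw [SS_singleton, card_pair hε0.symm]
  omega

/-- A zero-sum-free subset fills at most half of a finite group. -/
lemma two_card_le {T B : Finset K} (hT : IsSubgp T) (hBT : B ⊆ T) (hB : ZSF B) :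
    2 * B.card ≤ T.card := by
  by_cases h : ∃ ε ∈ B, ε + ε = 0
  · obtain ⟨ε, hε, h2⟩ := h
    exact (two_card_le_SS hB hε h2).trans (card_le_card (SS_subset_gp hT hBT))
  · push Not at h
    have h1 := hB.card_sym
    have h2 : ord2 B = ∅ := by
      rw [ord2, filter_eq_empty_iff]
      exact fun x hx => h x hx
    rw [h2, card_empty] at h1
    have h3 : sym B ⊆ T := by
      intro x hx
      rw [mem_sym] at hx
      rcases hx with h | h | h
      · exact hBT h
      · have := hT.neg (hBT h); simpa using this
      · rw [h]; exact hT.zero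
    have := card_le_card h3
    omega

/-- Equality case. -/
lemma tight_case {T B : Finset K} (hT : IsSubgp T) (hBT : B ⊆ T) (hB : ZSF B)
    (heq : 2 * B.card = T.card) : B.card ≤ 3 ∧ SS B = T := by
  have hex : ∃ ε ∈ B, ε + ε = 0 := by
    by_contra h
    push Not at h
    have h1 := hB.card_sym
    have h2 : ord2 B = ∅ := by
      rw [ord2, filter_eq_empty_iff]
      exact fun x hx => h x hx
    rw [h2, card_empty] at h1
    have h3 : sym B ⊆ T := by
      intro x hx
      rw [mem_sym] at hx
      rcases hx with h | h | h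
      · exact hBT h
      · have := hT.neg (hBT h); simpa using this
      · rw [h]; exact hT.zero
    have := card_le_card h3
    omega
  obtain ⟨ε, hε, h2⟩ := hex
  have hSST := SS_subset_gp hT hBT
  refine ⟨?_, eq_of_subset_of_card_le hSST (by have := two_card_le_SS hB hε h2; omega)⟩
  by_contra hcon
  push Not at hcon
  -- two elements of B \ {ε} not congruent mod ε
  have hB' : 3 ≤ (B.erase ε).card := by rw [card_erase_of_mem hε]; omega
  obtain ⟨b1, hb1, b2, hb2, hne, hne2⟩ : ∃ b1 ∈ B.erase ε, ∃ b2 ∈ B.erase ε, b2 ≠ b1 ∧ b2 ≠ b1 + ε := by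
    obtain ⟨x, y, z, hx, hy, hz, hxy, hxz, hyz⟩ := two_lt_card_iff.1 (show 2 < (B.erase ε).card by omega)
    by_cases h : y = x + ε
    · refine ⟨x, hx, z, hz, hxz.symm, fun h' => hyz ?_⟩
      rw [h, h']
    · exact ⟨x, hx, y, hy, hxy.symm, h⟩
  rw [mem_erase] at hb1 hb2
  have hε0 : ε ≠ 0 := by
    intro h; subst h
    exact hB.zero_notMem hε
  have hb10 : b1 ≠ 0 := by
    intro h; subst h
    exact hB.zero_notMem hb1.2
  have hb20 : b2 ≠ 0 := by
    intro h; subst h
    exact hB.zero_notMem hb2.2
  have hsum : b1 + b2 ≠ 0 := by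
    intro h
    have := hB {b1, b2} (by
      intro z hz
      rw [mem_insert, mem_singleton] at hz
      rcases hz with rfl | rfl
      · exact hb1.2
      · exact hb2.2) (by rw [sum_pair hne.symm]; exact h)
    simp at this
  have hsum2 : b1 + b2 ≠ ε := by
    intro h
    have := hB {b1, b2, ε} (by
      intro z hz
      rw [mem_insert, mem_insert, mem_singleton] at hz
      rcases hz with rfl | rfl | rfl
      · exact hb1.2
      · exact hb2.2
      · exact hε) (by
        rw [sum_insert (by
          rw [mem_insert, mem_singleton, not_or]; exact ⟨hne.symm, hb1.1⟩), sum_pair hb2.1]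
        rw [← add_assoc, h, h2])
    simp at this
  have hb1ε : b1 + ε ≠ 0 := by
    intro h
    apply hb1.1
    rw [← sub_eq_zero, sub_eq_add_neg]
    have : -ε = ε := by rw [neg_eq_iff_add_eq_zero]; exact h2
    rw [this]; exact h
  -- SS of D = {ε, b1}
  have hSD : SS ({b1, ε} : Finset K) = {0, ε, b1, b1 + ε} := by
    have h1 : b1 ∉ ({ε} : Finset K) := by rw [mem_singleton]; exact hb1.1
    rw [show ({b1, ε} : Finset K) = insert b1 {ε} from rfl, SS_insert h1, SS_singleton]
    ext z
    simp only [mem_union, mem_tr, mem_insert, mem_singleton]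
    constructor
    · rintro ((h | h) | (h | h))
      · exact Or.inl h
      · exact Or.inr (Or.inl h)
      · right; right; left; exact sub_eq_zero.1 h
      · right; right; right; rw [← h]; abel
    · rintro (h | h | h | h)
      · exact Or.inl (Or.inl h)
      · exact Or.inl (Or.inr h)
      · right; left; rw [h, sub_self]
      · right; right; rw [h]; abel
  have hb2D : b2 ∉ ({b1, ε} : Finset K) := by
    rw [mem_insert, mem_singleton, not_or]; exact ⟨hne, hb2.1⟩
  have hε2 : ∀ x : K, x + ε + ε = x := by intro x; rw [add_assoc, h2, add_zero]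
  have hlam4 : 4 ≤ lam (SS ({b1, ε} : Finset K)) b2 := by
    have hsub : ({b2, b2 + ε, b1 + b2, b1 + b2 + ε} : Finset K) ⊆
        tr (SS ({b1, ε} : Finset K)) b2 \ SS ({b1, ε} : Finset K) := by
      rw [hSD]
      have n1 : ∀ x : K, x ≠ 0 → x ≠ ε → x ≠ b1 → x ≠ b1 + ε → x ∉ ({0, ε, b1, b1 + ε} : Finset K) := by
        intro x h0 h1 h3 h4
        simp only [mem_insert, mem_singleton, not_or]
        exact ⟨h0, h1, h3, h4⟩
      intro z hz
      simp only [mem_insert, mem_singleton] at hz
      rw [mem_sdiff, mem_tr]
      rcases hz with rfl | rfl | rfl | rfl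
      · exact ⟨by simp, n1 _ hb20 hb2.1 hne hne2⟩
      · refine ⟨by simp, n1 _ ?_ ?_ ?_ ?_⟩
        · intro h; apply hb2.1; rw [← hε2 b2, h, zero_add]
        · intro h; apply hb20; rw [← hε2 b2, h, h2]
        · intro h; apply hne2; rw [← hε2 b2, h]
        · intro h; apply hne; exact add_right_cancel h
      · refine ⟨by simp, n1 _ hsum hsum2 ?_ ?_⟩
        · intro h; apply hb20
          have : b1 + b2 = b1 + 0 := by rw [h, add_zero]
          exact add_left_cancel this
        · intro h; apply hb2.1
          exact add_left_cancel h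
      · refine ⟨?_, n1 _ ?_ ?_ ?_ ?_⟩
        · have : b1 + b2 + ε - b2 = b1 + ε := by abel
          rw [this]; simp
        · intro h; apply hsum2; rw [← hε2 (b1 + b2), h, zero_add]
        · intro h; apply hsum; rw [← hε2 (b1 + b2), h, h2]
        · intro h; apply hb2.1
          have h' : b1 + b2 = b1 + ε := by rw [← hε2 (b1 + b2), h]
          exact add_left_cancel h'
        · intro h; apply hb20
          have h' : b1 + b2 = b1 + 0 := by rw [add_right_cancel h, add_zero]
          exact add_left_cancel h'
    have hcard4 : ({b2, b2 + ε, b1 + b2, b1 + b2 + ε} : Finset K).card = 4 := by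
      rw [card_insert_of_notMem, card_insert_of_notMem, card_insert_of_notMem, card_singleton]
      · rw [mem_singleton]; simpa using hε0
      · simp only [mem_insert, mem_singleton, not_or]
        constructor
        · intro h; apply hb1.1
          have : ε + b2 = b1 + b2 := by rw [add_comm ε b2]; exact h
          exact (add_right_cancel this).symm
        · intro h; apply hb10
          have h' := add_right_cancel h
          have : 0 + b2 = b1 + b2 := by rw [zero_add]; exact h'
          exact (add_right_cancel this).symm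
      · simp only [mem_insert, mem_singleton, not_or]
        refine ⟨by simpa using hε0, ?_, ?_⟩
        · intro h; apply hb10
          have : 0 + b2 = b1 + b2 := by rw [zero_add]; exact h
          exact (add_right_cancel this).symm
        · intro h; apply hb1ε
          have : b2 + 0 = b2 + (b1 + ε) := by rw [add_zero]; nth_rewrite 1 [h]; abel
          exact (add_left_cancel this).symm
    have h3 := card_le_card hsub
    rw [hcard4] at h3
    exact h3
  have hSD4 : (SS ({b1, ε} : Finset K)).card = 4 := by
    rw [hSD, card_insert_of_notMem, card_insert_of_notMem, card_insert_of_notMem, card_singleton]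
    · rw [mem_singleton]; simpa using hε0
    · simp only [mem_insert, mem_singleton, not_or]
      constructor
      · exact hb1.1.symm
      · intro h; apply hb10
        have : 0 + ε = b1 + ε := by rw [zero_add]; exact h
        exact (add_right_cancel this).symm
    · simp only [mem_insert, mem_singleton, not_or]
      exact ⟨hε0.symm, hb10.symm, hb1ε.symm⟩
  have h5 := card_SS_insert hb2D
  have hDB : insert b2 ({b1, ε} : Finset K) ⊆ B := by
    intro z hz
    rw [mem_insert, mem_insert, mem_singleton] at hz
    rcases hz with rfl | rfl | rfl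
    · exact hb2.2
    · exact hb1.2
    · exact hε
  have h6 := chain_periodic hB h2 (B \ insert b2 ({b1, ε} : Finset K)).card _ hDB (by simp) rfl
  have h7 : (insert b2 ({b1, ε} : Finset K)).card = 3 := by
    rw [card_insert_of_notMem hb2D, card_pair hb1.1]
  have h8 := card_sdiff_add_card_eq_card hDB
  have h9 := card_le_card hSST
  omega

end

/-- Gap in the non-tight case. -/
theorem gap_const : ∃ c1 : ℝ, 0 < c1 ∧ ∀ (K : Type u) [AddCommGroup K] [DecidableEq K] [Fintype K]
    (T B : Finset K), IsSubgp T → B ⊆ T → ZSF B → 2 * B.card ≠ T.card →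
    c1 * T.card ≤ (T.card : ℝ) / 2 - B.card := by
  obtain ⟨M, hM⟩ := crude.{u} 4
  refine ⟨1 / (8 * (M + 1)), by positivity, ?_⟩
  intro K _ _ _ T B hT hBT hB hne
  have h1 := two_card_le hT hBT hB
  have hM0 : (0 : ℝ) ≤ M := Nat.cast_nonneg _
  rw [div_mul_eq_mul_div, one_mul, div_le_iff₀ (by positivity)]
  have hTnn : (0 : ℝ) ≤ T.card := Nat.cast_nonneg _
  -- it suffices that the gap is ≥ T/4 or ≥ 1/2 with T small
  have hbig : (T.card : ℝ) / 4 ≤ (T.card : ℝ) / 2 - B.card →
      (T.card : ℝ) ≤ ((T.card : ℝ) / 2 - B.card) * (8 * (M + 1)) := by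
    intro h
    have h3 : (T.card : ℝ) / 4 * (8 * (M + 1)) ≤ ((T.card : ℝ) / 2 - B.card) * (8 * (M + 1)) :=
      mul_le_mul_of_nonneg_right h (by positivity)
    have h4 : (0 : ℝ) ≤ T.card * M := by positivity
    nlinarith
  by_cases hMB : M ≤ B.card
  · apply hbig
    have h2 := hM K B hB hMB
    have h3 := card_le_card (SS_subset_gp hT hBT)
    have h4 : 4 * (B.card : ℝ) ≤ T.card := by exact_mod_cast h2.trans h3
    linarith
  · push Not at hMB
    by_cases hTM : T.card ≤ 4 * M
    · have h2 : 2 * B.card + 1 ≤ T.card := by omega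
      have h3 : 2 * (B.card : ℝ) + 1 ≤ T.card := by exact_mod_cast h2
      have h4 : (T.card : ℝ) ≤ 4 * M := by exact_mod_cast hTM
      have h5 : (1/2 : ℝ) * (8 * (M + 1)) ≤ ((T.card : ℝ) / 2 - B.card) * (8 * (M + 1)) :=
        mul_le_mul_of_nonneg_right (by linarith) (by positivity)
      linarith
    · apply hbig
      push Not at hTM
      have h2 : 4 * B.card ≤ T.card := by omega
      have h3 : 4 * (B.card : ℝ) ≤ T.card := by exact_mod_cast h2
      linarith

end Pool.Agent.Lib.MP_ee6709_co
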