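import Pool.Agent.Lib.MP_ee6709_co.Count2
import Pool.Agent.Lib.MP_ee6709_co.Small

/-!
# Final count, part 1 (MP_ee6709_co)
-/

set_option linter.style.longLine false
set_option linter.unusedSectionVars false

namespace Pool.Agent.Lib.MP_ee6709_co

open Finset
open scoped Pointwise

universe u

/-! ### Numerical lemmas -/

lemma fin_num1 {m τ L a : ℝ} (hm : 0 < m) (h2 : τ * L ≤ (1 + 1/50000) * m) (hL : 100000 ≤ L)
    (hτ : 0 ≤ τ) (ha : 2 * a ≤ τ) : τ ≤ 11/1000000 * m ∧ a ≤ 55/10000000 * m := by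
  have h3 : τ * 100000 ≤ τ * L := mul_le_mul_of_nonneg_left hL hτ
  constructor <;> linarith

lemma fin_num2 {m τ L a N c AL : ℝ} (hm : 0 < m) (hL : 100000 ≤ L) (hτ : 1 ≤ τ)
    (h1 : (1 - 1/50000) * m ≤ AL) (hAL : AL ≤ a + τ * L) (ha : 2 * a ≤ τ)
    (hN : N ≤ 5/100000 * m) (hc : c * τ ≤ 10 * N + 10 * τ) : 32 * c ≤ L := by
  have hτ0 : 0 < τ := by linarith
  have h3 : m ≤ 101/100 * (τ * (L + 1)) := by linarith
  have h4 : 32 * c * τ ≤ L * τ := by
    have e1 : 10 * N ≤ 51/100000 * (τ * (L + 1)) := by linarith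
    have e2 : τ * 100000 ≤ τ * L := mul_le_mul_of_nonneg_left hL hτ0.le
    linarith
  exact le_of_mul_le_mul_right h4 hτ0

lemma fin_num3 {m τ N c nL X S : ℝ} (hm : 10 ≤ m) (hτ0 : 0 ≤ τ) (hc0 : 0 ≤ c)
    (hτ : τ ≤ 11/1000000 * m)
    (hN : N ≤ 5/100000 * m) (hc : c * τ ≤ 10 * N + 10 * τ) (hnL : 99/100 * m ≤ nL)
    (hX : nL ^ 2 / 2 - 10 * (c * τ) ^ 2 ≤ X) (hS : 2 * S ≤ m ^ 2 + 2) : S < 2 * X := by
  have h1 : c * τ ≤ 1/1000 * m := by linarith
  have h0 : 0 ≤ c * τ := by positivity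
  have h2 : (c * τ) ^ 2 ≤ (1/1000 * m) ^ 2 := pow_le_pow_left₀ h0 h1 2
  have h3 : (99/100 * m) ^ 2 ≤ nL ^ 2 := pow_le_pow_left₀ (by linarith) hnL 2
  have h4 : (1/1000 * m) ^ 2 = 1/1000000 * m ^ 2 := by ring
  have h5 : (99/100 * m) ^ 2 = 9801/10000 * m ^ 2 := by ring
  have h6 : 10 ^ 2 ≤ m ^ 2 := pow_le_pow_left₀ (by norm_num) hm 2
  rw [h4] at h2
  rw [h5] at h3
  linarith

lemma fin_num4 {m τ N c H Q X S : ℝ} (hN0 : 0 ≤ N) (hτ0 : 0 ≤ τ) (hc0 : 0 ≤ c)
    (hN : N ≤ 5/100000 * m) (hc : c * τ ≤ 10 * N + 10 * τ)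
    (hX : Q + H - 10 * (c * τ) ^ 2 ≤ X) (hXS : X ≤ S) (hH : 49/100 * m * N ≤ H) :
    Q + 39/100 * m * N - 2000 * τ ^ 2 ≤ S := by
  have h0 : 0 ≤ c * τ := by positivity
  have h2 : (c * τ) ^ 2 ≤ (10 * N + 10 * τ) ^ 2 := pow_le_pow_left₀ h0 hc 2
  have h3 : (10 * N + 10 * τ) ^ 2 ≤ 200 * N ^ 2 + 200 * τ ^ 2 := by nlinarith [sq_nonneg (N - τ)]
  have h4 : N * N ≤ (5/100000 * m) * N := mul_le_mul_of_nonneg_right hN hN0
  have h5 : N ^ 2 = N * N := by ring
  rw [h5] at h3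
  linarith

section
variable {K : Type u} [AddCommGroup K] [DecidableEq K] [Fintype K]

lemma lev_zero_filter {ν : ℕ} (ψ : K →+ ZMod ν) (A : Finset K) (L v : ℕ) (hv : v ≤ L) :
    lev ψ (A.filter (fun x => ht (ψ x) ≤ L)) v = lev ψ A v := by
  ext x
  rw [lev, lev, mem_filter, mem_filter, mem_filter]
  constructor
  · rintro ⟨⟨h, _⟩, h'⟩; exact ⟨h, h'⟩
  · rintro ⟨h, h'⟩; exact ⟨⟨h, by omega⟩, h'⟩

/-- Number of elements of height at most `L` in terms of holes. -/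
lemma holes_count {ν : ℕ} {ψ : K →+ ZMod ν} (hψ : Function.Surjective ψ) {A : Finset K} (hA : ZSF A)
    (L : ℕ) : (A.filter (fun x => ht (ψ x) ≤ L)).card + ∑ v ∈ Icc 1 L, hole ψ A v
      = (lev ψ A 0).card + (fib ψ 0).card * L := by
  have h1 := card_eq_sum_lev ψ (R := A.filter (fun x => ht (ψ x) ≤ L)) (L := L)
    (fun x hx => (mem_filter.1 hx).2)
  rw [lev_zero_filter ψ A L 0 (Nat.zero_le _)] at h1
  have h2 : ∑ v ∈ Icc 1 L, (lev ψ (A.filter (fun x => ht (ψ x) ≤ L)) v).card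
      = ∑ v ∈ Icc 1 L, (lev ψ A v).card := by
    refine sum_congr rfl fun v hv => ?_
    rw [mem_Icc] at hv
    rw [lev_zero_filter ψ A L v hv.2]
  rw [h2] at h1
  have h3 : ∑ v ∈ Icc 1 L, (lev ψ A v).card + ∑ v ∈ Icc 1 L, hole ψ A v = L * (fib ψ 0).card := by
    rw [← sum_add_distrib]
    have h4 : ∀ v ∈ Icc 1 L, (lev ψ A v).card + hole ψ A v = (fib ψ 0).card := by
      intro v _
      have := hole_add hψ hA v
      omega
    rw [sum_congr rfl h4, sum_const, Nat.card_Icc, smul_eq_mul]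
    congr 1
  have h5 : L * (fib ψ 0).card = (fib ψ 0).card * L := mul_comm _ _
  omega

lemma tot_union_le {ν : ℕ} (ψ : K →+ ZMod ν) (A B : Finset K) : tot ψ (A ∪ B) ≤ tot ψ A + tot ψ B := by
  rw [tot, tot, tot, ← sum_union_inter]
  exact Nat.le_add_right _ _

lemma tot_mono {ν : ℕ} (ψ : K →+ ZMod ν) {A B : Finset K} (h : A ⊆ B) : tot ψ A ≤ tot ψ B :=
  sum_le_sum_of_subset h

lemma tot_singleton {ν : ℕ} (ψ : K →+ ZMod ν) (y : K) : tot ψ ({y} : Finset K) = ht (ψ y) := by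
  rw [tot, sum_singleton]

/-- Quadratic lower bound for elements of height at most `L`. -/
lemma low_sq {ν : ℕ} {ψ : K →+ ZMod ν} (hψ : Function.Surjective ψ) {A : Finset K} (hA : ZSF A)
    (L : ℕ) {nL : ℕ} (hn : nL + (lev ψ A 0).card = (A.filter (fun x => ht (ψ x) ≤ L)).card) :
    (nL : ℝ) ^ 2 / 2 ≤ (fib ψ 0).card * tot ψ (A.filter (fun x => ht (ψ x) ≤ L)) := by
  have h1 := tot_sq hψ (hA.mono (filter_subset (fun x => ht (ψ x) ≤ L) A)) (n := nL)
    (by rw [lev_zero_filter ψ A L 0 (Nat.zero_le _)]; exact hn) rfl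
  have h2 : 0 ≤ ((fib ψ 0).card : ℝ) * ∑ v ∈ Icc 1 (nL / (fib ψ 0).card),
      ((((nL / (fib ψ 0).card : ℕ) : ℝ)) + 1 - v) * hole ψ (A.filter (fun x => ht (ψ x) ≤ L)) v := by
    apply mul_nonneg (Nat.cast_nonneg _)
    apply sum_nonneg
    intro v hv
    rw [mem_Icc] at hv
    apply mul_nonneg _ (Nat.cast_nonneg _)
    have : (v : ℝ) ≤ ((nL / (fib ψ 0).card : ℕ) : ℝ) := by exact_mod_cast hv.2
    linarith
  have h3 : 0 ≤ ((fib ψ 0).card : ℝ) * nL := by positivity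
  linarith

/-- Natural-number step for the growth condition. -/
lemma cond_nat {c k τ N T : ℕ} (hc : 10 ≤ c) (hτ : 1 ≤ τ) (hck : c ≤ k) (hN : 10 * N ≤ c * τ)
    (h : (4 * c + 1) * (k * τ) ≤ T + (4 * c + 1) * N) : 36 * k ≤ T := by
  have h1 : 10 * N ≤ k * τ := hN.trans (Nat.mul_le_mul_right _ hck)
  have h2 : (4 * c + 1) * (10 * N) ≤ (4 * c + 1) * (k * τ) := Nat.mul_le_mul_left _ h1
  have h3 : 9 * ((4 * c + 1) * (k * τ)) ≤ 10 * T := by
    have e : (4 * c + 1) * (10 * N) = 10 * ((4 * c + 1) * N) := by ring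
    rw [e] at h2
    omega
  have h4 : 41 * k ≤ (4 * c + 1) * (k * τ) := by
    have : k * 1 ≤ k * τ := Nat.mul_le_mul_left _ hτ
    calc 41 * k ≤ (4 * c + 1) * k := Nat.mul_le_mul_right _ (by omega)
      _ ≤ (4 * c + 1) * (k * τ) := Nat.mul_le_mul_left _ (by omega)
  omega

/-- The general count. -/
theorem count_general {ν : ℕ} [NeZero ν] {ψ : K →+ ZMod ν} (hψ : Function.Surjective ψ)
    {A : Finset K} (hA : ZSF A) {L : ℕ} (hL : 100000 ≤ L)
    (hm10 : 10 ≤ A.card)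
    (h1 : (1 - 1/50000) * (A.card : ℝ) ≤ (A.filter (fun x => ht (ψ x) ≤ L)).card)
    (h2 : ((fib ψ 0).card : ℝ) * L ≤ (1 + 1/50000) * A.card)
    (h3 : 2 * (SS A).card ≤ A.card ^ 2 + 2) (ha : 2 * (lev ψ A 0).card ≤ (fib ψ 0).card)
    {M : ℕ} (hM : M + (lev ψ A 0).card = A.card) {N : ℕ} (hN : N = ∑ v ∈ Icc 1 (L / 2), hole ψ A v) :
    ((M : ℝ) ^ 2 + (fib ψ 0).card * M) / 2 + 39/100 * A.card * N - 2000 * ((fib ψ 0).card : ℝ) ^ 2
      ≤ (SS A).card := by
  have hτpos : 0 < (fib ψ 0).card := card_pos.2 ⟨0, by rw [mem_fib, map_zero]⟩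
  have hLcount := holes_count hψ hA L
  have hNle : N ≤ ∑ v ∈ Icc 1 L, hole ψ A v := by
    rw [hN]
    apply sum_le_sum_of_subset
    intro v hv
    rw [mem_Icc] at *
    omega
  -- real versions
  have hτ1 : (1 : ℝ) ≤ (fib ψ 0).card := by exact_mod_cast hτpos
  have hL' : (100000 : ℝ) ≤ L := by exact_mod_cast hL
  have hm' : (10 : ℝ) ≤ A.card := by exact_mod_cast hm10
  have hmpos : (0 : ℝ) < A.card := by linarith
  have ha' : 2 * ((lev ψ A 0).card : ℝ) ≤ (fib ψ 0).card := by exact_mod_cast ha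
  obtain ⟨hτsmall, hasmall⟩ := fin_num1 hmpos h2 hL' (by linarith) ha'
  have hNnn : (0 : ℝ) ≤ N := Nat.cast_nonneg _
  have hNsmall : (N : ℝ) ≤ 5/100000 * A.card := by
    have e1 : (A.filter (fun x => ht (ψ x) ≤ L)).card + N
      ≤ (lev ψ A 0).card + (fib ψ 0).card * L := by omega
    have e2 : ((A.filter (fun x => ht (ψ x) ≤ L)).card : ℝ) + N
      ≤ (lev ψ A 0).card + (fib ψ 0).card * L := by exact_mod_cast e1
    linarith
  have hAL : ((A.filter (fun x => ht (ψ x) ≤ L)).card : ℝ) ≤ (lev ψ A 0).card + (fib ψ 0).card * L := by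
    have e1 : (A.filter (fun x => ht (ψ x) ≤ L)).card ≤ (lev ψ A 0).card + (fib ψ 0).card * L := by omega
    exact_mod_cast e1
  -- c
  obtain ⟨c, hc⟩ : ∃ c : ℕ, c = 10 * N / (fib ψ 0).card + 10 := ⟨_, rfl⟩
  have hc10 : 10 ≤ c := by rw [hc]; exact Nat.le_add_left _ _
  have hcτ1 : c * (fib ψ 0).card ≤ 10 * N + 10 * (fib ψ 0).card := by
    rw [hc, add_mul]
    have := Nat.div_mul_le_self (10 * N) (fib ψ 0).card
    omega
  have hcτ2 : 10 * N + 9 * (fib ψ 0).card < c * (fib ψ 0).card := by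
    rw [hc]
    have h := Nat.lt_div_mul_add (a := 10 * N) hτpos
    have e : (10 * N / (fib ψ 0).card + 10) * (fib ψ 0).card
      = 10 * N / (fib ψ 0).card * (fib ψ 0).card + 10 * (fib ψ 0).card := by ring
    rw [e]
    omega
  have hcτ1' : (c : ℝ) * (fib ψ 0).card ≤ 10 * N + 10 * (fib ψ 0).card := by exact_mod_cast hcτ1
  have h32 : 32 * c ≤ L := by
    have := fin_num2 hmpos hL' hτ1 h1 hAL ha' hNsmall hcτ1'
    exact_mod_cast this
  have h10N : 10 * N ≤ c * (fib ψ 0).card := by omega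
  -- seeds
  have hseedN : ∑ v ∈ Icc 1 (4 * c), hole ψ A v ≤ N := by
    rw [hN]
    apply sum_le_sum_of_subset
    intro v hv
    rw [mem_Icc] at *
    omega
  have hseedc : 2 * N < (c - 2) * (fib ψ 0).card := by
    have e : (c - 2) * (fib ψ 0).card + 2 * (fib ψ 0).card = c * (fib ψ 0).card := by
      rw [← add_mul]; congr 1; omega
    omega
  obtain ⟨w, hw⟩ := seeds hψ hA hseedN hseedc
  obtain ⟨Z, hZ⟩ : ∃ Z, Z = A.filter (fun y => 1 ≤ ht (ψ y) ∧ ht (ψ y) ≤ 4 * c) := ⟨_, rfl⟩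
  rw [← hZ] at hw
  have hZA : Z ⊆ A := by rw [hZ]; exact filter_subset _ _
  have htotZ : tot ψ Z ≤ 10 * (fib ψ 0).card * c ^ 2 := by
    rw [hZ]; exact tot_seeds hψ hA c (by omega)
  -- y0
  have hy0 : ∃ y0 ∈ A, 4 * c < ht (ψ y0) ∧ ht (ψ y0) ≤ 5 * c := by
    by_contra hcon
    push Not at hcon
    have h4 := tot_low hψ hA (l := 4 * c) (t := 5 * c + 1) (L' := L / 2) (N := N) (by omega) (by omega)
      (by rw [hN])
    have h5 : A.filter (fun y => 4 * c < ht (ψ y) ∧ ht (ψ y) < 5 * c + 1) = ∅ := by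
      rw [filter_eq_empty_iff]
      rintro y hy ⟨h6, h7⟩
      have := hcon y hy h6
      omega
    rw [h5, tot, sum_empty, zero_add] at h4
    have h6 : (5 * c + 1 - 1 - 4 * c) * (fib ψ 0).card ≤ N := Nat.le_of_mul_le_mul_left h4 (by omega)
    have h7 : 5 * c + 1 - 1 - 4 * c = c := by omega
    rw [h7] at h6
    omega
  obtain ⟨y0, hy0A, hy01, hy02⟩ := hy0
  obtain ⟨F, hF⟩ : ∃ F, F = (A.filter (fun y => 4 * c < ht (ψ y))).erase y0 := ⟨_, rfl⟩
  have hFA : F ⊆ A := by rw [hF]; exact (erase_subset _ _).trans (filter_subset _ _)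
  have hFmem : ∀ y, y ∈ F ↔ y ≠ y0 ∧ y ∈ A ∧ 4 * c < ht (ψ y) := by
    intro y; rw [hF, mem_erase, mem_filter]
  have hZF : Disjoint Z F := by
    rw [disjoint_left]
    intro y hy hy'
    rw [hZ, mem_filter] at hy
    rw [hFmem] at hy'
    omega
  have hy0Z : y0 ∉ Z := by rw [hZ, mem_filter]; omega
  have hy0F : y0 ∉ F := by rw [hFmem]; tauto
  have hcond : ∀ y ∈ F, ht (ψ y) ≤ L →
      ht (ψ y) ≤ 5 * c + tot ψ (F.filter (fun y' => ht (ψ y') < ht (ψ y))) := by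
    intro y hy hyL
    by_cases h5c : ht (ψ y) ≤ 5 * c
    · omega
    · push Not at h5c
      obtain ⟨t, ht0⟩ : ∃ t, t = min (ht (ψ y)) (L / 2 + 1) := ⟨_, rfl⟩
      have ht1 : t ≤ ht (ψ y) := by rw [ht0]; exact min_le_left _ _
      have ht2 : t ≤ L / 2 + 1 := by rw [ht0]; exact min_le_right _ _
      have ht3 : 5 * c + 1 ≤ t := by rw [ht0]; exact le_min (by omega) (by omega)
      have h4 := tot_low hψ hA (l := 4 * c) (t := t) (L' := L / 2) (N := N) (by omega) ht2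
        (by rw [hN])
      obtain ⟨k, hk⟩ : ∃ k, k = t - 1 - 4 * c := ⟨_, rfl⟩
      rw [← hk] at h4
      have h5 := cond_nat hc10 hτpos (by omega : c ≤ k) h10N h4
      have h6 : tot ψ (A.filter (fun y' => 4 * c < ht (ψ y') ∧ ht (ψ y') < t))
          ≤ tot ψ (F.filter (fun y' => ht (ψ y') < ht (ψ y))) + ht (ψ y0) := by
        rw [← tot_singleton ψ y0]
        refine le_trans (tot_mono ψ ?_) (tot_union_le ψ _ _)
        intro x hx
        rw [mem_filter] at hx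
        rw [mem_union, mem_filter, mem_singleton, hFmem]
        by_cases hxy : x = y0
        · right; exact hxy
        · left; exact ⟨⟨hxy, hx.1, hx.2.1⟩, by omega⟩
      rcases min_choice (ht (ψ y)) (L / 2 + 1) with h7 | h7
      · rw [← ht0] at h7
        omega
      · rw [← ht0] at h7
        omega
  -- big
  have hLsplit : tot ψ (A.filter (fun x => ht (ψ x) ≤ L)) ≤
      tot ψ Z + (tot ψ (F.filter (fun y' => ht (ψ y') ≤ L)) + ht (ψ y0)) := by
    have hz : tot ψ (A.filter (fun x => ht (ψ x) ≤ L))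
        ≤ tot ψ ((A.filter (fun x => ht (ψ x) ≤ L)).filter (fun x => 1 ≤ ht (ψ x))) := by
      rw [tot, tot, sum_filter (s := A.filter (fun x => ht (ψ x) ≤ L))]
      apply sum_le_sum
      intro x _
      split_ifs with h
      · exact le_refl _
      · omega
    refine hz.trans ?_
    rw [← tot_singleton ψ y0]
    refine le_trans (tot_mono ψ ?_) ((tot_union_le ψ Z _).trans (Nat.add_le_add_left (tot_union_le ψ _ _) _))
    intro x hx
    rw [mem_filter, mem_filter] at hx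
    rw [mem_union, mem_union, mem_filter, mem_singleton, hFmem, hZ, mem_filter]
    by_cases hxy : x = y0
    · right; right; exact hxy
    · by_cases hx4 : ht (ψ x) ≤ 4 * c
      · left; exact ⟨hx.1.1, hx.2, hx4⟩
      · right; left; exact ⟨⟨hxy, hx.1.1, by omega⟩, hx.1.2⟩
  have hseedsq : ((tot ψ Z : ℕ) : ℝ) * (fib ψ 0).card ≤ 10 * ((c : ℝ) * (fib ψ 0).card) ^ 2 := by
    have e1 : ((tot ψ Z : ℕ) : ℝ) ≤ 10 * (fib ψ 0).card * (c : ℝ) ^ 2 := by exact_mod_cast htotZ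
    calc ((tot ψ Z : ℕ) : ℝ) * (fib ψ 0).card ≤ (10 * (fib ψ 0).card * (c : ℝ) ^ 2) * (fib ψ 0).card :=
          mul_le_mul_of_nonneg_right e1 (by linarith)
      _ = _ := by ring
  have hbig : (SS A).card < 2 * ((fib ψ 0).card * (5 * c + tot ψ (F.filter (fun y' => ht (ψ y') ≤ L)))) := by
    obtain ⟨nL, hnL⟩ : ∃ nL : ℕ, nL + (lev ψ A 0).card = (A.filter (fun x => ht (ψ x) ≤ L)).card := by
      refine ⟨(A.filter (fun x => ht (ψ x) ≤ L)).card - (lev ψ A 0).card, Nat.sub_add_cancel ?_⟩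
      apply card_le_card
      intro x hx
      rw [lev, mem_filter] at hx
      rw [mem_filter]; exact ⟨hx.1, by omega⟩
    have h4 := low_sq hψ hA L hnL
    have hnL' : (nL : ℝ) + (lev ψ A 0).card = (A.filter (fun x => ht (ψ x) ≤ L)).card := by
      exact_mod_cast hnL
    have h5 : ((tot ψ (A.filter (fun x => ht (ψ x) ≤ L)) : ℕ) : ℝ) ≤
        tot ψ Z + (5 * c + tot ψ (F.filter (fun y' => ht (ψ y') ≤ L))) := by
      have : tot ψ (A.filter (fun x => ht (ψ x) ≤ L)) ≤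
        tot ψ Z + (5 * c + tot ψ (F.filter (fun y' => ht (ψ y') ≤ L))) := by omega
      exact_mod_cast this
    have h6 : (nL : ℝ) ^ 2 / 2 - 10 * ((c : ℝ) * (fib ψ 0).card) ^ 2 ≤
        (fib ψ 0).card * (5 * c + tot ψ (F.filter (fun y' => ht (ψ y') ≤ L))) := by
      have h7 := mul_le_mul_of_nonneg_left h5 (by linarith : (0 : ℝ) ≤ (fib ψ 0).card)
      linarith
    have h8 := fin_num3 (m := A.card) (nL := nL) hm' (by linarith) (Nat.cast_nonneg c) hτsmall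
      hNsmall hcτ1' (by linarith) h6 (S := (SS A).card) (by exact_mod_cast h3)
    exact_mod_cast h8
  obtain ⟨w', hw'⟩ := proc hψ hZA hFA hZF hw hcond hbig
  -- the window is shorter than ν
  have hqν : 5 * c + tot ψ F < ν := by
    by_contra hcon
    push Not at hcon
    have h4 := hw'.eq_univ hcon
    have h5 : -y0 ∉ SS (Z ∪ F) := hA.neg_notMem hy0A (union_subset hZA hFA) (by
      rw [mem_union, not_or]; exact ⟨hy0Z, hy0F⟩)
    apply h5
    rw [h4]; exact mem_univ _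
  have hcardw := hw'.card hψ hqν.le
  have hfin : (fib ψ 0).card * (5 * c + tot ψ F) ≤ (SS A).card :=
    hcardw.trans (card_le_card (SS_mono (union_subset hZA hFA)))
  -- total
  have htotA : tot ψ A ≤ tot ψ Z + (tot ψ F + ht (ψ y0)) := by
    have hz : tot ψ A ≤ tot ψ (A.filter (fun x => 1 ≤ ht (ψ x))) := by
      rw [tot, tot, sum_filter]
      apply sum_le_sum
      intro x _
      split_ifs with h
      · exact le_refl _
      · omega
    refine hz.trans ?_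
    rw [← tot_singleton ψ y0]
    refine le_trans (tot_mono ψ ?_) ((tot_union_le ψ Z _).trans (Nat.add_le_add_left (tot_union_le ψ _ _) _))
    intro x hx
    rw [mem_filter] at hx
    rw [mem_union, mem_union, mem_singleton, hFmem, hZ, mem_filter]
    by_cases hxy : x = y0
    · right; right; exact hxy
    · by_cases hx4 : ht (ψ x) ≤ 4 * c
      · left; exact ⟨hx.1, hx.2, hx4⟩
      · right; left; exact ⟨hxy, hx.1, by omega⟩
  obtain ⟨k, hk⟩ : ∃ k : ℕ, k = M / (fib ψ 0).card := ⟨_, rfl⟩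
  have hsq := tot_sq hψ hA hM hk
  -- holes part
  have hM' : (M : ℝ) + (lev ψ A 0).card = A.card := by exact_mod_cast hM
  have hk1 : (M : ℝ) ≤ (fib ψ 0).card * (k + 1) := by
    have e : M < (fib ψ 0).card * (M / (fib ψ 0).card + 1) := Nat.lt_mul_div_succ M hτpos
    rw [← hk] at e
    exact_mod_cast e.le
  have hL2 : ((L / 2 : ℕ) : ℝ) ≤ L / 2 := Nat.cast_div_le
  have hkL : 49/100 * (A.card : ℝ) ≤ (fib ψ 0).card * ((k : ℝ) + 1 - (L / 2 : ℕ)) := by
    have e1 : ((fib ψ 0).card : ℝ) * (L / 2 : ℕ) ≤ (fib ψ 0).card * (L / 2) :=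
      mul_le_mul_of_nonneg_left hL2 (by linarith)
    have e2 : ((fib ψ 0).card : ℝ) * (L / 2) = (fib ψ 0).card * L / 2 := by ring
    have e3 : ((fib ψ 0).card : ℝ) * ((k : ℝ) + 1 - (L / 2 : ℕ))
      = (fib ψ 0).card * (k + 1) - (fib ψ 0).card * (L / 2 : ℕ) := by ring
    rw [e3]
    linarith
  have hkge : L / 2 ≤ k := by
    by_contra hcon
    push Not at hcon
    have e1 : ((k : ℝ) + 1) ≤ (L / 2 : ℕ) := by exact_mod_cast hcon
    have e2 : ((fib ψ 0).card : ℝ) * ((k : ℝ) + 1 - (L / 2 : ℕ)) ≤ 0 :=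
      mul_nonpos_of_nonneg_of_nonpos (by linarith) (by linarith)
    linarith
  have hholes : ((k : ℝ) + 1 - (L / 2 : ℕ)) * N ≤ ∑ v ∈ Icc 1 k, ((k : ℝ) + 1 - v) * hole ψ A v := by
    have e1 : ∑ v ∈ Icc 1 (L / 2), ((k : ℝ) + 1 - v) * hole ψ A v
        ≤ ∑ v ∈ Icc 1 k, ((k : ℝ) + 1 - v) * hole ψ A v := by
      apply sum_le_sum_of_subset_of_nonneg
      · intro v hv
        rw [mem_Icc] at *
        omega
      · intro v hv _
        rw [mem_Icc] at hv
        apply mul_nonneg _ (Nat.cast_nonneg _)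
        have : (v : ℝ) ≤ k := by exact_mod_cast hv.2
        linarith
    refine le_trans ?_ e1
    rw [hN, Nat.cast_sum, mul_sum]
    apply sum_le_sum
    intro v hv
    rw [mem_Icc] at hv
    apply mul_le_mul_of_nonneg_right _ (Nat.cast_nonneg _)
    have : (v : ℝ) ≤ (L / 2 : ℕ) := by exact_mod_cast hv.2
    linarith
  have hHN : 49/100 * (A.card : ℝ) * N ≤
      (fib ψ 0).card * ∑ v ∈ Icc 1 k, ((k : ℝ) + 1 - v) * hole ψ A v := by
    calc 49/100 * (A.card : ℝ) * N ≤ ((fib ψ 0).card * ((k : ℝ) + 1 - (L / 2 : ℕ))) * N :=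
          mul_le_mul_of_nonneg_right hkL hNnn
      _ = (fib ψ 0).card * (((k : ℝ) + 1 - (L / 2 : ℕ)) * N) := by ring
      _ ≤ _ := mul_le_mul_of_nonneg_left hholes (by linarith)
  refine fin_num4 (Q := ((M : ℝ) ^ 2 + (fib ψ 0).card * M) / 2)
    (X := (fib ψ 0).card * (5 * c + tot ψ F)) hNnn (by linarith) (Nat.cast_nonneg c) hNsmall hcτ1' ?_
    (by exact_mod_cast hfin) hHN
  have e1 : ((tot ψ A : ℕ) : ℝ) ≤ tot ψ Z + (5 * c + tot ψ F) := by
    have : tot ψ A ≤ tot ψ Z + (5 * c + tot ψ F) := by omega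
    exact_mod_cast this
  have e2 := mul_le_mul_of_nonneg_left e1 (by linarith : (0 : ℝ) ≤ (fib ψ 0).card)
  linarith

end

end Pool.Agent.Lib.MP_ee6709_co
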