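import Pool.Agent.Lib.MP_ee6709_co.Fibre

/-!
# Structure theorem (MP_ee6709_co)
-/

set_option linter.style.longLine false
set_option linter.unusedSectionVars false

namespace Pool.Agent.Lib.MP_ee6709_co

open Finset
open scoped Pointwise

universe u

/-! ### Numerical lemmas -/

lemma str_num1 {δ ε j r n X : ℝ} (hδ : 0 < δ) (hε : ε = δ / 400) (hδ1 : δ ≤ 1/400)
    (hj : 1000 ≤ δ * j) (hr : 0 < r) (hn : n ≤ (2 + 4 * ε) * (j + 1) * r)
    (hX : 1 + (2 - ε) * r ≤ X) : n < (2 * j - 9) * X := by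
  have hj1 : 1000 ≤ j := by
    by_contra hc
    push Not at hc
    nlinarith
  have hε1 : ε ≤ 1/1000 := by rw [hε]; linarith
  have hε0 : 0 < ε := by rw [hε]; positivity
  have h1 : (2 + 4 * ε) * (j + 1) * r ≤ (201/100) * (j + 1) * r := by
    apply mul_le_mul_of_nonneg_right _ hr.le
    apply mul_le_mul_of_nonneg_right _ (by linarith)
    linarith
  have h2 : (199/100) * r ≤ X := by
    have : (2 - ε) * r ≥ (199/100) * r := mul_le_mul_of_nonneg_right (by linarith) hr.le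
    linarith
  have h3 : (2 * j - 9) * ((199/100) * r) ≤ (2 * j - 9) * X := mul_le_mul_of_nonneg_left h2 (by linarith)
  have h4 : (201/100) * (j + 1) * r < (2 * j - 9) * ((199/100) * r) := by
    have : (201/100) * (j + 1) < (2 * j - 9) * (199/100) := by linarith
    calc (201/100) * (j + 1) * r < (2 * j - 9) * (199/100) * r := mul_lt_mul_of_pos_right this hr
      _ = _ := by ring
  linarith

lemma str_num2 {δ ε j r n t : ℝ} (hδ : 0 < δ) (hε : ε = δ / 400) (hδ1 : δ ≤ 1/400)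
    (hj : 1000 ≤ δ * j) (hr : 0 < r) (hn : n ≤ (2 + 4 * ε) * (j + 1) * r)
    (ht : (2 * j - 9) * t ≤ n) : t ≤ (1 + δ / 4) * r := by
  have hj1 : 1000 ≤ j := by
    by_contra hc
    push Not at hc
    nlinarith
  have h1 : (2 + 4 * ε) * (j + 1) ≤ (1 + δ / 4) * (2 * j - 9) := by
    rw [hε]
    nlinarith
  have h2 : (2 * j - 9) * t ≤ (2 * j - 9) * ((1 + δ / 4) * r) := by
    calc (2 * j - 9) * t ≤ (2 + 4 * ε) * (j + 1) * r := ht.trans hn
      _ ≤ (1 + δ / 4) * (2 * j - 9) * r := mul_le_mul_of_nonneg_right h1 hr.le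
      _ = _ := by ring
  exact le_of_mul_le_mul_left h2 (by linarith)

lemma str_num3 {δ ε j r n t : ℝ} (hδ : 0 < δ) (hε : ε = δ / 400) (hδ1 : δ ≤ 1/400)
    (hj : 1000 ≤ δ * j) (hr : 0 < r) (hn : n ≤ (2 + 4 * ε) * ((j + 2) + 1) * r)
    (ht : 2 * j * t ≤ n) : t ≤ (1 + δ / 8) * r := by
  have hj1 : 1000 ≤ j := by
    by_contra hc
    push Not at hc
    nlinarith
  have h1 : (2 + 4 * ε) * ((j + 2) + 1) ≤ (1 + δ / 8) * (2 * j) := by
    rw [hε]
    nlinarith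
  have h2 : (2 * j) * t ≤ (2 * j) * ((1 + δ / 8) * r) := by
    calc (2 * j) * t ≤ (2 + 4 * ε) * ((j + 2) + 1) * r := ht.trans hn
      _ ≤ (1 + δ / 8) * (2 * j) * r := mul_le_mul_of_nonneg_right h1 hr.le
      _ = _ := by ring
  exact le_of_mul_le_mul_left h2 (by linarith)

lemma str_nat {j I L ν : ℕ} (h : 10 * j + 700 ≤ I) (h2 : I * L < 5 * ν) :
    100 * L ≤ ν ∧ 2 * (j * L) < ν := by
  have h3 : (10 * j + 700) * L ≤ I * L := Nat.mul_le_mul_right _ h
  have h4 : (10 * j + 700) * L = 10 * (j * L) + 700 * L := by ring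
  rw [h4] at h3
  obtain ⟨q, hq⟩ : ∃ q, q = j * L := ⟨_, rfl⟩
  rw [← hq] at h3 ⊢
  omega

section
variable {K : Type u} [AddCommGroup K] [DecidableEq K] [Fintype K]

lemma ZSF.le_of_fib {ν : ℕ} (ψ : K →+ ZMod ν) (A : Finset K) :
    (SS (lev ψ A 0)).card ≤ (fib ψ 0).card := by
  apply card_le_card
  apply SS_subset_gp (fib_zero_isSubgp ψ)
  intro x hx
  rw [lev, mem_filter, ht_eq_zero] at hx
  rw [mem_fib]; exact hx.2

/-- Removing few elements keeps the levels almost full. -/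
lemma lev_lower {ν : ℕ} {ψ : K →+ ZMod ν} (hψ : Function.Surjective ψ) {A D1 D2 : Finset K}
    (hA : ZSF A) {L : ℕ} (hR : ∀ x ∈ A \ D1, ht (ψ x) ≤ L) {v : ℕ} (hv1 : 1 ≤ v) (hvL : v ≤ L) :
    (fib ψ 0).card + (A \ D1).card ≤ (lev ψ (A \ D2) v).card + D2.card + (lev ψ A 0).card
      + (fib ψ 0).card * L := by
  have h1 := card_eq_sum_lev ψ hR
  have h2 : ∑ u ∈ Icc 1 L, (lev ψ (A \ D1) u).card + (fib ψ 0).card
      ≤ (lev ψ (A \ D1) v).card + (fib ψ 0).card * L := by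
    have hmem : v ∈ Icc 1 L := mem_Icc.2 ⟨hv1, hvL⟩
    rw [← sum_erase_add _ _ hmem]
    have h3 : ∑ u ∈ (Icc 1 L).erase v, (lev ψ (A \ D1) u).card
        ≤ ((Icc 1 L).erase v).card * (fib ψ 0).card := by
      rw [← smul_eq_mul, ← sum_const]
      exact sum_le_sum fun u _ => card_lev_le hψ (hA.mono sdiff_subset) u
    rw [card_erase_of_mem hmem, Nat.card_Icc] at h3
    have h4 : (L + 1 - 1 - 1) * (fib ψ 0).card + (fib ψ 0).card = (fib ψ 0).card * L := by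
      obtain ⟨l, rfl⟩ : ∃ l, L = l + 1 := ⟨L - 1, by omega⟩
      simp; ring
    omega
  have h5 : (lev ψ (A \ D1) 0).card ≤ (lev ψ A 0).card :=
    card_le_card (filter_subset_filter _ sdiff_subset)
  have h6 : (lev ψ (A \ D1) v).card ≤ (lev ψ (A \ D2) v).card + D2.card := by
    have : lev ψ (A \ D1) v ⊆ lev ψ (A \ D2) v ∪ D2 := by
      intro x hx
      rw [lev, mem_filter, mem_sdiff] at hx
      rw [mem_union, lev, mem_filter, mem_sdiff]
      by_cases hxD : x ∈ D2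
      · right; exact hxD
      · left; exact ⟨⟨hx.1.1, hxD⟩, hx.2⟩
    exact (card_le_card this).trans (card_union_le _ _)
  omega

lemma str_num4 {m r1 a τ L L0 δ : ℝ} (hδ0 : 0 < δ) (hδ1 : δ ≤ 1/400) (hL0 : 0 ≤ L0)
    (hδL : δ * (400 * (L0 + 1)) ≤ 1) (hm : 0 < m) (hr : (1 - δ) * m ≤ r1)
    (ha : a ≤ 2/10 * (δ * m)) (hcount : r1 ≤ a + τ * L) (hLL0 : L ≤ L0) (hτ : 0 ≤ τ) :
    3 * (δ * m) + δ * m / 4 + a < τ / 2 := by
  have hδm1 : δ * m ≤ 1/400 * m := mul_le_mul_of_nonneg_right hδ1 hm.le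
  have h0 : τ * L ≤ τ * L0 := mul_le_mul_of_nonneg_left hLL0 hτ
  have h00 : (1 - δ) * m = m - δ * m := by ring
  have hτlow : (99/100) * m ≤ τ * L0 := by linarith
  have h1 : (δ * m) * (400 * (L0 + 1)) ≤ m := by
    calc (δ * m) * (400 * (L0 + 1)) = (δ * (400 * (L0 + 1))) * m := by ring
      _ ≤ 1 * m := mul_le_mul_of_nonneg_right hδL hm.le
      _ = m := one_mul _
  have h2 : (δ * m) * (400 * (L0 + 1)) * (99/100) ≤ τ * (L0 + 1) := by
    have : τ * L0 ≤ τ * (L0 + 1) := mul_le_mul_of_nonneg_left (by linarith) hτ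
    linarith
  have h3 : (δ * m) * 396 ≤ τ := by
    have e : (δ * m) * (400 * (L0 + 1)) * (99/100) = ((δ * m) * 396) * (L0 + 1) := by ring
    rw [e] at h2
    exact le_of_mul_le_mul_right h2 (by linarith)
  have hδmpos : 0 < δ * m := by positivity
  linarith

lemma str_num5 {m r1 r2 d2 a τ L δ : ℝ} (hδ0 : 0 < δ) (hm : 0 < m)
    (hr : (1 - δ) * m ≤ r1) (ha : a ≤ 2/10 * (δ * m)) (hcount : r1 ≤ a + τ * L)
    (hd2 : 2 * δ * m ≤ d2) (hr2 : r2 = m - d2) (hfin : τ * L ≤ (1 + δ / 8) * r2) : False := by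
  have h1 : (1 + δ / 8) * (m - d2) ≤ (1 + δ / 8) * (m - 2 * δ * m) :=
    mul_le_mul_of_nonneg_left (by linarith) (by positivity)
  have h2 : (1 + δ / 8) * (m - 2 * δ * m) = m - 15/8 * (δ * m) - δ * (δ * m) / 4 := by ring
  have h3 : 0 ≤ δ * (δ * m) / 4 := by positivity
  have hδmpos : 0 < δ * m := by positivity
  have h00 : (1 - δ) * m = m - δ * m := by ring
  rw [hr2] at hfin
  linarith

lemma L_large {ν : ℕ} [NeZero ν] {ψ : K →+ ZMod ν} (hsurj : Function.Surjective ψ)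
    {A D1 D2 : Finset K} (hA : ZSF A) {L0 L j : ℕ} {δ ε m : ℝ} (hδ0 : 0 < δ)
    (hδL : δ * (400 * ((L0 : ℝ) + 1)) ≤ 1) (hδ1 : δ ≤ 1/400) (hε : ε = δ / 400)
    (hj : 1000 ≤ δ * (j : ℝ)) (hm : 0 < m) (hr : (1 - δ) * m ≤ ((A \ D1).card : ℝ))
    (hrm : ((A \ D1).card : ℝ) ≤ m)
    (hD2a : 2 * δ * m ≤ D2.card) (hD2b : (D2.card : ℝ) ≤ 3 * δ * m)
    (hr2 : ((A \ D2).card : ℝ) = m - D2.card)
    (hψR : ∀ x ∈ A \ D1, ht (ψ x) ≤ L)
    (hτL : ((fib ψ 0).card : ℝ) * L ≤ (1 + δ / 4) * (A \ D1).card)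
    (ha : ((lev ψ A 0).card : ℝ) ≤ 2/10 * (δ * m)) (hL1 : 1 ≤ L) (hLL0 : L ≤ L0)
    (h2jL : 2 * (j * L) < ν)
    (hn2j : ((it (sym (A \ D2)) (j + 2)).card : ℝ) ≤ (2 + 4 * ε) * ((j + 2) + 1) * (A \ D2).card) :
    False := by
  have hLL0' : (L : ℝ) ≤ L0 := by exact_mod_cast hLL0
  have hτnn : (0 : ℝ) ≤ (fib ψ 0).card := Nat.cast_nonneg _
  have hcount : ((A \ D1).card : ℝ) ≤ (lev ψ A 0).card + (fib ψ 0).card * L := by
    have h1 := card_eq_sum_lev ψ hψR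
    have h2 : ∑ v ∈ Icc 1 L, (lev ψ (A \ D1) v).card ≤ L * (fib ψ 0).card := by
      have h3 : ∑ v ∈ Icc 1 L, (lev ψ (A \ D1) v).card ≤ (Icc 1 L).card * (fib ψ 0).card := by
        rw [← smul_eq_mul, ← sum_const]
        exact sum_le_sum fun u _ => card_lev_le hsurj (hA.mono sdiff_subset) u
      rw [Nat.card_Icc] at h3
      simpa using h3
    have h4 : (lev ψ (A \ D1) 0).card ≤ (lev ψ A 0).card :=
      card_le_card (filter_subset_filter _ sdiff_subset)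
    have h5 : (A \ D1).card ≤ (lev ψ A 0).card + L * (fib ψ 0).card := by omega
    have h6 : ((A \ D1).card : ℝ) ≤ (lev ψ A 0).card + L * (fib ψ 0).card := by exact_mod_cast h5
    rw [mul_comm ((fib ψ 0).card : ℝ)]
    exact h6
  have hτlow := str_num4 hδ0 hδ1 (Nat.cast_nonneg L0) hδL hm hr ha hcount hLL0' hτnn
  have hfull : ∀ v : ℕ, 1 ≤ v → v ≤ L →
      (fib ψ 0).card < 2 * ((sym (A \ D2)).filter (fun x => ψ x = (v : ZMod ν))).card := by
    intro v hv1 hvL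
    have h1 := lev_lower hsurj hA (D1 := D1) (D2 := D2) hψR hv1 hvL
    have h2 := card_lev_le_sym ψ (hA.mono (sdiff_subset : A \ D2 ⊆ A)) v
    have h3 : ((fib ψ 0).card : ℝ) + (A \ D1).card ≤ (lev ψ (A \ D2) v).card + D2.card
        + (lev ψ A 0).card + (fib ψ 0).card * L := by
      exact_mod_cast h1
    have h4 : ((fib ψ 0).card : ℝ) < 2 * (lev ψ (A \ D2) v).card := by
      have e : δ * ((A \ D1).card : ℝ) ≤ δ * m := mul_le_mul_of_nonneg_left hrm hδ0.le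
      have e2 : (1 + δ / 4) * ((A \ D1).card : ℝ) = (A \ D1).card + δ * (A \ D1).card / 4 := by ring
      have e3 : 3 * δ * m = 3 * (δ * m) := by ring
      rw [e2] at hτL
      rw [e3] at hD2b
      linarith
    have h5 : (fib ψ 0).card < 2 * (lev ψ (A \ D2) v).card := by exact_mod_cast h4
    omega
  have hbig := card_full_it hsurj hL1 hfull h2jL
  have hr2pos : (0 : ℝ) < (A \ D2).card := by
    have : δ * m ≤ 1/400 * m := mul_le_mul_of_nonneg_right hδ1 hm.le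
    rw [hr2]
    have e3 : 3 * δ * m = 3 * (δ * m) := by ring
    rw [e3] at hD2b
    linarith
  have hfin : ((fib ψ 0).card : ℝ) * L ≤ (1 + δ / 8) * (A \ D2).card := by
    refine str_num3 hδ0 hε hδ1 hj hr2pos hn2j ?_
    have h3 : (((fib ψ 0).card * (2 * (j * L) + 1) : ℕ) : ℝ) ≤ (it (sym (A \ D2)) (j + 2)).card := by
      exact_mod_cast hbig
    push_cast at h3
    have e : ((fib ψ 0).card : ℝ) * (2 * (j * L) + 1) = 2 * j * ((fib ψ 0).card * L) + (fib ψ 0).card := by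
      ring
    rw [e] at h3
    linarith
  exact str_num5 hδ0 hm hr ha hcount hD2a hr2 hfin

/-- Bound on `|A ∩ T|` from the crude bound. -/
lemma a_small {ν : ℕ} {ψ : K →+ ZMod ν} {A : Finset K} (hA : ZSF A) {M3 N' L L0 : ℕ} {δ m r : ℝ}
    (hδ0 : 0 < δ) (hδ1 : δ ≤ 1/400) (hN' : 8 / δ ≤ N') (hM3 : ∀ B : Finset K, ZSF B → M3 ≤ B.card → N' * B.card ≤ (SS B).card)
    (hL : 1 ≤ L) (hrm : r ≤ m) (hr0 : 0 ≤ r)
    (hτL : ((fib ψ 0).card : ℝ) * L ≤ (1 + δ / 4) * r)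
    (hM3m : (M3 : ℝ) * (1000 * ((L0 : ℝ) + 1)) ≤ δ * m) :
    ((lev ψ A 0).card : ℝ) ≤ 2/10 * (δ * m) := by
  have hL1' : (1 : ℝ) ≤ L := by exact_mod_cast hL
  have hτnn : (0 : ℝ) ≤ (fib ψ 0).card := Nat.cast_nonneg _
  have hτm : ((fib ψ 0).card : ℝ) ≤ 11/10 * m := by
    have h1 : ((fib ψ 0).card : ℝ) * 1 ≤ (fib ψ 0).card * L := mul_le_mul_of_nonneg_left hL1' hτnn
    have h2 : (1 + δ / 4) * r ≤ (11/10) * m := by
      apply mul_le_mul _ hrm hr0 (by norm_num)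
      linarith
    linarith
  have hcr : ((lev ψ A 0).card : ℝ) ≤ δ * (fib ψ 0).card / 8 + M3 := by
    by_cases h : M3 ≤ (lev ψ A 0).card
    · have h1 := hM3 (lev ψ A 0) (hA.mono (filter_subset _ _)) h
      have h2 := ZSF.le_of_fib ψ A
      have h3 : (N' : ℝ) * (lev ψ A 0).card ≤ (fib ψ 0).card := by exact_mod_cast h1.trans h2
      have h4 : 8 / δ * ((lev ψ A 0).card : ℝ) ≤ (fib ψ 0).card :=
        (mul_le_mul_of_nonneg_right hN' (Nat.cast_nonneg _)).trans h3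
      rw [div_mul_eq_mul_div, div_le_iff₀ hδ0] at h4
      have : (0 : ℝ) ≤ M3 := Nat.cast_nonneg _
      linarith
    · push Not at h
      have : ((lev ψ A 0).card : ℝ) ≤ M3 := by exact_mod_cast h.le
      have : 0 ≤ δ * ((fib ψ 0).card : ℝ) / 8 := by positivity
      linarith
  have hM3small : (M3 : ℝ) ≤ δ * m / 1000 := by
    have h1 : (M3 : ℝ) * 1000 ≤ M3 * (1000 * ((L0 : ℝ) + 1)) := by
      apply mul_le_mul_of_nonneg_left _ (Nat.cast_nonneg _)
      have : (0 : ℝ) ≤ L0 := Nat.cast_nonneg _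
      linarith
    linarith
  have hδτ : δ * ((fib ψ 0).card : ℝ) ≤ δ * (11/10 * m) := mul_le_mul_of_nonneg_left hτm hδ0.le
  have : δ * (11/10 * m) = 11/10 * (δ * m) := by ring
  linarith

end

/-- Structure theorem. -/
theorem structure_thm (L0 : ℕ) (θ : ℝ) (hθ : 0 < θ) :
    ∃ M : ℕ, ∀ (K : Type u) [AddCommGroup K] [DecidableEq K] [Fintype K] (A : Finset K),
    ZSF A → M ≤ A.card → Gn A → 2 * (SS A).card ≤ A.card ^ 2 + 2 →
    ∃ ν : ℕ, 0 < ν ∧ ∃ ψ : K →+ ZMod ν, Function.Surjective ψ ∧ ∃ L : ℕ, L0 ≤ L ∧ 1 ≤ L ∧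
      100 * L ≤ ν ∧ (1 - θ) * A.card ≤ ((A.filter (fun x => ht (ψ x) ≤ L)).card : ℝ) ∧
      ((fib ψ 0).card : ℝ) * L ≤ (1 + θ) * A.card := by
  -- parameters
  obtain ⟨δ, hδdef⟩ : ∃ δ : ℝ, δ = min (θ/2) (1 / (400 * ((L0 : ℝ) + 1))) := ⟨_, rfl⟩
  have hL0pos : (0 : ℝ) < (L0 : ℝ) + 1 := by positivity
  have hδ0 : 0 < δ := by rw [hδdef]; exact lt_min (by positivity) (by positivity)
  have hδθ : δ ≤ θ / 2 := by rw [hδdef]; exact min_le_left _ _
  have hδL : δ * (400 * ((L0 : ℝ) + 1)) ≤ 1 := by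
    have : δ ≤ 1 / (400 * ((L0 : ℝ) + 1)) := by rw [hδdef]; exact min_le_right _ _
    rwa [le_div_iff₀ (by positivity)] at this
  have hδ1 : δ ≤ 1/400 := by
    have h0 : (0 : ℝ) ≤ L0 := Nat.cast_nonneg _
    have : δ * (400 * 1) ≤ δ * (400 * ((L0 : ℝ) + 1)) :=
      mul_le_mul_of_nonneg_left (by linarith) hδ0.le
    linarith
  obtain ⟨c, hc⟩ : ∃ c : ℝ, c = δ / 10 := ⟨_, rfl⟩
  have hc0 : 0 < c := by rw [hc]; positivity
  obtain ⟨ε, hε⟩ : ∃ ε : ℝ, ε = δ / 400 := ⟨_, rfl⟩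
  have hε0 : 0 < ε := by rw [hε]; positivity
  have hε1 : ε ≤ 1/1000 := by rw [hε]; linarith
  obtain ⟨j, hjdef⟩ : ∃ j : ℕ, j = ⌈1000 / δ⌉₊ := ⟨_, rfl⟩
  have hj : 1000 ≤ δ * (j : ℝ) := by
    have : 1000 / δ ≤ (j : ℝ) := by rw [hjdef]; exact Nat.le_ceil _
    rw [div_le_iff₀ hδ0] at this; linarith
  have hj1000 : (1000 : ℝ) ≤ j := by
    have : δ * (j : ℝ) ≤ 1 * j := mul_le_mul_of_nonneg_right (by linarith) (Nat.cast_nonneg _)
    linarith
  have hjnat : 1000 ≤ j := by exact_mod_cast hj1000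
  obtain ⟨M1, hM1⟩ := window.{u} (δ/2) δ ε (by positivity) (by linarith) (by linarith) hε0 (by linarith)
  obtain ⟨M2, hM2⟩ := window.{u} (2 * δ) (3 * δ) ε (by positivity) (by linarith) (by linarith) hε0 (by linarith)
  obtain ⟨N', hN'⟩ := exists_nat_ge (8 / δ)
  obtain ⟨M3, hM3⟩ := crude.{u} N'
  -- lower bound for J0
  obtain ⟨B, hB⟩ : ∃ B : ℝ, B = (10 * j + 700) / c + (j + 3) * (1 / ε + 2) := ⟨_, rfl⟩
  obtain ⟨M4, hM4⟩ := exists_nat_ge (B / (δ ^ 2 / 40) + (M3 + 1) * (1000 / δ * (L0 + 1)) + 10)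
  refine ⟨max (max M1 M2) M4, fun K _ _ _ A hA hMA hG hSS => ?_⟩
  have hA1 : M1 ≤ A.card := le_trans (le_trans (le_max_left _ _) (le_max_left _ _)) hMA
  have hA2 : M2 ≤ A.card := le_trans (le_trans (le_max_right _ _) (le_max_left _ _)) hMA
  have hA4 : M4 ≤ A.card := le_trans (le_max_right _ _) hMA
  obtain ⟨-, D1, hD1A, hD1a, hD1b, J1, hJ1, hn1, hK1⟩ := hM1 K A hA hA1 hG hSS
  obtain ⟨hall3, D2, hD2A, hD2a, hD2b, J2, hJ2, hn2, hK2⟩ := hM2 K A hA hA2 hG hSS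
  obtain ⟨m, hm⟩ : ∃ m : ℕ, m = A.card := ⟨_, rfl⟩
  rw [← hm] at hA4 hD1a hD1b hD2a hD2b hJ1 hJ2 ⊢
  have hmnn : (0 : ℝ) ≤ m := Nat.cast_nonneg _
  have hmbig : B / (δ ^ 2 / 40) + (M3 + 1) * (1000 / δ * (L0 + 1)) + 10 ≤ (m : ℝ) :=
    hM4.trans (by exact_mod_cast hA4)
  have hBpos : 0 ≤ B := by rw [hB]; positivity
  have p1 : 0 ≤ B / (δ ^ 2 / 40) := by positivity
  have p2 : (0 : ℝ) ≤ (M3 + 1) * (1000 / δ * (L0 + 1)) := by positivity
  have hmpos : (0 : ℝ) < m := by linarith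
  have hBm : B ≤ δ ^ 2 / 40 * m := by
    have : B / (δ ^ 2 / 40) ≤ m := by linarith
    rw [div_le_iff₀ (by positivity)] at this; linarith
  have hM3m : (M3 : ℝ) * (1000 * ((L0 : ℝ) + 1)) ≤ δ * m := by
    have h1 : (M3 + 1) * (1000 / δ * (L0 + 1)) ≤ (m : ℝ) := by linarith
    have h2 : (M3 : ℝ) * (1000 / δ * (L0 + 1)) ≤ m := by
      have : (M3 : ℝ) * (1000 / δ * (L0 + 1)) ≤ (M3 + 1) * (1000 / δ * (L0 + 1)) :=
        mul_le_mul_of_nonneg_right (by linarith) (by positivity)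
      linarith
    have h3 : (M3 : ℝ) * (1000 / δ * (L0 + 1)) = (M3 * (1000 * ((L0 : ℝ) + 1))) / δ := by
      field_simp
    rw [h3, div_le_iff₀ hδ0] at h2
    linarith
  have hJ1B : B ≤ J1 := by
    have : (δ / 2) ^ 2 / 10 * (m : ℝ) = δ ^ 2 / 40 * m := by ring
    rw [this] at hJ1; linarith
  have hJ2B : B ≤ J2 := by
    have h1 : δ ^ 2 / 40 * (m : ℝ) ≤ (2 * δ) ^ 2 / 10 * m := by
      have : 0 ≤ δ ^ 2 * (m : ℝ) := by positivity
      have e : (2 * δ) ^ 2 / 10 * (m : ℝ) = 4/10 * (δ ^ 2 * m) := by ring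
      have e2 : δ ^ 2 / 40 * (m : ℝ) = 1/40 * (δ ^ 2 * m) := by ring
      rw [e, e2]; linarith
    linarith
  have hBj : ((j : ℝ) + 3) * (1 / ε + 2) ≤ B := by
    rw [hB]; have : 0 ≤ (10 * (j : ℝ) + 700) / c := by positivity
    linarith
  have hBc : (10 * (j : ℝ) + 700) / c ≤ B := by
    rw [hB]; have : 0 ≤ ((j : ℝ) + 3) * (1 / ε + 2) := by positivity
    linarith
  -- div lower bound
  have hdiv : ∀ J i : ℕ, 1 ≤ i → (i : ℝ) ≤ j + 3 → B ≤ J → 1 / ε ≤ ((J / i : ℕ) : ℝ) := by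
    intro J i hi hij hJ
    have hipos : (0 : ℝ) < i := by exact_mod_cast (by omega : 0 < i)
    have h1 : J < i * (J / i + 1) := Nat.lt_mul_div_succ J (by omega)
    have h2 : (J : ℝ) < i * (((J / i : ℕ) : ℝ) + 1) := by exact_mod_cast h1
    have h3 : (i : ℝ) * (1 / ε + 2) ≤ ((j : ℝ) + 3) * (1 / ε + 2) :=
      mul_le_mul_of_nonneg_right hij (by positivity)
    have h4 : (i : ℝ) * (1 / ε + 2) ≤ i * (((J / i : ℕ) : ℝ) + 1) := by linarith
    have h5 := le_of_mul_le_mul_left h4 hipos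
    linarith
  have hδm : 3 * δ * (m : ℝ) = 3 * (δ * m) := by ring
  have hδm0 : 0 ≤ δ * (m : ℝ) := by positivity
  obtain ⟨hG1, hgrow1⟩ := hall3 D1 hD1A (by rw [← hm]; linarith)
  obtain ⟨hG2, hgrow2⟩ := hall3 D2 hD2A (by rw [← hm]; linarith)
  have hKpos : 0 < Fintype.card K := Fintype.card_pos
  have hK1' : (it (sym (A \ D1)) J1).card < Fintype.card K := by
    have := one_le_card_it (zero_mem_sym (A \ D1)) J1
    omega
  have hK2' : (it (sym (A \ D2)) J2).card < Fintype.card K := by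
    have := one_le_card_it (zero_mem_sym (A \ D2)) J2
    omega
  -- sizes
  have hr1 : ((A \ D1).card : ℝ) = m - D1.card := by
    have : (A \ D1).card + D1.card = m := by rw [hm]; exact card_sdiff_add_card_eq_card hD1A
    have : ((A \ D1).card : ℝ) + D1.card = m := by exact_mod_cast this
    linarith
  have hr2 : ((A \ D2).card : ℝ) = m - D2.card := by
    have : (A \ D2).card + D2.card = m := by rw [hm]; exact card_sdiff_add_card_eq_card hD2A
    have : ((A \ D2).card : ℝ) + D2.card = m := by exact_mod_cast this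
    linarith
  have hδm1 : δ * (m : ℝ) ≤ 1/400 * m := mul_le_mul_of_nonneg_right hδ1 hmnn
  have hD1nn : (0 : ℝ) ≤ D1.card := Nat.cast_nonneg _
  have hD2nn : (0 : ℝ) ≤ D2.card := Nat.cast_nonneg _
  have hr1pos : (0 : ℝ) < (A \ D1).card := by rw [hr1]; linarith
  have hr2pos : (0 : ℝ) < (A \ D2).card := by rw [hr2]; linarith
  have hr1m : ((A \ D1).card : ℝ) ≤ m := by rw [hr1]; linarith
  -- I
  obtain ⟨I, hI⟩ : ∃ I : ℕ, I = ⌊c * (J1 : ℝ)⌋₊ := ⟨_, rfl⟩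
  have hIc : (I : ℝ) ≤ c * J1 := by rw [hI]; exact Nat.floor_le (by positivity)
  have hIlow : 10 * (j : ℝ) + 700 < I + 1 := by
    have h1 : c * (J1 : ℝ) < I + 1 := by rw [hI]; exact Nat.lt_floor_add_one _
    have h2 : 10 * (j : ℝ) + 700 ≤ c * J1 := by
      have : (10 * (j : ℝ) + 700) / c ≤ J1 := hBc.trans hJ1B
      rw [div_le_iff₀ hc0] at this; linarith
    linarith
  have hIlow' : 10 * j + 700 ≤ I := by
    have : (10 * j + 700 : ℕ) < I + 1 := by exact_mod_cast hIlow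
    omega
  have hlamY := lam_Y hε0 hc0 (by rw [hc]; linarith) (by rw [hε, hc]; linarith) hIc hgrow1 hn1 hK1'
  -- Fourier
  have hYsub : (it (sym (A \ D1)) (J1 - I)).card ≤ (it (sym (A \ D1)) J1).card :=
    card_le_card (it_mono (zero_mem_sym _) (Nat.sub_le _ _))
  have hnsmul : ∀ x ∈ A \ D1, ∀ i ≤ I, i • x ∈ it (sym (A \ D1)) I := by
    intro x hx i hi
    apply it_mono (zero_mem_sym _) hi
    clear hi
    induction i with
    | zero => simp
    | succ i ih => rw [succ_nsmul, it_succ]; exact add_mem_add ih (subset_sym _ hx)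
  obtain ⟨φ, hφ0, hbad⟩ := fourier_hom (Y := it (sym (A \ D1)) (J1 - I)) (R := A \ D1)
    (it_nonempty (zero_mem_sym _) _) (by omega) (I := I) (by omega) hc0
    (fun x hx i hi => hlamY _ (hnsmul x hx i hi))
  obtain ⟨bad, hbaddef⟩ : ∃ bad, bad = (A \ D1).filter
    (fun x => Fintype.card K ≤ I * (φ x).valMinAbs.natAbs) := ⟨_, rfl⟩
  rw [← hbaddef] at hbad
  have hbadA : bad ⊆ A := by rw [hbaddef]; exact (filter_subset _ _).trans sdiff_subset
  have hDgA : D1 ∪ bad ⊆ A := union_subset hD1A hbadA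
  have hDgc : ((D1 ∪ bad).card : ℝ) ≤ 3/2 * (δ * m) := by
    have h1 : ((D1 ∪ bad).card : ℝ) ≤ D1.card + bad.card := by exact_mod_cast card_union_le _ _
    have h2 : 5 * c * ((A \ D1).card : ℝ) ≤ 5 * c * m := mul_le_mul_of_nonneg_left hr1m (by positivity)
    have h3 : 5 * c * (m : ℝ) = 1/2 * (δ * m) := by rw [hc]; ring
    linarith
  obtain ⟨hGg, hgrowg⟩ := hall3 (D1 ∪ bad) hDgA (by rw [← hm]; linarith)
  have hRgc : ((A \ (D1 ∪ bad)).card : ℝ) = m - (D1 ∪ bad).card := by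
    have : (A \ (D1 ∪ bad)).card + (D1 ∪ bad).card = m := by
      rw [hm]; exact card_sdiff_add_card_eq_card hDgA
    have : ((A \ (D1 ∪ bad)).card : ℝ) + (D1 ∪ bad).card = m := by exact_mod_cast this
    linarith
  have hn3 := lin hG1 hε0 (by linarith) (by norm_num : 1 ≤ 3) hn1 hK1' (hdiv J1 3 (by norm_num)
    (by push_cast; linarith) hJ1B)
  have hallsmall := all_small (R := A \ D1) (Rg := A \ (D1 ∪ bad))
    (sdiff_subset_sdiff (subset_refl _) subset_union_left) hgrowg (by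
      have h1 : (2 + 4 * ε) * (((3 : ℕ) : ℝ) + 1) * (A \ D1).card ≤ (2 + 4 * ε) * (((3 : ℕ) : ℝ) + 1) * m :=
        mul_le_mul_of_nonneg_left hr1m (by positivity)
      have h2 : (2 + 4 * ε) * (((3 : ℕ) : ℝ) + 1) * (m : ℝ) ≤ 9 * m := by
        apply mul_le_mul_of_nonneg_right _ hmnn
        push_cast; linarith
      have h3 : (99/100) * (m : ℝ) ≤ (A \ (D1 ∪ bad)).card := by rw [hRgc]; linarith
      have h4 : (2 - ε) * ((99/100) * (m : ℝ)) ≤ (2 - ε) * (A \ (D1 ∪ bad)).card :=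
        mul_le_mul_of_nonneg_left h3 (by linarith)
      have h5 : (199/100) * ((99/100) * (m : ℝ)) ≤ (2 - ε) * ((99/100) * (m : ℝ)) :=
        mul_le_mul_of_nonneg_right (by linarith) (by positivity)
      linarith) (by
      have h3J : 3 ≤ J1 := by
        have h1 : (3 : ℝ) ≤ J1 := by
          have h2 : (10 * (j : ℝ) + 700) ≤ c * J1 := by
            have : (10 * (j : ℝ) + 700) / c ≤ J1 := hBc.trans hJ1B
            rw [div_le_iff₀ hc0] at this; linarith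
          have h3 : c * (J1 : ℝ) ≤ 1 * J1 := mul_le_mul_of_nonneg_right (by rw [hc]; linarith) (Nat.cast_nonneg _)
          linarith
        exact_mod_cast h1
      exact (card_le_card (it_mono (zero_mem_sym _) h3J)).trans_lt hK1')
    (I := I) hKpos φ (by
      intro x hx
      rw [mem_sdiff, mem_union, not_or] at hx
      by_contra hcon
      push Not at hcon
      apply hx.2.2
      rw [hbaddef, mem_filter, mem_sdiff]
      exact ⟨⟨hx.1, hx.2.1⟩, hcon⟩)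
  -- core
  have hnj := lin hG1 hε0 (by linarith) (by omega : 1 ≤ j) hn1 hK1' (hdiv J1 j (by omega)
    (by linarith) hJ1B)
  have hsymlow : 1 + (2 - ε) * ((A \ D1).card : ℝ) ≤ (sym (A \ D1)).card := by
    have h1 := hgrow1.iter isSubgp_univ (subset_univ _) (zero_mem_sym _) 1
    rw [it_one] at h1
    rcases h1 with h | h
    · exfalso
      have h1J : 1 ≤ J1 := by
        by_contra hc'
        have : J1 = 0 := by omega
        rw [this] at hJ1B
        have : (0 : ℝ) < B := by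
          have : (0 : ℝ) < ((j : ℝ) + 3) * (1 / ε + 2) := by positivity
          linarith
        simp at hJ1B; linarith
      have h2 := card_le_card (it_mono (zero_mem_sym (A \ D1)) h1J)
      have h3 := congrArg Finset.card h
      rw [card_univ] at h3
      rw [it_one] at h2
      omega
    · simpa using h
  obtain ⟨ν, hν, ψ, hsurj, L, hL1, hψL, hker, hIL⟩ := core hG1 hKpos φ hφ0 hallsmall
    (by omega : 10 * j ≤ I) (by omega : 5 ≤ j) (by
      have h1 := str_num1 hδ0 hε hδ1 hj hr1pos hnj hsymlow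
      have h2 : ((2 * j - 9 : ℕ) : ℝ) = 2 * j - 9 := by
        rw [Nat.cast_sub (by omega)]; push_cast; ring
      have h3 : ((it (sym (A \ D1)) j).card : ℝ) < (((2 * j - 9) * (sym (A \ D1)).card : ℕ) : ℝ) := by
        rw [Nat.cast_mul, h2]; exact h1
      exact_mod_cast h3)
  have : NeZero ν := ⟨hν.ne'⟩
  have hτL : ((fib ψ 0).card : ℝ) * L ≤ (1 + δ / 4) * (A \ D1).card := by
    refine str_num2 hδ0 hε hδ1 hj hr1pos hnj ?_
    have h2 : ((2 * j - 9 : ℕ) : ℝ) = 2 * j - 9 := by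
      rw [Nat.cast_sub (by omega)]; push_cast; ring
    have h3 : (((2 * j - 9) * ((fib ψ 0).card * L) : ℕ) : ℝ) ≤ (it (sym (A \ D1)) j).card := by
      exact_mod_cast hker
    rw [Nat.cast_mul, Nat.cast_mul, h2] at h3
    exact h3
  obtain ⟨h100, h2jL⟩ := str_nat hIlow' hIL
  have hψR : ∀ x ∈ A \ D1, ht (ψ x) ≤ L := fun x hx => hψL x (subset_sym _ hx)
  refine ⟨ν, hν, ψ, hsurj, L, ?_, hL1, h100, ?_, ?_⟩
  · -- L ≥ L0
    by_contra hcon
    push Not at hcon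
    have hn2j := lin hG2 hε0 (by linarith) (by omega : 1 ≤ j + 2) hn2 hK2' (hdiv J2 (j + 2) (by omega)
      (by push_cast; linarith) hJ2B)
    have haa := a_small hA hδ0 hδ1 hN' (hM3 K) hL1 hr1m hr1pos.le hτL hM3m
    exact L_large hsurj hA hδ0 hδL hδ1 hε hj hmpos (by rw [hr1]; linarith) hr1m hD2a hD2b hr2 hψR
      hτL haa hL1 hcon.le h2jL (by push_cast at hn2j; exact hn2j)
  · -- most elements have height ≤ L
    have h1 : A \ D1 ⊆ A.filter (fun x => ht (ψ x) ≤ L) := by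
      intro x hx
      rw [mem_filter]
      exact ⟨(mem_sdiff.1 hx).1, hψR x hx⟩
    have h2 : ((A \ D1).card : ℝ) ≤ (A.filter (fun x => ht (ψ x) ≤ L)).card := by
      exact_mod_cast card_le_card h1
    have h3 : δ * (m : ℝ) ≤ θ / 2 * m := mul_le_mul_of_nonneg_right hδθ hmnn
    have h4 : 0 ≤ θ * (m : ℝ) := by positivity
    linarith
  · -- τ L ≤ (1+θ) m
    refine hτL.trans ?_
    apply mul_le_mul _ hr1m hr1pos.le (by linarith)
    linarith

end Pool.Agent.Lib.MP_ee6709_co
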