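import Pool.Agent.Lib.MP_ee6709_co.Final1
import Pool.Agent.Lib.MP_ee6709_co.Struct2

/-!
# Final count, part 2: the exact lower bound (MP_ee6709_co)
-/

set_option linter.style.longLine false
set_option linter.unusedSectionVars false

namespace Pool.Agent.Lib.MP_ee6709_co

open Finset
open scoped Pointwise

universe u

section
variable {K : Type u} [AddCommGroup K] [DecidableEq K] [Fintype K]

/-- The count in the tight case without holes. -/
theorem count_tight {ν : ℕ} [NeZero ν] {ψ : K →+ ZMod ν} (hψ : Function.Surjective ψ)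
    {A : Finset K} (hA : ZSF A) {L : ℕ} (hL : 100000 ≤ L)
    (hm10 : 10 ≤ A.card)
    (h1 : (1 - 1/50000) * (A.card : ℝ) ≤ (A.filter (fun x => ht (ψ x) ≤ L)).card)
    (h2 : ((fib ψ 0).card : ℝ) * L ≤ (1 + 1/50000) * A.card)
    (h3 : 2 * (SS A).card ≤ A.card ^ 2 + 2) (ha : 2 * (lev ψ A 0).card = (fib ψ 0).card)
    {M : ℕ} (hM : M + (lev ψ A 0).card = A.card) (hN : ∑ v ∈ Icc 1 (L / 2), hole ψ A v = 0)
    (hSS : SS (lev ψ A 0) = fib ψ 0) :
    ((M : ℝ) ^ 2 + (fib ψ 0).card * M) / 2 + (fib ψ 0).card ≤ (SS A).card := by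
  have hτpos : 0 < (fib ψ 0).card := card_pos.2 ⟨0, by rw [mem_fib, map_zero]⟩
  have hτ2 : 2 ≤ (fib ψ 0).card := by omega
  -- real versions
  have hτ1 : (1 : ℝ) ≤ (fib ψ 0).card := by exact_mod_cast hτpos
  have hL' : (100000 : ℝ) ≤ L := by exact_mod_cast hL
  have hm' : (10 : ℝ) ≤ A.card := by exact_mod_cast hm10
  have hmpos : (0 : ℝ) < A.card := by linarith
  have ha' : 2 * ((lev ψ A 0).card : ℝ) ≤ (fib ψ 0).card := by exact_mod_cast ha.le
  obtain ⟨hτsmall, hasmall⟩ := fin_num1 hmpos h2 hL' (by linarith) ha'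
  -- start
  obtain ⟨Z, hZ⟩ : ∃ Z, Z = lev ψ A 0 := ⟨_, rfl⟩
  rw [← hZ] at hSS
  have hw : Win ψ (SS Z) (0 : ZMod ν) 1 := by
    intro i hi
    have : i = 0 := by omega
    subst this
    rw [Nat.cast_zero, add_zero, hSS]
  have hZA : Z ⊆ A := by rw [hZ]; exact filter_subset _ _
  -- y0
  have hy0 : ∃ y0 ∈ A, ht (ψ y0) = 1 := by
    by_contra hcon
    push Not at hcon
    have h4 : lev ψ A 1 = ∅ := by
      rw [lev, filter_eq_empty_iff]
      exact hcon
    have h5 := hole_add hψ hA 1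
    rw [h4, card_empty, add_zero] at h5
    have h6 : hole ψ A 1 ≤ ∑ v ∈ Icc 1 (L / 2), hole ψ A v :=
      single_le_sum (f := fun v => hole ψ A v) (fun _ _ => Nat.zero_le _) (by rw [mem_Icc]; omega)
    omega
  obtain ⟨y0, hy0A, hy01⟩ := hy0
  obtain ⟨F, hF⟩ : ∃ F, F = (A.filter (fun y => 1 ≤ ht (ψ y))).erase y0 := ⟨_, rfl⟩
  have hFA : F ⊆ A := by rw [hF]; exact (erase_subset _ _).trans (filter_subset _ _)
  have hFmem : ∀ y, y ∈ F ↔ y ≠ y0 ∧ y ∈ A ∧ 1 ≤ ht (ψ y) := by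
    intro y; rw [hF, mem_erase, mem_filter]
  have hZF : Disjoint Z F := by
    rw [disjoint_left]
    intro y hy hy'
    rw [hZ, lev, mem_filter] at hy
    rw [hFmem] at hy'
    omega
  have hy0Z : y0 ∉ Z := by rw [hZ, lev, mem_filter]; omega
  have hy0F : y0 ∉ F := by rw [hFmem]; tauto
  have hcond : ∀ y ∈ F, ht (ψ y) ≤ L →
      ht (ψ y) ≤ 1 + tot ψ (F.filter (fun y' => ht (ψ y') < ht (ψ y))) := by
    intro y hy hyL
    by_cases hy1 : ht (ψ y) ≤ 1
    · omega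
    · push Not at hy1
      by_cases hy2 : ht (ψ y) ≤ L / 2 + 1
      · have h4 := tot_low hψ hA (l := 0) (t := ht (ψ y)) (L' := L / 2) (N := 0) (by omega) hy2 hN.le
        have h6 : tot ψ (A.filter (fun y' => 0 < ht (ψ y') ∧ ht (ψ y') < ht (ψ y)))
            ≤ tot ψ (F.filter (fun y' => ht (ψ y') < ht (ψ y))) + ht (ψ y0) := by
          rw [← tot_singleton ψ y0]
          refine le_trans (tot_mono ψ ?_) (tot_union_le ψ _ _)
          intro x hx
          rw [mem_filter] at hx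
          rw [mem_union, mem_filter, mem_singleton, hFmem]
          by_cases hxy : x = y0
          · right; exact hxy
          · left; exact ⟨⟨hxy, hx.1, hx.2.1⟩, hx.2.2⟩
        have h7 : (ht (ψ y) - 1) * 2 ≤ (ht (ψ y) - 1) * (fib ψ 0).card := Nat.mul_le_mul_left _ hτ2
        simp only [Nat.sub_zero, zero_add, one_mul, mul_zero, add_zero] at h4
        omega
      · push Not at hy2
        have h4 := tot_low hψ hA (l := 1) (t := L / 2 + 1) (L' := L / 2) (N := 0) (by omega) (by omega) hN.le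
        have h6 : tot ψ (A.filter (fun y' => 1 < ht (ψ y') ∧ ht (ψ y') < L / 2 + 1))
            ≤ tot ψ (F.filter (fun y' => ht (ψ y') < ht (ψ y))) := by
          apply tot_mono
          intro x hx
          rw [mem_filter] at hx
          rw [mem_filter, hFmem]
          refine ⟨⟨?_, hx.1, by omega⟩, by omega⟩
          intro hxy
          rw [hxy] at hx
          omega
        have h7 : (L / 2 + 1 - 1 - 1) * 2 ≤ (L / 2 + 1 - 1 - 1) * (fib ψ 0).card := Nat.mul_le_mul_left _ hτ2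
        omega
  -- big
  have hLsplit : tot ψ (A.filter (fun x => ht (ψ x) ≤ L)) ≤
      1 + tot ψ (F.filter (fun y' => ht (ψ y') ≤ L)) := by
    have hz : tot ψ (A.filter (fun x => ht (ψ x) ≤ L))
        ≤ tot ψ ((A.filter (fun x => ht (ψ x) ≤ L)).filter (fun x => 1 ≤ ht (ψ x))) := by
      rw [tot, tot, sum_filter (s := A.filter (fun x => ht (ψ x) ≤ L))]
      apply sum_le_sum
      intro x _
      split_ifs with h
      · exact le_refl _
      · omega
    have hun := tot_union_le ψ ({y0} : Finset K) (F.filter (fun y' => ht (ψ y') ≤ L))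
    rw [tot_singleton, hy01] at hun
    refine hz.trans (le_trans (tot_mono ψ ?_) hun)
    intro x hx
    rw [mem_filter, mem_filter] at hx
    rw [mem_union, mem_filter, mem_singleton, hFmem]
    by_cases hxy : x = y0
    · left; exact hxy
    · right; exact ⟨⟨hxy, hx.1.1, hx.2⟩, hx.1.2⟩
  have hbig : (SS A).card < 2 * ((fib ψ 0).card * (1 + tot ψ (F.filter (fun y' => ht (ψ y') ≤ L)))) := by
    obtain ⟨nL, hnL⟩ : ∃ nL : ℕ, nL + (lev ψ A 0).card = (A.filter (fun x => ht (ψ x) ≤ L)).card := by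
      refine ⟨(A.filter (fun x => ht (ψ x) ≤ L)).card - (lev ψ A 0).card, Nat.sub_add_cancel ?_⟩
      apply card_le_card
      intro x hx
      rw [lev, mem_filter] at hx
      rw [mem_filter]; exact ⟨hx.1, by omega⟩
    have h4 := low_sq hψ hA L hnL
    have hnL' : (nL : ℝ) + (lev ψ A 0).card = (A.filter (fun x => ht (ψ x) ≤ L)).card := by
      exact_mod_cast hnL
    have h5 : ((tot ψ (A.filter (fun x => ht (ψ x) ≤ L)) : ℕ) : ℝ) ≤
        1 + tot ψ (F.filter (fun y' => ht (ψ y') ≤ L)) := by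
      exact_mod_cast hLsplit
    have h6 : (nL : ℝ) ^ 2 / 2 - 10 * (((0 : ℕ) : ℝ) * (fib ψ 0).card) ^ 2 ≤
        (fib ψ 0).card * (1 + tot ψ (F.filter (fun y' => ht (ψ y') ≤ L))) := by
      have h7 := mul_le_mul_of_nonneg_left h5 (by linarith : (0 : ℝ) ≤ (fib ψ 0).card)
      rw [Nat.cast_zero, zero_mul]
      linarith
    have h8 := fin_num3 (m := A.card) (nL := nL) (N := 0) (c := ((0 : ℕ) : ℝ)) hm' (by linarith)
      (Nat.cast_nonneg 0) hτsmall (by linarith) (by rw [Nat.cast_zero, zero_mul]; linarith)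
      (by linarith) h6 (S := (SS A).card) (by exact_mod_cast h3)
    exact_mod_cast h8
  obtain ⟨w', hw'⟩ := proc hψ hZA hFA hZF hw hcond hbig
  -- the total
  have htotA : tot ψ A = 1 + tot ψ F := by
    have hz : tot ψ A = tot ψ (A.filter (fun x => 1 ≤ ht (ψ x))) := by
      rw [tot, tot, sum_filter]
      apply sum_congr rfl
      intro x _
      split_ifs with h
      · rfl
      · omega
    rw [hz, hF, tot, tot, add_comm, ← hy01]
    exact (sum_erase_add _ _ (by rw [mem_filter]; exact ⟨hy0A, by omega⟩)).symm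
  rw [← htotA] at hw'
  have hqν : tot ψ A < ν := by
    by_contra hcon
    push Not at hcon
    have h4 := hw'.eq_univ hcon
    have h5 : -y0 ∉ SS (Z ∪ F) := hA.neg_notMem hy0A (union_subset hZA hFA) (by
      rw [mem_union, not_or]; exact ⟨hy0Z, hy0F⟩)
    apply h5
    rw [h4]; exact mem_univ _
  -- add y0
  obtain ⟨w'', hw''⟩ := hw'.add (y := y0) (by omega)
  have hnot : y0 ∉ Z ∪ F := by rw [mem_union, not_or]; exact ⟨hy0Z, hy0F⟩
  rw [← SS_insert hnot, hy01] at hw''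
  have hcardw := hw''.card hψ (by omega)
  have hfin : (fib ψ 0).card * (tot ψ A + 1) ≤ (SS A).card :=
    hcardw.trans (card_le_card (SS_mono (insert_subset hy0A (union_subset hZA hFA))))
  obtain ⟨k, hk⟩ : ∃ k : ℕ, k = M / (fib ψ 0).card := ⟨_, rfl⟩
  have hsq := tot_sq hψ hA hM hk
  have hnonneg : 0 ≤ ((fib ψ 0).card : ℝ) * ∑ v ∈ Icc 1 k, ((k : ℝ) + 1 - v) * hole ψ A v := by
    apply mul_nonneg (by linarith)
    apply sum_nonneg
    intro v hv
    rw [mem_Icc] at hv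
    apply mul_nonneg _ (Nat.cast_nonneg _)
    have : (v : ℝ) ≤ k := by exact_mod_cast hv.2
    linarith
  have hfin' : ((fib ψ 0).card : ℝ) * (tot ψ A + 1) ≤ (SS A).card := by exact_mod_cast hfin
  linarith

end

/-! ### Numerical lemmas for the conclusion -/

lemma concl_num1 {m M a τ N S c1 L0 L : ℝ} (hM : M + a = m) (ha : 2 * a ≤ τ) (ha0 : 0 ≤ a)
    (hτ1 : 1 ≤ τ) (hm : 0 < m) (hN : 0 ≤ N) (hL0 : 3000 ≤ c1 * L0) (hL0' : 0 ≤ L0) (hLL0 : L0 ≤ L)
    (hL : 100000 ≤ L) (hτL : τ * L ≤ (1 + 1/50000) * m) (hgap : c1 * τ ≤ τ / 2 - a)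
    (hS : (M ^ 2 + τ * M) / 2 + 39/100 * m * N - 2000 * τ ^ 2 ≤ S) : m ^ 2 + 3 ≤ 2 * S := by
  have hτ0 : 0 ≤ τ := by linarith
  have hτs : τ * 100000 ≤ τ * L := mul_le_mul_of_nonneg_left hL hτ0
  have hMm : 99/100 * m ≤ M := by linarith
  have h1 : τ * L0 ≤ 101/100 * m := by
    have : τ * L0 ≤ τ * L := mul_le_mul_of_nonneg_left hLL0 hτ0
    linarith
  have h2 : 98/100 * (τ * L0) ≤ M := by linarith
  have h3 : c1 * τ * (98/100 * (τ * L0)) ≤ (τ / 2 - a) * M :=
    mul_le_mul hgap h2 (by positivity) (by nlinarith)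
  have h4 : c1 * τ * (98/100 * (τ * L0)) = 98/100 * (c1 * L0) * τ ^ 2 := by ring
  have h5 : 98/100 * 3000 * τ ^ 2 ≤ 98/100 * (c1 * L0) * τ ^ 2 :=
    mul_le_mul_of_nonneg_right (by linarith) (sq_nonneg _)
  have h6 : a ^ 2 ≤ τ ^ 2 := pow_le_pow_left₀ ha0 (by linarith) 2
  have h7 : 1 ≤ τ ^ 2 := by nlinarith
  have h8 : (M ^ 2 + τ * M) / 2 = m ^ 2 / 2 + (τ / 2 - a) * M - a ^ 2 / 2 := by
    rw [← hM]; ring
  have h9 : 0 ≤ 39/100 * m * N := by positivity
  rw [h8] at hS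
  rw [h4] at h3
  linarith

lemma concl_num2 {m M a τ N S : ℝ} (hM : M + a = m) (ha : 2 * a = τ) (ha0 : 0 ≤ a) (ha3 : a ≤ 3)
    (hm : 200000 ≤ m) (hN : 1 ≤ N)
    (hS : (M ^ 2 + τ * M) / 2 + 39/100 * m * N - 2000 * τ ^ 2 ≤ S) : m ^ 2 + 3 ≤ 2 * S := by
  have h8 : (M ^ 2 + τ * M) / 2 = m ^ 2 / 2 - a ^ 2 / 2 := by
    rw [← hM, ← ha]; ring
  have h1 : 39/100 * m * 1 ≤ 39/100 * m * N := mul_le_mul_of_nonneg_left hN (by linarith)
  have h2 : a ^ 2 ≤ 3 ^ 2 := pow_le_pow_left₀ ha0 ha3 2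
  have h3 : τ ^ 2 = 4 * a ^ 2 := by rw [← ha]; ring
  rw [h8, h3] at hS
  linarith

lemma concl_num3 {m M a τ S : ℝ} (hM : M + a = m) (ha : 2 * a = τ) (ha1 : 1 ≤ a) (ha3 : a ≤ 3)
    (hS : (M ^ 2 + τ * M) / 2 + τ ≤ S) : m ^ 2 + 3 ≤ 2 * S := by
  have h8 : (M ^ 2 + τ * M) / 2 = m ^ 2 / 2 - a ^ 2 / 2 := by
    rw [← hM, ← ha]; ring
  have h1 : 0 ≤ (a - 1) * (3 - a) := mul_nonneg (by linarith) (by linarith)
  rw [h8, ← ha] at hS
  nlinarith

/-- The exact lower bound for generating sets. -/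
theorem lower_gen : ∃ M0 : ℕ, ∀ (K : Type u) [AddCommGroup K] [DecidableEq K] [Fintype K]
    (A : Finset K), ZSF A → M0 ≤ A.card → Gn A → A.card ^ 2 + 3 ≤ 2 * (SS A).card := by
  obtain ⟨c1, hc1, hgap⟩ := gap_const.{u}
  obtain ⟨L0, hL0⟩ := exists_nat_ge (3000 / c1)
  obtain ⟨M1, hM1⟩ := structure_thm.{u} (max L0 100000) (1/50000) (by norm_num)
  refine ⟨max M1 200000, fun K _ _ _ A hA hMA hG => ?_⟩
  have hA1 : M1 ≤ A.card := le_trans (le_max_left _ _) hMA
  have hA2 : 200000 ≤ A.card := le_trans (le_max_right _ _) hMA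
  by_contra hcon
  push Not at hcon
  obtain ⟨ν, hν, ψ, hψ, L, hLL0, hL1, h100, h1, h2⟩ := hM1 K A hA hA1 hG (by omega)
  have : NeZero ν := ⟨hν.ne'⟩
  have hLa : L0 ≤ L := le_trans (le_max_left _ _) hLL0
  have hLb : 100000 ≤ L := le_trans (le_max_right _ _) hLL0
  have hT := fib_zero_isSubgp ψ
  have hBT : lev ψ A 0 ⊆ fib ψ 0 := by
    intro x hx
    rw [lev, mem_filter, ht_eq_zero] at hx
    rw [mem_fib]; exact hx.2
  have hB : ZSF (lev ψ A 0) := hA.mono (filter_subset _ _)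
  have ha := two_card_le hT hBT hB
  obtain ⟨M, hM⟩ : ∃ M, M + (lev ψ A 0).card = A.card :=
    ⟨A.card - (lev ψ A 0).card, Nat.sub_add_cancel (card_le_card (filter_subset _ _))⟩
  have hM' : (M : ℝ) + (lev ψ A 0).card = A.card := by exact_mod_cast hM
  have hm' : (200000 : ℝ) ≤ A.card := by exact_mod_cast hA2
  have hτpos : 0 < (fib ψ 0).card := card_pos.2 ⟨0, by rw [mem_fib, map_zero]⟩
  have hτ1 : (1 : ℝ) ≤ (fib ψ 0).card := by exact_mod_cast hτpos
  have hcount := count_general hψ hA hLb (by omega) h1 h2 (by omega) ha hM rfl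
  have hgoal : (A.card : ℝ) ^ 2 + 3 ≤ 2 * (SS A).card → False := by
    intro h
    have : A.card ^ 2 + 3 ≤ 2 * (SS A).card := by exact_mod_cast h
    omega
  apply hgoal
  by_cases htight : 2 * (lev ψ A 0).card = (fib ψ 0).card
  · obtain ⟨ha3, hSS⟩ := tight_case hT hBT hB htight
    have ha3' : ((lev ψ A 0).card : ℝ) ≤ 3 := by exact_mod_cast ha3
    have htight' : 2 * ((lev ψ A 0).card : ℝ) = (fib ψ 0).card := by exact_mod_cast htight
    by_cases hN : ∑ v ∈ Icc 1 (L / 2), hole ψ A v = 0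
    · have h4 := count_tight hψ hA hLb (by omega) h1 h2 (by omega) htight hM hN hSS
      have ha1 : 1 ≤ (lev ψ A 0).card := by omega
      have ha1' : (1 : ℝ) ≤ (lev ψ A 0).card := by exact_mod_cast ha1
      exact concl_num3 hM' htight' ha1' ha3' h4
    · have hN1 : 1 ≤ ∑ v ∈ Icc 1 (L / 2), hole ψ A v := Nat.one_le_iff_ne_zero.2 hN
      have hN1' : (1 : ℝ) ≤ ((∑ v ∈ Icc 1 (L / 2), hole ψ A v : ℕ) : ℝ) := by exact_mod_cast hN1
      exact concl_num2 hM' htight' (Nat.cast_nonneg _) ha3' hm' hN1' hcount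
  · have hg := hgap K (fib ψ 0) (lev ψ A 0) hT hBT hB htight
    have ha' : 2 * ((lev ψ A 0).card : ℝ) ≤ (fib ψ 0).card := by exact_mod_cast ha
    rw [div_le_iff₀ hc1] at hL0
    refine concl_num1 (c1 := c1) (L0 := L0) (L := L) hM' ha' (Nat.cast_nonneg _) hτ1 (by linarith)
      (Nat.cast_nonneg _) (by linarith) (Nat.cast_nonneg _) (by exact_mod_cast hLa)
      (by exact_mod_cast hLb) h2 hg hcount

/-- The exact lower bound for all zero-sum-free sets. -/
theorem lower_all : ∃ M0 : ℕ, ∀ (K : Type u) [AddCommGroup K] [DecidableEq K] [Fintype K]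
    (A : Finset K), ZSF A → M0 ≤ A.card → A.card ^ 2 + 3 ≤ 2 * (SS A).card := by
  obtain ⟨M0, hM0⟩ := lower_gen.{u}
  refine ⟨M0, fun K _ _ _ A hA hMA => ?_⟩
  obtain ⟨K', _, _, _, A', hA', hG', hc', hs'⟩ := exists_gen K A hA
  rw [← hs', ← hc']
  exact hM0 K' A' hA' (by rw [hc']; exact hMA) hG'

end Pool.Agent.Lib.MP_ee6709_co
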