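import Pool.Agent.Lib.MP_ee6709_co.Mann

/-!
# Fourier-analytic input: a character almost trivial on `R` (MP_ee6709_co)
-/

set_option linter.style.longLine false
set_option linter.unusedSectionVars false

namespace Pool.Agent.Lib.MP_ee6709_co

open Finset
open scoped Pointwise ComplexConjugate

universe u

section
variable {K : Type u} [AddCommGroup K] [DecidableEq K] [Fintype K]

lemma parseval (f : K → ℂ) :
    ∑ χ : AddChar K ℂ, ‖∑ k, f k * χ k‖ ^ 2 = (Fintype.card K : ℝ) * ∑ k, ‖f k‖ ^ 2 := by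
  have key : ((∑ χ : AddChar K ℂ, ‖∑ k, f k * χ k‖ ^ 2 : ℝ) : ℂ)
      = (((Fintype.card K : ℝ) * ∑ k, ‖f k‖ ^ 2 : ℝ) : ℂ) := by
    push_cast
    have h1 : ∀ w : ℂ, ((‖w‖ : ℂ)) ^ 2 = w * conj w := by
      intro w
      rw [Complex.mul_conj, Complex.normSq_eq_norm_sq]
      push_cast; rfl
    simp_rw [h1]
    have h2 : ∀ χ : AddChar K ℂ, (∑ k, f k * χ k) * conj (∑ k, f k * χ k)
        = ∑ k, ∑ l, f k * conj (f l) * χ (k - l) := by
      intro χ
      rw [map_sum, sum_mul_sum]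
      refine sum_congr rfl fun k _ => sum_congr rfl fun l _ => ?_
      rw [map_mul, sub_eq_add_neg, AddChar.map_add_eq_mul, AddChar.map_neg_eq_conj]
      ring
    simp_rw [h2]
    rw [sum_comm]
    rw [mul_sum]
    refine sum_congr rfl fun k _ => ?_
    rw [sum_comm]
    have h3 : ∀ l : K, ∑ χ : AddChar K ℂ, f k * conj (f l) * χ (k - l)
        = f k * conj (f l) * (if k - l = 0 then (Fintype.card K : ℂ) else 0) := by
      intro l
      rw [← mul_sum, AddChar.sum_apply_eq_ite]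
    simp_rw [h3, sub_eq_zero]
    rw [sum_eq_single k]
    · simp; ring
    · intro b _ hb
      rw [if_neg (Ne.symm hb)]; simp
    · intro h; exact absurd (mem_univ _) h
  exact_mod_cast key

lemma four_lam (Y : Finset K) (z : K) :
    ∑ χ : AddChar K ℂ, ‖∑ y ∈ Y, χ y‖ ^ 2 * ‖1 - χ z‖ ^ 2
      = (Fintype.card K : ℝ) * (2 * lam Y z) := by
  have h1 := parseval (fun k => (if k ∈ Y then (1 : ℂ) else 0) - (if k ∈ tr Y z then 1 else 0))
  have h2 : ∀ χ : AddChar K ℂ, ∑ k, ((if k ∈ Y then (1 : ℂ) else 0) - (if k ∈ tr Y z then 1 else 0)) * χ k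
      = (∑ y ∈ Y, χ y) * (1 - χ z) := by
    intro χ
    simp_rw [sub_mul, ite_mul, one_mul, zero_mul]
    rw [sum_sub_distrib, sum_ite_mem, sum_ite_mem, univ_inter, univ_inter, tr,
      sum_image (fun a _ b _ h => add_left_injective z h)]
    simp_rw [AddChar.map_add_eq_mul]
    rw [← sum_mul]; ring
  simp_rw [h2, norm_mul, mul_pow] at h1
  rw [h1]
  congr 1
  -- symmetric difference
  have h3 : ∀ k : K, ‖((if k ∈ Y then (1 : ℂ) else 0) - (if k ∈ tr Y z then 1 else 0))‖ ^ 2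
      = (if k ∈ tr Y z \ Y then (1 : ℝ) else 0) + (if k ∈ Y \ tr Y z then (1 : ℝ) else 0) := by
    intro k
    by_cases ha : k ∈ Y <;> by_cases hb : k ∈ tr Y z <;> simp [ha, hb]
  simp_rw [h3]
  rw [sum_add_distrib, sum_ite_mem, sum_ite_mem, univ_inter, univ_inter, sum_const, sum_const]
  have h4 : (Y \ tr Y z).card = lam Y z := by
    have e1 : (Y \ tr Y z).card + (Y ∩ tr Y z).card = Y.card := card_sdiff_add_card_inter _ _
    have e2 : (tr Y z \ Y).card + (tr Y z ∩ Y).card = (tr Y z).card := card_sdiff_add_card_inter _ _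
    rw [inter_comm, card_tr] at e2
    rw [lam]; omega
  rw [h4]
  have h5 : (tr Y z \ Y).card = lam Y z := rfl
  rw [h5]
  simp; ring

/-- If `‖1 - w‖ ≥ 4/I` then on average `‖1 - w^j‖² ≥ 1`. -/
lemma bad_sum {w : ℂ} (hw : ‖w‖ = 1) {I : ℕ} (h : 4 ≤ (I : ℝ) * ‖1 - w‖) :
    (I : ℝ) ≤ ∑ j ∈ range I, ‖1 - w ^ (j + 1)‖ ^ 2 := by
  have hne : (1 - w) ≠ 0 := by
    intro h0
    rw [h0, norm_zero, mul_zero] at h
    linarith
  have hpos : 0 < ‖1 - w‖ := norm_pos_iff.2 hne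
  have h1 : ∀ j ∈ range I, ‖1 - w ^ (j + 1)‖ ^ 2 = 2 - 2 * (w ^ (j + 1)).re := by
    intro j _
    have hn : ‖w ^ (j + 1)‖ = 1 := by rw [norm_pow, hw, one_pow]
    have e1 : ‖1 - w ^ (j + 1)‖ ^ 2 = Complex.normSq (1 - w ^ (j + 1)) := by
      rw [Complex.normSq_eq_norm_sq]
    have e2 : Complex.normSq (w ^ (j + 1)) = 1 := by
      rw [Complex.normSq_eq_norm_sq, hn, one_pow]
    rw [e1]
    rw [Complex.normSq_apply] at e2 ⊢
    simp only [Complex.sub_re, Complex.one_re, Complex.sub_im, Complex.one_im]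
    nlinarith
  rw [sum_congr rfl h1, sum_sub_distrib, sum_const, card_range, ← mul_sum]
  have h2 : (1 - w) * ∑ j ∈ range I, w ^ (j + 1) = w - w ^ (I + 1) := by
    have := mul_neg_geom_sum w I
    have e : ∑ j ∈ range I, w ^ (j + 1) = w * ∑ j ∈ range I, w ^ j := by
      rw [mul_sum]; exact sum_congr rfl fun j _ => by ring
    rw [e]
    calc (1 - w) * (w * ∑ j ∈ range I, w ^ j) = w * ((1 - w) * ∑ j ∈ range I, w ^ j) := by ring
      _ = w * (1 - w ^ I) := by rw [this]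
      _ = _ := by ring
  have h3 : ‖1 - w‖ * ‖∑ j ∈ range I, w ^ (j + 1)‖ ≤ 2 := by
    rw [← norm_mul, h2]
    calc ‖w - w ^ (I + 1)‖ ≤ ‖w‖ + ‖w ^ (I + 1)‖ := norm_sub_le _ _
      _ = 2 := by rw [norm_pow, hw]; norm_num
  have h4 : (∑ j ∈ range I, (w ^ (j + 1)).re) ≤ ‖∑ j ∈ range I, w ^ (j + 1)‖ := by
    rw [← Complex.re_sum]
    exact Complex.re_le_norm _
  have h5 : 2 * ‖∑ j ∈ range I, w ^ (j + 1)‖ ≤ I := by
    have h6 : 2 * ‖∑ j ∈ range I, w ^ (j + 1)‖ * ‖1 - w‖ ≤ I * ‖1 - w‖ := by linarith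
    exact le_of_mul_le_mul_right h6 hpos
  rw [nsmul_eq_mul]
  linarith

/-- A nontrivial character almost trivial on most of `R`. -/
theorem fourier_char {Y R : Finset K} (hY : Y.Nonempty) (h20 : 20 * Y.card ≤ Fintype.card K)
    {I : ℕ} (hI : 1 ≤ I) {c : ℝ} (hc : 0 < c)
    (hlam : ∀ x ∈ R, ∀ j ≤ I, (lam Y (j • x) : ℝ) ≤ 2 * c * Y.card) :
    ∃ χ : AddChar K ℂ, χ ≠ 1 ∧
      ((R.filter (fun x => 4 ≤ (I : ℝ) * ‖1 - χ x‖)).card : ℝ) ≤ 5 * c * R.card := by
  set N : ℝ := (Fintype.card K : ℝ) with hN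
  have hypos : (0 : ℝ) < Y.card := by exact_mod_cast card_pos.2 hY
  have h20' : 20 * (Y.card : ℝ) ≤ N := by rw [hN]; exact_mod_cast h20
  have hNpos : 0 < N := by linarith
  have hIpos : (0 : ℝ) < I := by exact_mod_cast hI
  -- total energy
  have htot : ∑ χ : AddChar K ℂ, ‖∑ y ∈ Y, χ y‖ ^ 2 = N * Y.card := by
    have h1 := parseval (fun k => if k ∈ Y then (1 : ℂ) else 0)
    have h2 : ∀ χ : AddChar K ℂ, ∑ k, (if k ∈ Y then (1 : ℂ) else 0) * χ k = ∑ y ∈ Y, χ y := by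
      intro χ
      simp_rw [ite_mul, one_mul, zero_mul]
      rw [sum_ite_mem, univ_inter]
    simp_rw [h2] at h1
    rw [h1]
    congr 1
    have h3 : ∀ k : K, ‖(if k ∈ Y then (1 : ℂ) else 0)‖ ^ 2 = if k ∈ Y then (1 : ℝ) else 0 := by
      intro k; by_cases h : k ∈ Y <;> simp [h]
    simp_rw [h3]
    rw [sum_ite_mem, univ_inter, sum_const]; simp
  have htriv : ‖∑ y ∈ Y, (1 : AddChar K ℂ) y‖ ^ 2 = (Y.card : ℝ) ^ 2 := by
    simp
  have hrest : ∑ χ ∈ (univ : Finset (AddChar K ℂ)).erase 1, ‖∑ y ∈ Y, χ y‖ ^ 2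
      = N * Y.card - (Y.card : ℝ) ^ 2 := by
    have := sum_erase_add (univ : Finset (AddChar K ℂ)) (fun χ => ‖∑ y ∈ Y, χ y‖ ^ 2) (mem_univ 1)
    rw [htot, htriv] at this
    linarith
  have hrest2 : 19/20 * (N * Y.card) ≤ ∑ χ ∈ (univ : Finset (AddChar K ℂ)).erase 1, ‖∑ y ∈ Y, χ y‖ ^ 2 := by
    rw [hrest, sq]
    have : 20 * (Y.card : ℝ) * Y.card ≤ N * Y.card := mul_le_mul_of_nonneg_right h20' hypos.le
    linarith
  -- weighted sum
  have hW : ∑ χ : AddChar K ℂ, ‖∑ y ∈ Y, χ y‖ ^ 2 *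
      (∑ x ∈ R, ∑ j ∈ range I, ‖1 - χ x ^ (j + 1)‖ ^ 2) ≤ R.card * (I * (N * (2 * (2 * c * Y.card)))) := by
    have e1 : ∀ χ : AddChar K ℂ, ‖∑ y ∈ Y, χ y‖ ^ 2 *
      (∑ x ∈ R, ∑ j ∈ range I, ‖1 - χ x ^ (j + 1)‖ ^ 2)
      = ∑ x ∈ R, ∑ j ∈ range I, ‖∑ y ∈ Y, χ y‖ ^ 2 * ‖1 - χ ((j + 1) • x)‖ ^ 2 := by
      intro χ
      rw [mul_sum]
      refine sum_congr rfl fun x _ => ?_
      rw [mul_sum]
      refine sum_congr rfl fun j _ => ?_
      rw [AddChar.map_nsmul_eq_pow]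
    simp_rw [e1]
    rw [sum_comm]
    rw [← nsmul_eq_mul, ← sum_const]
    refine sum_le_sum fun x hx => ?_
    rw [sum_comm]
    have hcI : ((range I).card : ℝ) = I := by rw [card_range]
    rw [← hcI, ← nsmul_eq_mul, ← sum_const]
    refine sum_le_sum fun j hj => ?_
    rw [four_lam]
    rw [mem_range] at hj
    have := hlam x hx (j + 1) (by omega)
    apply mul_le_mul_of_nonneg_left _ hNpos.le
    linarith
  -- find a good character
  have hex : ∃ χ ∈ (univ : Finset (AddChar K ℂ)).erase 1,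
      ∑ x ∈ R, ∑ j ∈ range I, ‖1 - χ x ^ (j + 1)‖ ^ 2 ≤ 5 * c * R.card * I := by
    by_contra hcon
    push Not at hcon
    have h1 : ∀ χ ∈ (univ : Finset (AddChar K ℂ)).erase 1,
        ‖∑ y ∈ Y, χ y‖ ^ 2 * (5 * c * R.card * I) ≤ ‖∑ y ∈ Y, χ y‖ ^ 2 *
      (∑ x ∈ R, ∑ j ∈ range I, ‖1 - χ x ^ (j + 1)‖ ^ 2) := by
      intro χ hχ
      exact mul_le_mul_of_nonneg_left (hcon χ hχ).le (sq_nonneg _)
    have h2 := sum_le_sum h1
    rw [← sum_mul] at h2
    have h3 : ∑ χ ∈ (univ : Finset (AddChar K ℂ)).erase 1, ‖∑ y ∈ Y, χ y‖ ^ 2 *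
      (∑ x ∈ R, ∑ j ∈ range I, ‖1 - χ x ^ (j + 1)‖ ^ 2) ≤ ∑ χ : AddChar K ℂ, ‖∑ y ∈ Y, χ y‖ ^ 2 *
      (∑ x ∈ R, ∑ j ∈ range I, ‖1 - χ x ^ (j + 1)‖ ^ 2) := by
      apply sum_le_sum_of_subset_of_nonneg (subset_univ _)
      intro χ _ _
      exact mul_nonneg (sq_nonneg _) (sum_nonneg fun x _ => sum_nonneg fun j _ => sq_nonneg _)
    have h4 : 19/20 * (N * Y.card) * (5 * c * R.card * I) ≤ R.card * (I * (N * (2 * (2 * c * Y.card)))) := by
      calc 19/20 * (N * Y.card) * (5 * c * R.card * I) ≤ _ :=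
            mul_le_mul_of_nonneg_right hrest2 (by positivity)
        _ ≤ _ := h2
        _ ≤ _ := h3
        _ ≤ _ := hW
    -- if R is empty, contradiction from strictness at any character; otherwise numeric contradiction
    rcases R.eq_empty_or_nonempty with hR | hR
    · subst hR
      have hne : ((univ : Finset (AddChar K ℂ)).erase 1).Nonempty := by
        by_contra he
        rw [not_nonempty_iff_eq_empty] at he
        rw [he, sum_empty] at hrest2
        have : 0 < N * Y.card := by positivity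
        linarith
      obtain ⟨χ, hχ⟩ := hne
      have := hcon χ hχ
      simp at this
    · have hRpos : (0 : ℝ) < R.card := by exact_mod_cast card_pos.2 hR
      have h5 : 0 < N * Y.card * c * R.card * I := by positivity
      nlinarith
  obtain ⟨χ, hχ, hsum⟩ := hex
  refine ⟨χ, (mem_erase.1 hχ).1, ?_⟩
  have h6 : ((R.filter (fun x => 4 ≤ (I : ℝ) * ‖1 - χ x‖)).card : ℝ) * I
      ≤ ∑ x ∈ R, ∑ j ∈ range I, ‖1 - χ x ^ (j + 1)‖ ^ 2 := by
    calc ((R.filter (fun x => 4 ≤ (I : ℝ) * ‖1 - χ x‖)).card : ℝ) * I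
        = ∑ x ∈ R.filter (fun x => 4 ≤ (I : ℝ) * ‖1 - χ x‖), (I : ℝ) := by
          rw [sum_const, nsmul_eq_mul]
      _ ≤ ∑ x ∈ R.filter (fun x => 4 ≤ (I : ℝ) * ‖1 - χ x‖), ∑ j ∈ range I, ‖1 - χ x ^ (j + 1)‖ ^ 2 := by
          refine sum_le_sum fun x hx => ?_
          exact bad_sum (AddChar.norm_apply χ x) (mem_filter.1 hx).2
      _ ≤ _ := sum_le_sum_of_subset_of_nonneg (filter_subset _ _)
          fun x _ _ => sum_nonneg fun j _ => sq_nonneg _
  have h7 := h6.trans hsum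
  exact le_of_mul_le_mul_right h7 hIpos

/-- The angle of a character value as an integer. -/
lemma lift_int (χ : AddChar K ℂ) (x : K) : ∃ s : ℤ,
    χ x = Complex.exp (2 * Real.pi * Complex.I * (s / (Fintype.card K : ℂ))) ∧
    4 * |(s : ℝ)| ≤ (Fintype.card K : ℝ) * ‖1 - χ x‖ := by
  have hN0 : Fintype.card K ≠ 0 := Fintype.card_ne_zero
  set N := Fintype.card K with hN
  have hNpos : (0 : ℝ) < N := by exact_mod_cast Nat.pos_of_ne_zero hN0
  have hNC : (N : ℂ) ≠ 0 := by exact_mod_cast hN0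
  have h1 : χ x ^ N = 1 := by
    rw [← AddChar.map_nsmul_eq_pow, hN, card_nsmul_eq_zero, AddChar.map_zero_eq_one]
  obtain ⟨k, hk, hk2⟩ := (Complex.isPrimitiveRoot_exp N hN0).eq_pow_of_pow_eq_one h1
  -- choose the representative
  have hchoice : ∃ s : ℤ, χ x = Complex.exp (2 * Real.pi * Complex.I * (s / (N : ℂ))) ∧
      2 * |(s : ℝ)| ≤ N := by
    by_cases h : 2 * k ≤ N
    · refine ⟨k, ?_, ?_⟩
      · rw [← hk2, ← Complex.exp_nat_mul]
        congr 1
        push_cast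
        field_simp
      · have : (2 * k : ℝ) ≤ N := by exact_mod_cast h
        push_cast
        rw [abs_of_nonneg (Nat.cast_nonneg k)]
        exact this
    · push Not at h
      refine ⟨(k : ℤ) - N, ?_, ?_⟩
      · rw [← hk2, ← Complex.exp_nat_mul]
        have e1 : 2 * Real.pi * Complex.I * ((((k : ℤ) - N : ℤ) : ℂ) / (N : ℂ))
          = k * (2 * Real.pi * Complex.I / N) - 2 * Real.pi * Complex.I := by
          push_cast
          field_simp
        rw [e1, Complex.exp_sub, Complex.exp_two_pi_mul_I, div_one]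
      · have h2 : (N : ℝ) < 2 * k := by exact_mod_cast h
        have h3 : (k : ℝ) < N := by exact_mod_cast hk
        push_cast
        rw [abs_of_nonpos (by linarith)]
        linarith
  obtain ⟨s, hs1, hs2⟩ := hchoice
  refine ⟨s, hs1, ?_⟩
  have h2 : ‖1 - χ x‖ = ‖2 * Real.sin (Real.pi * (s / N))‖ := by
    rw [norm_sub_rev, hs1]
    have e1 : (2 * Real.pi * Complex.I * (s / (N : ℂ))) = Complex.I * ((2 * Real.pi * (s / N) : ℝ) : ℂ) := by
      push_cast; ring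
    rw [e1, Complex.norm_exp_I_mul_ofReal_sub_one]
    congr 3
    ring
  rw [h2, norm_mul, Real.norm_eq_abs, Real.norm_eq_abs, abs_of_pos (by norm_num : (0 : ℝ) < 2)]
  -- |sin (π s / N)| ≥ 2 |s| / N
  have h3 : 2 / Real.pi * |Real.pi * (s / N)| ≤ |Real.sin (Real.pi * (s / N))| := by
    rw [← abs_of_nonneg (abs_nonneg (Real.sin (Real.pi * (s / N))))]
    have h4 : |Real.pi * (s / N)| ≤ Real.pi / 2 := by
      rw [abs_mul, abs_div, abs_of_pos Real.pi_pos, abs_of_pos hNpos]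
      have : |(s : ℝ)| / N ≤ 1/2 := by
        rw [div_le_iff₀ hNpos]; linarith
      calc Real.pi * (|(s : ℝ)| / N) ≤ Real.pi * (1/2) :=
            mul_le_mul_of_nonneg_left this Real.pi_pos.le
        _ = Real.pi / 2 := by ring
    have h5 := Real.mul_le_sin (abs_nonneg (Real.pi * (s / N))) h4
    rw [abs_abs]
    have h6 : Real.sin |Real.pi * (s / N)| ≤ |Real.sin (Real.pi * (s / N))| := by
      rcases abs_choice (Real.pi * ((s : ℝ) / N)) with h | h
      · rw [h]; exact le_abs_self _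
      · rw [h, Real.sin_neg]; exact neg_le_abs _
    exact h5.trans h6
  have h7 : 2 / Real.pi * |Real.pi * ((s : ℝ) / N)| = 2 * |(s : ℝ)| / N := by
    rw [abs_mul, abs_div, abs_of_pos Real.pi_pos, abs_of_pos hNpos]
    field_simp
  rw [h7, div_le_iff₀ hNpos] at h3
  linarith

/-- The character as a homomorphism to `ZMod N`. -/
theorem char_to_zmod (χ : AddChar K ℂ) (hχ : χ ≠ 1) : ∃ φ : K →+ ZMod (Fintype.card K), φ ≠ 0 ∧
    ∀ x, 4 * ((φ x).valMinAbs.natAbs : ℝ) ≤ (Fintype.card K : ℝ) * ‖1 - χ x‖ := by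
  classical
  have hN0 : Fintype.card K ≠ 0 := Fintype.card_ne_zero
  have : NeZero (Fintype.card K) := ⟨hN0⟩
  set N := Fintype.card K with hN
  have hNC : (N : ℂ) ≠ 0 := by exact_mod_cast hN0
  choose s hs1 hs2 using lift_int χ
  have hinj : ∀ a b : ℤ, Complex.exp (2 * Real.pi * Complex.I * (a / (N : ℂ)))
      = Complex.exp (2 * Real.pi * Complex.I * (b / (N : ℂ))) → ((a : ZMod N)) = (b : ZMod N) := by
    intro a b h
    rw [Complex.exp_eq_exp_iff_exists_int] at h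
    obtain ⟨n, hn⟩ := h
    have h2pi : (2 * Real.pi * Complex.I : ℂ) ≠ 0 := by
      simp [Real.pi_ne_zero]
    have h3 : (a : ℂ) / N = b / N + n := by
      have : (2 * Real.pi * Complex.I : ℂ) * (a / N) = (2 * Real.pi * Complex.I) * (b / N + n) := by
        rw [hn]; ring
      exact mul_left_cancel₀ h2pi this
    have h4 : (a : ℂ) = b + n * N := by
      field_simp at h3
      linear_combination h3
    have h5 : a = b + n * N := by exact_mod_cast h4
    rw [h5]; simp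
  have hadd : ∀ x y, ((s (x + y) : ℤ) : ZMod N) = (s x : ZMod N) + (s y : ZMod N) := by
    intro x y
    rw [← Int.cast_add]
    apply hinj
    rw [← hs1, AddChar.map_add_eq_mul, hs1 x, hs1 y, ← Complex.exp_add]
    congr 1
    push_cast
    ring
  set φ : K →+ ZMod N := AddMonoidHom.mk' (fun x => (s x : ZMod N)) hadd with hφ
  refine ⟨φ, ?_, ?_⟩
  · intro h0
    apply hχ
    ext x
    have h1 : ((s x : ℤ) : ZMod N) = 0 := by
      have : φ x = 0 := by rw [h0]; rfl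
      exact this
    rw [ZMod.intCast_zmod_eq_zero_iff_dvd] at h1
    obtain ⟨k, hk⟩ := h1
    rw [hs1 x, hk]
    have e1 : 2 * Real.pi * Complex.I * (((N * k : ℤ) : ℂ) / (N : ℂ)) = k * (2 * Real.pi * Complex.I) := by
      push_cast
      field_simp
    rw [e1, Complex.exp_int_mul_two_pi_mul_I]
    rfl
  · intro x
    refine le_trans ?_ (hs2 x)
    have h1 : (φ x).valMinAbs.natAbs ≤ (s x).natAbs := by
      have e : φ x = ((s x : ℤ) : ZMod N) := rfl
      rw [e]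
      exact ZMod.natAbs_min_of_le_div_two N _ _ (by simp) (ZMod.natAbs_valMinAbs_le _)
    have h2 : ((φ x).valMinAbs.natAbs : ℝ) ≤ ((s x).natAbs : ℝ) := by exact_mod_cast h1
    have h3 : ((s x).natAbs : ℝ) = |(s x : ℝ)| := by
      rw [Nat.cast_natAbs]; simp
    linarith

/-- Combined: a nonzero homomorphism to `ZMod N` small on most of `R`. -/
theorem fourier_hom {Y R : Finset K} (hY : Y.Nonempty) (h20 : 20 * Y.card ≤ Fintype.card K)
    {I : ℕ} (hI : 1 ≤ I) {c : ℝ} (hc : 0 < c)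
    (hlam : ∀ x ∈ R, ∀ j ≤ I, (lam Y (j • x) : ℝ) ≤ 2 * c * Y.card) :
    ∃ φ : K →+ ZMod (Fintype.card K), φ ≠ 0 ∧
      ((R.filter (fun x => Fintype.card K ≤ I * (φ x).valMinAbs.natAbs)).card : ℝ)
        ≤ 5 * c * R.card := by
  obtain ⟨χ, hχ, h⟩ := fourier_char hY h20 hI hc hlam
  obtain ⟨φ, hφ, h2⟩ := char_to_zmod χ hχ
  refine ⟨φ, hφ, le_trans ?_ h⟩
  have hsub : R.filter (fun x => Fintype.card K ≤ I * (φ x).valMinAbs.natAbs) ⊆
      R.filter (fun x => 4 ≤ (I : ℝ) * ‖1 - χ x‖) := by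
    intro x hx
    rw [mem_filter] at *
    refine ⟨hx.1, ?_⟩
    have h3 : (Fintype.card K : ℝ) ≤ I * (φ x).valMinAbs.natAbs := by exact_mod_cast hx.2
    have h4 := h2 x
    have hN : (0 : ℝ) < Fintype.card K := by exact_mod_cast Fintype.card_pos
    have hI' : (0 : ℝ) ≤ I := Nat.cast_nonneg _
    have h5 : 4 * (Fintype.card K : ℝ) ≤ (I * ‖1 - χ x‖) * Fintype.card K := by
      calc 4 * (Fintype.card K : ℝ) ≤ 4 * (I * (φ x).valMinAbs.natAbs) := by linarith
        _ = I * (4 * ((φ x).valMinAbs.natAbs : ℝ)) := by ring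
        _ ≤ I * ((Fintype.card K : ℝ) * ‖1 - χ x‖) := mul_le_mul_of_nonneg_left h4 hI'
        _ = _ := by ring
    exact le_of_mul_le_mul_right h5 hN
  exact_mod_cast card_le_card hsub

end

end Pool.Agent.Lib.MP_ee6709_co
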