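import Pool.Agent.Lib.MP_ee6709_co.Crude

/-!
# Increment lemma and greedy step (MP_ee6709_co)
-/

set_option linter.style.longLine false
set_option linter.unusedSectionVars false

namespace Pool.Agent.Lib.MP_ee6709_co

open Finset
open scoped Pointwise

universe u

section
variable {K : Type u} [AddCommGroup K] [DecidableEq K]

lemma lam_it {B X : Finset K} {t : ℕ} (ht : ∀ x ∈ X, lam B x ≤ t) (i : ℕ) :
    ∀ z ∈ it X i, lam B z ≤ i * t := by
  induction i with
  | zero =>
    intro z hz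
    rw [it_zero, mem_singleton] at hz
    subst hz
    rw [lam_zero]; exact Nat.zero_le _
  | succ i ih =>
    intro z hz
    rw [it_succ, mem_add] at hz
    obtain ⟨a, ha, x, hx, rfl⟩ := hz
    have h1 := lam_add_le B a x
    have h2 := ih a ha
    have h3 := ht x hx
    have : (i + 1) * t = i * t + t := by ring
    omega

/-- The increment lemma in combinatorial form. -/
lemma incr_aux {B X : Finset K} {t : ℕ} (h0 : (0 : K) ∈ X) (ht : ∀ x ∈ X, lam B x ≤ t)
    {J : ℕ} (hJ1 : 1 ≤ J) (hJ : 2 * B.card ≤ (it X J).card)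
    (hlt : ∀ i < J, (it X i).card < 2 * B.card) :
    (B.card : ℝ) ^ 2 ≤ t * ∑ i ∈ range J, (2 * (B.card : ℝ) - (it X i).card) := by
  obtain ⟨C, hC1, hC2, hCc⟩ := exists_subsuperset_card_eq
    (it_mono h0 (Nat.sub_le J 1)) (hlt (J - 1) (by omega)).le hJ
  have hsub : ∀ i < J, it X i ⊆ C := fun i hi => (it_mono h0 (by omega)).trans hC1
  have hlam : ∀ c ∈ C, lam B c ≤ t * ((range J).filter (fun i => c ∉ it X i)).card := by
    intro c hc
    set k := ((range J).filter (fun i => c ∉ it X i)).card with hk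
    have hkJ : k ≤ J := by
      rw [hk]
      calc _ ≤ (range J).card := card_filter_le _ _
        _ = J := card_range J
    have hmem : c ∈ it X k := by
      by_contra hcon
      have hkJ' : k ≠ J := fun h => hcon (by rw [h]; exact hC2 hc)
      have hsub2 : range (k + 1) ⊆ (range J).filter (fun i => c ∉ it X i) := by
        intro i hi
        rw [mem_range] at hi
        rw [mem_filter, mem_range]
        exact ⟨by omega, fun h => hcon (it_mono h0 (by omega) h)⟩
      have := card_le_card hsub2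
      rw [card_range] at this
      omega
    have := lam_it ht k c hmem
    rw [mul_comm]; exact this
  have h1 := sum_lam_ge B C
  have h2 : ∑ c ∈ C, lam B c ≤ t * ∑ i ∈ range J, (C.filter (fun c => c ∉ it X i)).card := by
    calc ∑ c ∈ C, lam B c ≤ ∑ c ∈ C, t * ((range J).filter (fun i => c ∉ it X i)).card :=
          sum_le_sum hlam
      _ = t * ∑ c ∈ C, ((range J).filter (fun i => c ∉ it X i)).card := by rw [mul_sum]
      _ = t * ∑ i ∈ range J, (C.filter (fun c => c ∉ it X i)).card := by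
        congr 1
        simp_rw [card_filter]
        rw [sum_comm]
  have h3 : ∀ i ∈ range J, ((C.filter (fun c => c ∉ it X i)).card : ℝ)
      = 2 * (B.card : ℝ) - (it X i).card := by
    intro i hi
    rw [mem_range] at hi
    have e : C.filter (fun c => c ∉ it X i) = C \ it X i := by
      ext z; rw [mem_filter, mem_sdiff]
    rw [e]
    have := card_sdiff_add_card_eq_card (hsub i hi)
    have h' : ((C \ it X i).card : ℝ) + (it X i).card = C.card := by exact_mod_cast this
    rw [hCc] at h'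
    push_cast at h'
    linarith
  have h4 : (B.card : ℝ) * C.card ≤ t * ∑ i ∈ range J, (2 * (B.card : ℝ) - (it X i).card)
      + B.card * B.card := by
    have h5 : ((B.card * C.card : ℕ) : ℝ) ≤ ((∑ c ∈ C, lam B c + B.card * B.card : ℕ) : ℝ) := by
      exact_mod_cast h1
    have h6 : ((∑ c ∈ C, lam B c : ℕ) : ℝ) ≤
        ((t * ∑ i ∈ range J, (C.filter (fun c => c ∉ it X i)).card : ℕ) : ℝ) := by
      exact_mod_cast h2
    push_cast at h5 h6
    rw [sum_congr rfl h3] at h6
    linarith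
  rw [hCc] at h4
  push_cast at h4
  nlinarith

variable [Fintype K]

/-- Increment lemma. -/
lemma incr {R B : Finset K} (hG : Gn R) {κ : ℝ} (hgrow : Grows (univ : Finset K) (sym R) κ)
    (hb1 : 1 ≤ B.card) (hb : 2 * B.card ≤ Fintype.card K) {t : ℕ}
    (ht : ∀ x ∈ R, lam B x ≤ t) :
    ∃ J : ℕ, 1 ≤ J ∧ (it (sym R) (J - 1)).card < 2 * B.card ∧
      (B.card : ℝ) ^ 2 ≤ t * (2 * B.card * J - κ * (J * (J - 1)) / 2) := by
  classical
  have hgen := hG.gen
  have h0 := zero_mem_sym R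
  have ht' : ∀ x ∈ sym R, lam B x ≤ t := by
    intro x hx
    rw [mem_sym] at hx
    rcases hx with h | h | h
    · exact ht x h
    · rw [← lam_neg]; exact ht _ h
    · subst h; rw [lam_zero]; exact Nat.zero_le _
  have hex : ∃ J, 2 * B.card ≤ (it (sym R) J).card := by
    refine ⟨Fintype.card K, ?_⟩
    have hz : IsSubgp ({0} : Finset K) := ⟨by simp, by
      intro a ha b hb
      rw [mem_singleton] at *
      subst ha; subst hb; simp⟩
    have := hgen.coset_growth h0 hz (subset_univ _) (Fintype.card K)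
    rw [singleton_zero, zero_add] at this
    rcases this with h | h
    · rw [h, card_univ]; exact hb
    · have h' : (0 : Finset K).card = 1 := by rw [← singleton_zero, card_singleton]
      rw [h'] at h
      omega
  set J := Nat.find hex with hJ
  have hJspec := Nat.find_spec hex
  have hJmin : ∀ i < J, (it (sym R) i).card < 2 * B.card := by
    intro i hi
    have := Nat.find_min hex hi
    omega
  have hJ1 : 1 ≤ J := by
    by_contra hcon
    have : J = 0 := by omega
    rw [← hJ, this, it_zero, card_singleton] at hJspec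
    omega
  refine ⟨J, hJ1, hJmin _ (by omega), ?_⟩
  have key := incr_aux h0 ht' hJ1 hJspec hJmin
  have hn : ∀ i ∈ range J, 2 * (B.card : ℝ) - (it (sym R) i).card ≤ 2 * B.card - i * κ := by
    intro i hi
    rw [mem_range] at hi
    have h1 := hJmin i hi
    rcases hgrow.iter isSubgp_univ (subset_univ _) h0 i with h | h
    · rw [h, card_univ] at h1; omega
    · linarith
  have hsum : ∑ i ∈ range J, (2 * (B.card : ℝ) - i * κ) = 2 * B.card * J - κ * (J * (J - 1)) / 2 := by
    rw [sum_sub_distrib, sum_const, card_range, nsmul_eq_mul, ← sum_mul]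
    have hg : (∑ i ∈ range J, (i : ℝ)) = J * (J - 1) / 2 := by
      have := Finset.sum_range_id_mul_two J
      have h2 : ((∑ i ∈ range J, i : ℕ) : ℝ) * 2 = ((J * (J - 1) : ℕ) : ℝ) := by exact_mod_cast this
      push_cast [Nat.cast_sub hJ1] at h2
      linarith
    rw [hg]; ring
  calc (B.card : ℝ) ^ 2 ≤ t * ∑ i ∈ range J, (2 * (B.card : ℝ) - (it (sym R) i).card) := key
    _ ≤ t * ∑ i ∈ range J, (2 * (B.card : ℝ) - i * κ) :=
      mul_le_mul_of_nonneg_left (sum_le_sum hn) (Nat.cast_nonneg _)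
    _ = _ := by rw [hsum]

lemma incr_sq {R B : Finset K} (hG : Gn R) {κ : ℝ} (hκ : 0 ≤ κ)
    (hgrow : Grows (univ : Finset K) (sym R) κ)
    (hb1 : 1 ≤ B.card) (hb : 2 * B.card ≤ Fintype.card K) {t : ℕ}
    (ht : ∀ x ∈ R, lam B x ≤ t) :
    2 * κ * (B.card : ℝ) ^ 2 ≤ t * (2 * B.card + κ / 2) ^ 2 := by
  obtain ⟨J, _, _, hJ⟩ := incr hG hgrow hb1 hb ht
  have h1 : 2 * κ * (B.card : ℝ) ^ 2 ≤ 2 * κ * (t * (2 * B.card * J - κ * (J * (J - 1)) / 2)) :=
    mul_le_mul_of_nonneg_left hJ (by linarith)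
  have h2 : 2 * κ * (t * (2 * B.card * J - κ * (J * (J - 1)) / 2))
      = t * ((2 * B.card + κ / 2) ^ 2 - (κ * J - 2 * B.card - κ / 2) ^ 2) := by ring
  rw [h2] at h1
  have ht0 : (0 : ℝ) ≤ t := Nat.cast_nonneg _
  nlinarith [mul_nonneg ht0 (sq_nonneg (κ * J - 2 * B.card - κ / 2))]

end

/-- Greedy step. -/
theorem greedy_step (ζ : ℝ) (hζ : 0 < ζ) (hζ1 : ζ ≤ 1/4) : ∃ M : ℕ, ∀ (K : Type u) [AddCommGroup K]
    [DecidableEq K] [Fintype K] (R B : Finset K), ZSF R → M ≤ R.card → Gn R →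
    ((ord2 R).card : ℝ) ≤ ζ * R.card → 2 * B.card ≤ Fintype.card K →
    (R.card : ℝ) ≤ ζ * B.card →
    ∃ x ∈ R, (1 - 4 * ζ) * R.card ≤ (lam B x : ℝ) := by
  obtain ⟨M, hM⟩ := kappa.{u} ζ hζ
  refine ⟨M + 1, fun K _ _ _ R B hR hMR hG he hb hRB => ?_⟩
  have hgrow := hM K R hR (by omega) hG he
  have hRpos : 0 < R.card := by omega
  have hRpos' : (0 : ℝ) < R.card := by exact_mod_cast hRpos
  have hb1 : 1 ≤ B.card := by
    by_contra hcon
    have : B.card = 0 := by omega
    rw [this] at hRB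
    simp at hRB
    rw [hRB] at hRpos
    simp at hRpos
  have hne : R.Nonempty := card_pos.1 hRpos
  obtain ⟨x, hx, hmax⟩ := exists_max_image R (fun x => lam B x) hne
  refine ⟨x, hx, ?_⟩
  have key := incr_sq hG (κ := (2 - 3 * ζ) * R.card) (by nlinarith) hgrow hb1 hb (t := lam B x) hmax
  set b : ℝ := (B.card : ℝ) with hbdef
  set r : ℝ := (R.card : ℝ) with hrdef
  set t : ℝ := (lam B x : ℝ) with htdef
  have hbpos : 0 < b := by rw [hbdef]; exact_mod_cast hb1
  have ht0 : 0 ≤ t := Nat.cast_nonneg _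
  have h1 : 2 * b + (2 - 3 * ζ) * r / 2 ≤ (2 + ζ) * b := by nlinarith
  have h2 : (2 * b + (2 - 3 * ζ) * r / 2) ^ 2 ≤ ((2 + ζ) * b) ^ 2 := by
    apply pow_le_pow_left₀ _ h1
    nlinarith
  have h3 : 2 * ((2 - 3 * ζ) * r) * b ^ 2 ≤ (t * (2 + ζ) ^ 2) * b ^ 2 := by
    calc 2 * ((2 - 3 * ζ) * r) * b ^ 2 ≤ t * (2 * b + (2 - 3 * ζ) * r / 2) ^ 2 := key
      _ ≤ t * ((2 + ζ) * b) ^ 2 := mul_le_mul_of_nonneg_left h2 ht0
      _ = _ := by ring
  have h4 : 2 * ((2 - 3 * ζ) * r) ≤ t * (2 + ζ) ^ 2 :=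
    le_of_mul_le_mul_right h3 (by positivity)
  have h5 : (1 - 4 * ζ) * (2 + ζ) ^ 2 ≤ 2 * (2 - 3 * ζ) := by nlinarith [sq_nonneg ζ, mul_pos hζ hζ, mul_pos (mul_pos hζ hζ) hζ]
  have h6 : ((1 - 4 * ζ) * r) * (2 + ζ) ^ 2 ≤ t * (2 + ζ) ^ 2 := by nlinarith
  exact le_of_mul_le_mul_right h6 (by positivity)

end Pool.Agent.Lib.MP_ee6709_co
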