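import Pool.Agent.Lib.MP_ee6709_co.Crude

/-!
# Lifting to `K × ℤ` and the resulting fibration `ψ : K → ZMod ν` (MP_ee6709_co)
-/

set_option linter.style.longLine false
set_option linter.unusedSectionVars false

namespace Pool.Agent.Lib.MP_ee6709_co

open Finset
open scoped Pointwise

universe u

section
variable {K : Type u} [AddCommGroup K] [DecidableEq K] [Fintype K]

/-- The lifted set. -/
def lft (s : K → ℤ) (X : Finset K) : Finset (K × ℤ) := X.image (fun x => (x, s x))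

lemma mem_lft {s : K → ℤ} {X : Finset K} {z : K × ℤ} : z ∈ lft s X ↔ z.1 ∈ X ∧ s z.1 = z.2 := by
  rw [lft, mem_image]
  constructor
  · rintro ⟨x, hx, rfl⟩; exact ⟨hx, rfl⟩
  · rintro ⟨h1, h2⟩
    exact ⟨z.1, h1, Prod.ext rfl h2⟩

lemma zero_mem_lft {s : K → ℤ} {X : Finset K} (h0 : (0 : K) ∈ X) (hs0 : s 0 = 0) :
    (0 : K × ℤ) ∈ lft s X := mem_lft.2 ⟨h0, hs0⟩

lemma neg_mem_lft {s : K → ℤ} {X : Finset K} (hs : ∀ x ∈ X, -x ∈ X)
    (hsn : ∀ x ∈ X, s (-x) = -s x) : ∀ z ∈ lft s X, -z ∈ lft s X := by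
  intro z hz
  rw [mem_lft] at *
  refine ⟨hs _ hz.1, ?_⟩
  rw [Prod.fst_neg, Prod.snd_neg, hsn _ hz.1, hz.2]

lemma mem_it_lft {s : K → ℤ} {X : Finset K} {N : ℕ} (φ : K →+ ZMod N)
    (hφ : ∀ x ∈ X, (s x : ZMod N) = φ x) {S : ℕ} (hS : ∀ x ∈ X, |s x| ≤ S) (j : ℕ) :
    ∀ z ∈ it (lft s X) j, z.1 ∈ it X j ∧ (z.2 : ZMod N) = φ z.1 ∧ |z.2| ≤ j * S := by
  induction j with
  | zero =>
    intro z hz
    rw [it_zero, mem_singleton] at hz
    subst hz
    simp
  | succ j ih =>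
    intro z hz
    rw [it_succ, mem_add] at hz
    obtain ⟨a, ha, b, hb, rfl⟩ := hz
    obtain ⟨h1, h2, h3⟩ := ih a ha
    rw [mem_lft] at hb
    refine ⟨?_, ?_, ?_⟩
    · rw [it_succ]; exact add_mem_add h1 hb.1
    · rw [Prod.snd_add, Prod.fst_add, map_add, ← h2, ← hφ _ hb.1, hb.2]
      push_cast; rfl
    · rw [Prod.snd_add]
      have h4 := hS _ hb.1
      rw [hb.2] at h4
      have h5 := abs_add_le a.2 b.2
      push_cast
      linarith

lemma exists_it_lft {s : K → ℤ} {X : Finset K} (j : ℕ) :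
    ∀ z ∈ it X j, ∃ n : ℤ, (z, n) ∈ it (lft s X) j := by
  induction j with
  | zero =>
    intro z hz
    rw [it_zero, mem_singleton] at hz
    subst hz
    exact ⟨0, by rw [it_zero]; simp⟩
  | succ j ih =>
    intro z hz
    rw [it_succ, mem_add] at hz
    obtain ⟨a, ha, b, hb, rfl⟩ := hz
    obtain ⟨n, hn⟩ := ih a ha
    refine ⟨n + s b, ?_⟩
    rw [it_succ, mem_add]
    exact ⟨(a, n), hn, (b, s b), mem_lft.2 ⟨hb, rfl⟩, rfl⟩

lemma card_it_lft {s : K → ℤ} {X : Finset K} {N : ℕ} (φ : K →+ ZMod N)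
    (hφ : ∀ x ∈ X, (s x : ZMod N) = φ x) {S : ℕ} (hS : ∀ x ∈ X, |s x| ≤ S) {j : ℕ}
    (hj : 2 * (j * S) < N) : (it (lft s X) j).card = (it X j).card := by
  symm
  have himg : (it (lft s X) j).image Prod.fst = it X j := by
    ext z
    rw [mem_image]
    constructor
    · rintro ⟨w, hw, rfl⟩
      exact (mem_it_lft φ hφ hS j w hw).1
    · intro hz
      obtain ⟨n, hn⟩ := exists_it_lft (s := s) j z hz
      exact ⟨(z, n), hn, rfl⟩
  rw [← himg]
  apply card_image_of_injOn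
  intro a ha b hb hab
  have h1 := mem_it_lft φ hφ hS j a ha
  have h2 := mem_it_lft φ hφ hS j b hb
  refine Prod.ext hab ?_
  have h3 : ((a.2 - b.2 : ℤ) : ZMod N) = 0 := by
    push_cast
    have hab' : a.1 = b.1 := hab
    rw [h1.2.1, h2.2.1, hab', sub_self]
  rw [ZMod.intCast_zmod_eq_zero_iff_dvd] at h3
  have h4 : |a.2 - b.2| < N := by
    have h5 := abs_sub a.2 b.2
    have h6 : (2 * (j * S) : ℤ) < N := by exact_mod_cast hj
    have := h1.2.2
    have := h2.2.2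
    linarith
  have h7 := Int.eq_zero_of_abs_lt_dvd h3 h4
  linarith

variable {v : K × ℤ}

lemma zsmul_mem_it {X : Finset (K × ℤ)} (h0 : (0 : K × ℤ) ∈ X) (hs : ∀ x ∈ X, -x ∈ X)
    (hv : v ∈ X) {q : ℕ} {k : ℤ} (hk : |k| ≤ q) : k • v ∈ it X q := by
  have hnat : ∀ n : ℕ, n • v ∈ it X n := by
    intro n
    induction n with
    | zero => simp
    | succ n ih => rw [succ_nsmul, it_succ]; exact add_mem_add ih hv
  have h1 : (k.natAbs) • v ∈ it X q := by
    apply it_mono h0 _ (hnat _)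
    have : (k.natAbs : ℤ) = |k| := Int.natCast_natAbs k
    omega
  rcases Int.natAbs_eq k with h | h
  · rw [h, natCast_zsmul]; exact h1
  · rw [h, neg_zsmul, natCast_zsmul]; exact it_neg hs q _ h1

/-- The quotient by a vector of positive height is finite. -/
lemma finite_quot (hv : 0 < v.2) : Finite ((K × ℤ) ⧸ AddSubgroup.zmultiples v) := by
  obtain ⟨S, hS⟩ : ∃ S : ℕ, (S : ℤ) = v.2 := ⟨v.2.toNat, Int.toNat_of_nonneg hv.le⟩
  have : Finite (K × Fin S) := inferInstance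
  refine Finite.of_surjective (fun p : K × Fin S =>
    (QuotientAddGroup.mk' (AddSubgroup.zmultiples v)) (p.1, ((p.2 : ℕ) : ℤ))) ?_
  intro q
  obtain ⟨z, rfl⟩ := QuotientAddGroup.mk'_surjective (AddSubgroup.zmultiples v) q
  have h1 : 0 ≤ z.2 % S := Int.emod_nonneg _ (by omega)
  have h2 : z.2 % S < S := Int.emod_lt_of_pos _ (by omega)
  refine ⟨(z.1 - (z.2 / S) • v.1, ⟨(z.2 % S).toNat, by omega⟩), ?_⟩
  simp only
  rw [QuotientAddGroup.mk'_eq_mk']
  refine ⟨(z.2 / S) • v, ⟨z.2 / S, rfl⟩, ?_⟩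
  apply Prod.ext
  · simp
  · simp only [Prod.snd_add, Prod.smul_snd, smul_eq_mul]
    rw [Int.toNat_of_nonneg h1, ← hS]
    have := Int.emod_add_mul_ediv z.2 S
    linarith [mul_comm (z.2 / (S:ℤ)) (S:ℤ)]

/-- Fibres of the projection modulo `v` on a set of bounded height have at most three elements. -/
lemma card_le_three_mul {X : Finset (K × ℤ)} (hv : 0 < v.2) (hX : ∀ x ∈ X, |x.2| ≤ v.2)
    {Q : Type u} [AddCommGroup Q] [DecidableEq Q] (π : K × ℤ →+ Q)
    (hker : ∀ z, π z = 0 → ∃ k : ℤ, z = k • v) : X.card ≤ 3 * (X.image π).card := by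
  apply card_le_mul_card_image
  intro a ha
  rw [mem_image] at ha
  obtain ⟨x0, hx0, rfl⟩ := ha
  -- element of the fibre with smallest height
  obtain ⟨y, hy, hmin⟩ := exists_min_image (X.filter (fun x => π x = π x0)) (fun x => x.2)
    ⟨x0, by rw [mem_filter]; exact ⟨hx0, rfl⟩⟩
  rw [mem_filter] at hy
  have hsub : X.filter (fun x => π x = π x0) ⊆ ({y, y + v, y + (2 : ℤ) • v} : Finset (K × ℤ)) := by
    intro x hx
    have hx' := hx
    rw [mem_filter] at hx
    have hd : π (x - y) = 0 := by rw [map_sub, hx.2, hy.2, sub_self]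
    obtain ⟨k, hk⟩ := hker _ hd
    have hxk : x = y + k • v := by rw [← hk]; abel
    have hh : x.2 = y.2 + k * v.2 := by rw [hxk]; simp
    have h1 := hmin x hx'
    have h2 := hX x hx.1
    have h3 := hX y hy.1
    rw [abs_le] at h2 h3
    have hk0 : 0 ≤ k := by
      by_contra hc
      push Not at hc
      nlinarith
    have hk2 : k ≤ 2 := by
      by_contra hc
      push Not at hc
      nlinarith
    rw [mem_insert, mem_insert, mem_singleton]
    interval_cases k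
    · left; rw [hxk]; simp
    · right; left; rw [hxk]; simp
    · right; right; exact hxk
  refine (card_le_card hsub).trans ?_
  refine (card_insert_le _ _).trans ?_
  have := card_insert_le (y + v) ({y + (2 : ℤ) • v} : Finset (K × ℤ))
  rw [card_singleton] at this
  omega

lemma it_image {E Q : Type*} [AddCommGroup E] [DecidableEq E] [AddCommGroup Q] [DecidableEq Q]
    (π : E →+ Q) (X : Finset E) (i : ℕ) : it (X.image π) i = (it X i).image π := by
  induction i with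
  | zero => simp
  | succ i ih => rw [it_succ, it_succ, ih, image_add]

/-- Counting along the direction `v`. -/
lemma mul_card_le {X : Finset (K × ℤ)} (h0 : (0 : K × ℤ) ∈ X) (hs : ∀ x ∈ X, -x ∈ X)
    (hvX : v ∈ X) (hv : 0 < v.2) {Q : Type u} [AddCommGroup Q] [DecidableEq Q] (π : K × ℤ →+ Q)
    (hπv : π v = 0) (i q : ℕ) :
    (2 * q + 1) * (it (X.image π) i).card ≤ (it X (i + q)).card := by
  have hlift : ∀ p : Q, ∃ z : K × ℤ, p ∈ it (X.image π) i → z ∈ it X i ∧ π z = p := by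
    intro p
    by_cases hp : p ∈ it (X.image π) i
    · rw [it_image, mem_image] at hp
      obtain ⟨z, hz, hzp⟩ := hp
      exact ⟨z, fun _ => ⟨hz, hzp⟩⟩
    · exact ⟨0, fun h => absurd h hp⟩
  choose l hl using hlift
  have hcard : (2 * q + 1) * (it (X.image π) i).card
      = ((it (X.image π) i) ×ˢ (Icc (-(q : ℤ)) q)).card := by
    rw [card_product, Int.card_Icc, mul_comm]
    congr 1
    omega
  rw [hcard]
  refine card_le_card_of_injOn (fun p => l p.1 + p.2 • v) ?_ ?_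
  · rintro ⟨p, k⟩ hp
    rw [mem_coe, mem_product, mem_Icc] at hp
    simp only [coe_add, mem_coe] at hp ⊢
    rw [it_add]
    apply add_mem_add (hl p hp.1).1
    exact zsmul_mem_it h0 hs hvX (abs_le.2 hp.2)
  · rintro ⟨p, k⟩ hp ⟨p', k'⟩ hp' heq
    rw [mem_coe, mem_product] at hp hp'
    simp only at heq hp hp'
    have h1 : π (l p + k • v) = p := by
      rw [map_add, map_zsmul, hπv, smul_zero, add_zero, (hl p hp.1).2]
    have h2 : π (l p' + k' • v) = p' := by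
      rw [map_add, map_zsmul, hπv, smul_zero, add_zero, (hl p' hp'.1).2]
    have h3 : p = p' := by rw [← h1, ← h2, heq]
    subst h3
    have h4 : k • v = k' • v := add_left_cancel heq
    have h5 : k * v.2 = k' * v.2 := by
      have := congrArg Prod.snd h4
      simpa using this
    have h6 : k = k' := mul_right_cancel₀ hv.ne' h5
    rw [h6]

lemma map_closure_mem {E Q : Type*} [AddCommGroup E] [AddCommGroup Q] [DecidableEq Q]
    (π : E →+ Q) (X : Finset E) : ∀ z ∈ AddSubgroup.closure (X : Set E),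
    π z ∈ AddSubgroup.closure ((X.image π : Finset Q) : Set Q) := by
  intro z hz
  induction hz using AddSubgroup.closure_induction with
  | mem x hx => exact AddSubgroup.subset_closure (by rw [mem_coe]; exact mem_image_of_mem _ hx)
  | zero => rw [map_zero]; exact zero_mem _
  | add x y _ _ h1 h2 => rw [map_add]; exact add_mem h1 h2
  | neg x _ h1 => rw [map_neg]; exact neg_mem h1

open Classical in
/-- The quotient group generated by `P` is small. -/
lemma quot_bound {X : Finset (K × ℤ)} (h0 : (0 : K × ℤ) ∈ X) (hs : ∀ x ∈ X, -x ∈ X)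
    (hvX : v ∈ X) (hv : 0 < v.2) (hX : ∀ x ∈ X, |x.2| ≤ v.2)
    {Q : Type u} [AddCommGroup Q] [Fintype Q] (π : K × ℤ →+ Q)
    (hπv : π v = 0) (hker : ∀ z, π z = 0 → ∃ k : ℤ, z = k • v)
    {J2 : ℕ} (hJ5 : 5 ≤ J2) (hgr : (it X J2).card < (2 * J2 - 9) * X.card) :
    (2 * J2 - 9) * (univ.filter (fun q => q ∈ AddSubgroup.closure
      ((X.image π : Finset Q) : Set Q))).card ≤ (it X J2).card := by
  set P := X.image π with hP
  have h0P : (0 : Q) ∈ P := by rw [hP, mem_image]; exact ⟨0, h0, map_zero _⟩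
  have hsP : ∀ x ∈ P, -x ∈ P := by
    intro x hx
    rw [hP, mem_image] at *
    obtain ⟨y, hy, rfl⟩ := hx
    exact ⟨-y, hs y hy, map_neg _ _⟩
  have h3P : X.card ≤ 3 * P.card := card_le_three_mul hv hX π hker
  have h5P : (2 * J2 - 9) * (it P 5).card ≤ (it X J2).card := by
    have h1 := mul_card_le h0 hs hvX hv π hπv 5 (J2 - 5)
    have h2 : 5 + (J2 - 5) = J2 := by omega
    have h3 : 2 * (J2 - 5) + 1 = 2 * J2 - 9 := by omega
    rw [h2, h3] at h1
    exact h1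
  set GQ : Finset Q := univ.filter (fun q => q ∈ AddSubgroup.closure (P : Set Q)) with hGQ
  have hGen : Gen P GQ := by
    refine ⟨⟨?_, ?_⟩, ?_, ?_⟩
    · rw [hGQ, mem_filter]; exact ⟨mem_univ _, zero_mem _⟩
    · intro a ha b hb
      rw [hGQ, mem_filter] at *
      exact ⟨mem_univ _, sub_mem ha.2 hb.2⟩
    · intro p hp
      rw [hGQ, mem_filter]
      exact ⟨mem_univ _, AddSubgroup.subset_closure hp⟩
    · intro H hH hPH q hq
      rw [hGQ, mem_filter] at hq
      have hq2 := hq.2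
      induction hq2 using AddSubgroup.closure_induction with
      | mem x hx => exact hPH hx
      | zero => exact hH.zero
      | add x y hx hy h1 h2 => exact hH.add (h1 ⟨mem_univ _, hx⟩) (h2 ⟨mem_univ _, hy⟩)
      | neg x hx h1 => exact hH.neg (h1 ⟨mem_univ _, hx⟩)
  have h5eq : it P 5 = P + it P 4 := by
    have : (5 : ℕ) = 1 + 4 := rfl
    rw [this, it_add, it_one]
  have h5G : it P 5 = GQ := by
    have hg := hGen.grows_it h0P hsP 1 (κ := (P.card : ℝ) / 2) (by rw [it_one]; push_cast; linarith)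
    rw [it_one] at hg
    rcases hg.iter_from hGen.gp hGen.sub h0P hGen.sub ⟨0, h0P⟩ 4 with h | h
    · rw [h5eq, h]
    · exfalso
      rw [← h5eq] at h
      have h2 : 3 * (P.card : ℝ) ≤ (it P 5).card := by push_cast at h; linarith
      have h3 : 3 * P.card ≤ (it P 5).card := by exact_mod_cast h2
      have h4 : (2 * J2 - 9) * X.card ≤ (2 * J2 - 9) * (it P 5).card :=
        Nat.mul_le_mul_left _ (h3P.trans h3)
      omega
  rw [← h5G]
  exact h5P

/-- Algebra of the lattice: extraction of `g`, `ν`, `L`, `ψ`. -/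
lemma lattice (Γ : AddSubgroup (K × ℤ)) {N : ℕ}
    (hΓN : ∀ n : ℤ, ((0 : K), n) ∈ Γ → (N : ℤ) ∣ n) (hΓfst : ∀ z : K, ∃ n : ℤ, (z, n) ∈ Γ)
    {xs : K} {S : ℕ} (hSpos : 0 < S) (hvΓ : (xs, (S : ℤ)) ∈ Γ) :
    ∃ g : ℕ, 0 < g ∧ ∃ ν : ℕ, 0 < ν ∧ ∃ L : ℕ, 1 ≤ L ∧ S = g * L ∧ N ≤ g * ν ∧
      (∃ w : K, (w, (g : ℤ)) ∈ Γ) ∧ (∀ z ∈ Γ, (g : ℤ) ∣ z.2) ∧
      (∀ n : ℤ, ((0 : K), n) ∈ Γ ↔ ((g : ℤ) * ν) ∣ n) := by
  obtain ⟨g0, hg0⟩ := Int.subgroup_cyclic (Γ.map (AddMonoidHom.snd K ℤ))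
  obtain ⟨m0, hm0⟩ := Int.subgroup_cyclic (Γ.comap (AddMonoidHom.inr K ℤ))
  rw [← AddSubgroup.zmultiples_eq_closure] at hg0 hm0
  have hgdvd : ∀ z ∈ Γ, g0 ∣ z.2 := by
    intro z hz
    have h1 : z.2 ∈ Γ.map (AddMonoidHom.snd K ℤ) := ⟨z, hz, rfl⟩
    rw [hg0, Int.mem_zmultiples_iff] at h1
    exact h1
  have hgex : ∃ w : K, (w, g0) ∈ Γ := by
    have h1 : g0 ∈ Γ.map (AddMonoidHom.snd K ℤ) := by rw [hg0]; exact AddSubgroup.mem_zmultiples g0
    obtain ⟨z, hz, hz2⟩ := h1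
    refine ⟨z.1, ?_⟩
    have : z.2 = g0 := hz2
    rw [← this]; exact hz
  have hm0iff : ∀ n : ℤ, ((0 : K), n) ∈ Γ ↔ m0 ∣ n := by
    intro n
    rw [← Int.mem_zmultiples_iff, ← hm0]
    rfl
  have hm0ne : m0 ≠ 0 := by
    intro h
    have h1 : (Fintype.card K) • (xs, (S : ℤ)) ∈ Γ := Γ.nsmul_mem hvΓ _
    have h2 : (Fintype.card K) • (xs, (S : ℤ)) = ((0 : K), (Fintype.card K : ℤ) * S) := by
      refine Prod.ext ?_ ?_
      · simp
      · simp
    rw [h2, hm0iff, h, zero_dvd_iff] at h1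
    have h3 : (0 : ℤ) < Fintype.card K * S := by
      have : 0 < Fintype.card K := Fintype.card_pos
      positivity
    omega
  have hgm : g0 ∣ m0 := by
    have := (hm0iff m0).2 (dvd_refl _)
    exact hgdvd _ this
  have hNm : (N : ℤ) ∣ m0 := hΓN _ ((hm0iff m0).2 (dvd_refl _))
  have hg0ne : g0 ≠ 0 := by
    intro h
    rw [h, zero_dvd_iff] at hgm
    exact hm0ne hgm
  have hgS : g0 ∣ (S : ℤ) := hgdvd _ hvΓ
  have hgpos : 0 < g0.natAbs := Int.natAbs_pos.2 hg0ne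
  obtain ⟨L, hL⟩ : ∃ L : ℕ, S = g0.natAbs * L := by
    have : g0.natAbs ∣ S := by
      have h1 : (g0.natAbs : ℤ) ∣ (S : ℤ) := Int.natAbs_dvd.2 hgS
      exact_mod_cast h1
    exact this
  obtain ⟨ν, hν⟩ : ∃ ν : ℕ, m0.natAbs = g0.natAbs * ν := by
    have : g0.natAbs ∣ m0.natAbs := Int.natAbs_dvd_natAbs.2 hgm
    exact this
  have hνpos : 0 < ν := by
    by_contra hc
    have : ν = 0 := by omega
    rw [this, mul_zero, Int.natAbs_eq_zero] at hν
    exact hm0ne hν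
  refine ⟨g0.natAbs, hgpos, ν, hνpos, L, ?_, hL, ?_, ?_, ?_, ?_⟩
  · by_contra hc
    have : L = 0 := by omega
    rw [this, mul_zero] at hL
    omega
  · have h1 : N ∣ g0.natAbs * ν := by
      rw [← hν]
      have := Int.natAbs_dvd_natAbs.2 hNm
      simpa using this
    exact Nat.le_of_dvd (by positivity) h1
  · obtain ⟨w, hw⟩ := hgex
    rcases Int.natAbs_eq g0 with h | h
    · exact ⟨w, by rw [← h]; exact hw⟩
    · refine ⟨-w, ?_⟩
      have h1 := Γ.neg_mem hw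
      have h2 : -((w, g0) : K × ℤ) = (-w, (g0.natAbs : ℤ)) := by
        refine Prod.ext rfl ?_
        show -g0 = (g0.natAbs : ℤ)
        omega
      rwa [h2] at h1
  · exact fun z hz => Int.natAbs_dvd.2 (hgdvd z hz)
  · intro n
    rw [hm0iff, ← Int.natAbs_dvd, hν]; push_cast; rfl

/-- The homomorphism `ψ`. -/
lemma lattice_hom (Γ : AddSubgroup (K × ℤ)) (hΓfst : ∀ z : K, ∃ n : ℤ, (z, n) ∈ Γ)
    {g ν : ℕ} (hgpos : 0 < g) (hνpos : 0 < ν) {w : K} (hw : (w, (g : ℤ)) ∈ Γ)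
    (hggdvd : ∀ z ∈ Γ, (g : ℤ) ∣ z.2)
    (hm0dvd : ∀ n : ℤ, ((0 : K), n) ∈ Γ ↔ ((g : ℤ) * ν) ∣ n) :
    ∃ ψ : K →+ ZMod ν, Function.Surjective ψ ∧
      (∀ z ∈ Γ, ∀ a : ℤ, z.2 = g * a → ψ z.1 = (a : ZMod ν)) ∧
      (∀ z : K, ψ z = 0 → (z, (0 : ℤ)) ∈ Γ) := by
  choose f hf using hΓfst
  have hg' : (g : ℤ) ≠ 0 := by exact_mod_cast hgpos.ne'
  have hfdiff : ∀ z ∈ Γ, ((z.2 / g : ℤ) : ZMod ν) = ((f z.1 / g : ℤ) : ZMod ν) := by
    intro z hz
    have h1 : ((0 : K), z.2 - f z.1) ∈ Γ := by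
      have := Γ.sub_mem hz (hf z.1)
      have e : z - (z.1, f z.1) = ((0 : K), z.2 - f z.1) := Prod.ext (by simp) rfl
      rwa [e] at this
    rw [hm0dvd] at h1
    obtain ⟨c, hc⟩ := h1
    obtain ⟨a, ha⟩ := hggdvd z hz
    obtain ⟨b, hb⟩ := hggdvd _ (hf z.1)
    simp only at hb
    rw [ha, hb, Int.mul_ediv_cancel_left _ hg', Int.mul_ediv_cancel_left _ hg']
    rw [ha, hb] at hc
    have h2 : a - b = ν * c := by
      have : (g : ℤ) * (a - b) = g * (ν * c) := by linarith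
      exact mul_left_cancel₀ hg' this
    have h3 : a = b + ν * c := by linarith
    rw [h3]; simp
  have hψadd : ∀ x y : K, ((f (x + y) / g : ℤ) : ZMod ν)
      = ((f x / g : ℤ) : ZMod ν) + ((f y / g : ℤ) : ZMod ν) := by
    intro x y
    have h1 : (x + y, f x + f y) ∈ Γ := Γ.add_mem (hf x) (hf y)
    rw [← hfdiff _ h1, ← Int.cast_add]
    congr 1
    obtain ⟨a, ha⟩ := hggdvd _ (hf x)
    obtain ⟨b, hb⟩ := hggdvd _ (hf y)
    simp only at ha hb ⊢
    rw [ha, hb, ← mul_add, Int.mul_ediv_cancel_left _ hg', Int.mul_ediv_cancel_left _ hg',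
      Int.mul_ediv_cancel_left _ hg']
  set ψ : K →+ ZMod ν := AddMonoidHom.mk' (fun x => ((f x / g : ℤ) : ZMod ν)) hψadd with hψ
  have hψval : ∀ z ∈ Γ, ∀ a : ℤ, z.2 = g * a → ψ z.1 = (a : ZMod ν) := by
    intro z hz a ha
    have h1 : ψ z.1 = ((f z.1 / g : ℤ) : ZMod ν) := rfl
    rw [h1, ← hfdiff z hz, ha, Int.mul_ediv_cancel_left _ hg']
  refine ⟨ψ, ?_, hψval, ?_⟩
  · intro c
    have : NeZero ν := ⟨hνpos.ne'⟩
    have hw1 : ψ w = 1 := by
      have := hψval _ hw 1 (by simp)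
      simpa using this
    refine ⟨c.val • w, ?_⟩
    rw [map_nsmul, hw1, nsmul_eq_mul, mul_one, ZMod.natCast_zmod_val]
  · intro z hz
    obtain ⟨a, ha⟩ := hggdvd _ (hf z)
    simp only at ha
    rw [hψval _ (hf z) a ha, ZMod.intCast_zmod_eq_zero_iff_dvd] at hz
    obtain ⟨c, hc⟩ := hz
    have h1 : ((0 : K), f z) ∈ Γ := by
      rw [hm0dvd]
      exact ⟨c, by rw [ha, hc]; ring⟩
    have h2 := Γ.sub_mem (hf z) h1
    have e : (z, f z) - ((0 : K), f z) = (z, (0 : ℤ)) := Prod.ext (by simp) (by simp)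
    rwa [e] at h2

open Classical in
/-- Size of the kernel times `L`. -/
lemma ker_card (X : Finset (K × ℤ)) {T : Finset K} {g L S : ℕ} (hgpos : 0 < g)
    (hL : S = g * L) {w xs : K} (hw : (w, (g : ℤ)) ∈ AddSubgroup.closure (X : Set (K × ℤ)))
    (hT : ∀ z ∈ T, (z, (0 : ℤ)) ∈ AddSubgroup.closure (X : Set (K × ℤ)))
    {Q : Type u} [AddCommGroup Q] [Fintype Q] (π : K × ℤ →+ Q)
    (hker : ∀ z, π z = 0 → ∃ k : ℤ, z = k • (xs, (S : ℤ))) :
    T.card * L ≤ (univ.filter (fun q => q ∈ AddSubgroup.closure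
      ((X.image π : Finset Q) : Set Q))).card := by
  have hcard : T.card * L = (T ×ˢ (range L)).card := by
    rw [card_product, card_range]
  rw [hcard]
  refine card_le_card_of_injOn (fun p => π (p.1 + p.2 • w, (p.2 : ℤ) * g)) ?_ ?_
  · rintro ⟨z, j⟩ hz
    rw [mem_coe, mem_product] at hz
    simp only at hz
    rw [mem_coe, mem_filter]
    refine ⟨mem_univ _, ?_⟩
    apply map_closure_mem
    have h2 := add_mem (hT z hz.1) (nsmul_mem hw j)
    have e : (z, (0 : ℤ)) + j • (w, (g : ℤ)) = (z + j • w, (j : ℤ) * g) := by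
      refine Prod.ext ?_ ?_
      · simp
      · simp
    rwa [e] at h2
  · rintro ⟨z, j⟩ hz ⟨z', j'⟩ hz' heq
    rw [mem_coe, mem_product, mem_range] at hz hz'
    simp only at heq hz hz'
    have h1 : π ((z + j • w, (j : ℤ) * g) - (z' + j' • w, (j' : ℤ) * g)) = 0 := by
      rw [map_sub, heq, sub_self]
    obtain ⟨k, hk⟩ := hker _ h1
    have h2 : (j : ℤ) * g - j' * g = k * S := by
      have := congrArg Prod.snd hk
      simpa using this
    rw [hL] at h2
    have hg' : (0 : ℤ) < g := by exact_mod_cast hgpos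
    have h3 : (j : ℤ) - j' = k * L := by
      have : (g : ℤ) * (j - j') = g * (k * L) := by push_cast at h2; linarith
      exact mul_left_cancel₀ hg'.ne' this
    have hk0 : k = 0 := by
      by_contra hne
      have h5 : (1 : ℤ) ≤ |k| := Int.one_le_abs hne
      have h4 : |(j : ℤ) - j'| < L := by
        rw [abs_lt]
        have := hz.2
        have := hz'.2
        constructor <;> omega
      rw [h3, abs_mul] at h4
      have hLL : |(L : ℤ)| = L := abs_of_nonneg (by positivity)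
      rw [hLL] at h4
      have h6 : (1 : ℤ) * L ≤ |k| * L := mul_le_mul_of_nonneg_right h5 (by positivity)
      linarith
    rw [hk0, zero_mul] at h3
    have hjj : j = j' := by omega
    subst hjj
    rw [hk0, zero_smul] at hk
    have h5 := congrArg Prod.fst hk
    simp at h5
    rw [sub_eq_zero] at h5
    rw [h5]

/-- Algebraic structure theorem. -/
theorem lift_structure {X : Finset K} (hX : Gen X (univ : Finset K)) (h0 : (0 : K) ∈ X)
    (hs : ∀ x ∈ X, -x ∈ X) {N : ℕ} (φ : K →+ ZMod N) (s : K → ℤ)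
    (hφ : ∀ x ∈ X, (s x : ZMod N) = φ x) (hs0 : s 0 = 0) (hsn : ∀ x ∈ X, s (-x) = -s x)
    {S : ℕ} (hS : ∀ x ∈ X, |s x| ≤ S) {xs : K} (hxs : xs ∈ X) (hxsS : s xs = S) (hSpos : 0 < S)
    {J2 : ℕ} (hJ5 : 5 ≤ J2) (hJN : 2 * (J2 * S) < N)
    (hgr : (it X J2).card < (2 * J2 - 9) * X.card) :
    ∃ ν : ℕ, 0 < ν ∧ ∃ ψ : K →+ ZMod ν, Function.Surjective ψ ∧ ∃ L : ℕ, 1 ≤ L ∧
      (∀ x ∈ X, (ψ x).valMinAbs.natAbs ≤ L) ∧
      (2 * J2 - 9) * ((univ.filter (fun z => ψ z = 0)).card * L) ≤ (it X J2).card ∧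
      N * L ≤ ν * S := by
  classical
  have hv2 : 0 < ((xs, (S : ℤ)) : K × ℤ).2 := by simpa using hSpos
  have h0t : (0 : K × ℤ) ∈ lft s X := zero_mem_lft h0 hs0
  have hst : ∀ x ∈ lft s X, -x ∈ lft s X := neg_mem_lft hs hsn
  have hvt : (xs, (S : ℤ)) ∈ lft s X := mem_lft.2 ⟨hxs, hxsS⟩
  have hXtS : ∀ x ∈ lft s X, |x.2| ≤ ((xs, (S : ℤ)) : K × ℤ).2 := by
    intro x hx
    rw [mem_lft] at hx
    rw [← hx.2]; exact hS _ hx.1
  have hfin := finite_quot hv2
  have hfinQ : Fintype ((K × ℤ) ⧸ AddSubgroup.zmultiples (xs, (S : ℤ))) := Fintype.ofFinite _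
  obtain ⟨π, hπ⟩ : ∃ π : (K × ℤ) →+ ((K × ℤ) ⧸ AddSubgroup.zmultiples (xs, (S : ℤ))),
      π = QuotientAddGroup.mk' (AddSubgroup.zmultiples (xs, (S : ℤ))) := ⟨_, rfl⟩
  have hker : ∀ z, π z = 0 → ∃ k : ℤ, z = k • (xs, (S : ℤ)) := by
    intro z hz
    rw [hπ, QuotientAddGroup.mk'_apply, QuotientAddGroup.eq_zero_iff] at hz
    obtain ⟨k, hk⟩ := AddSubgroup.mem_zmultiples_iff.1 hz
    exact ⟨k, hk.symm⟩
  have hπv : π (xs, (S : ℤ)) = 0 := by
    rw [hπ, QuotientAddGroup.mk'_apply, QuotientAddGroup.eq_zero_iff]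
    exact AddSubgroup.mem_zmultiples _
  have hcardXt : (lft s X).card = X.card := by
    rw [lft, card_image_of_injective]
    intro a b hab
    exact congrArg Prod.fst hab
  have hcit := card_it_lft φ hφ hS hJN
  have hQ := quot_bound h0t hst hvt hv2 hXtS π hπv hker hJ5 (by rw [hcit, hcardXt]; exact hgr)
  rw [hcit] at hQ
  -- lattice
  have hΓφ : ∀ z ∈ AddSubgroup.closure ((lft s X : Finset (K × ℤ)) : Set (K × ℤ)),
      (z.2 : ZMod N) = φ z.1 := by
    intro z hz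
    induction hz using AddSubgroup.closure_induction with
    | mem x hx =>
      rw [mem_coe, mem_lft] at hx
      rw [← hx.2]; exact hφ _ hx.1
    | zero => simp
    | add x y _ _ h1 h2 =>
      rw [Prod.snd_add, Prod.fst_add, map_add, ← h1, ← h2]; push_cast; rfl
    | neg x _ h1 =>
      rw [Prod.snd_neg, Prod.fst_neg, map_neg, ← h1]; push_cast; rfl
  have hΓN : ∀ n : ℤ, ((0 : K), n) ∈ AddSubgroup.closure ((lft s X : Finset (K × ℤ)) : Set (K × ℤ)) →
      (N : ℤ) ∣ n := by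
    intro n hn
    have h2 := hΓφ _ hn
    simp only [map_zero] at h2
    rwa [ZMod.intCast_zmod_eq_zero_iff_dvd] at h2
  have hΓfst : ∀ z : K, ∃ n : ℤ, (z, n) ∈ AddSubgroup.closure ((lft s X : Finset (K × ℤ)) : Set (K × ℤ)) := by
    have hH : IsSubgp (univ.filter (fun z : K => ∃ n : ℤ, (z, n) ∈
        AddSubgroup.closure ((lft s X : Finset (K × ℤ)) : Set (K × ℤ)))) := by
      constructor
      · rw [mem_filter]; exact ⟨mem_univ _, 0, zero_mem _⟩
      · intro a ha b hb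
        rw [mem_filter] at *
        obtain ⟨n, hn⟩ := ha.2
        obtain ⟨n', hn'⟩ := hb.2
        exact ⟨mem_univ _, n - n', sub_mem hn hn'⟩
    have hXH : X ⊆ univ.filter (fun z : K => ∃ n : ℤ, (z, n) ∈
        AddSubgroup.closure ((lft s X : Finset (K × ℤ)) : Set (K × ℤ))) := by
      intro x hx
      rw [mem_filter]
      exact ⟨mem_univ _, s x, AddSubgroup.subset_closure (mem_coe.2 (mem_lft.2 ⟨hx, rfl⟩))⟩
    intro z
    have := hX.gen _ hH hXH (mem_univ z)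
    rw [mem_filter] at this
    exact this.2
  obtain ⟨g, hgpos, ν, hνpos, L, hLpos, hL, hNge, ⟨w, hw⟩, hgd, hm0⟩ :=
    lattice _ hΓN hΓfst hSpos (AddSubgroup.subset_closure (mem_coe.2 hvt))
  obtain ⟨ψ, hsurj, hψval, hψker⟩ := lattice_hom _ hΓfst hgpos hνpos hw hgd hm0
  refine ⟨ν, hνpos, ψ, hsurj, L, hLpos, ?_, ?_, ?_⟩
  · -- bounded
    intro x hx
    have : NeZero ν := ⟨hνpos.ne'⟩
    have h1 : (x, s x) ∈ AddSubgroup.closure ((lft s X : Finset (K × ℤ)) : Set (K × ℤ)) :=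
      AddSubgroup.subset_closure (mem_coe.2 (mem_lft.2 ⟨hx, rfl⟩))
    obtain ⟨a, ha⟩ := hgd _ h1
    simp only at ha
    have h2 := hψval _ h1 a ha
    simp only at h2
    rw [h2]
    have h3 : ((a : ℤ) : ZMod ν).valMinAbs.natAbs ≤ a.natAbs :=
      ZMod.natAbs_min_of_le_div_two ν _ _ (by simp) (ZMod.natAbs_valMinAbs_le _)
    have h4 := hS x hx
    rw [ha, abs_mul, hL] at h4
    have h5 : a.natAbs ≤ L := by
      have hg' : (0 : ℤ) < g := by exact_mod_cast hgpos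
      push_cast at h4
      rw [abs_of_pos hg'] at h4
      have h6 : |a| ≤ L := le_of_mul_le_mul_left h4 hg'
      have : (a.natAbs : ℤ) = |a| := Int.natCast_natAbs a
      omega
    exact h3.trans h5
  · -- size of the kernel
    refine le_trans (Nat.mul_le_mul_left _ ?_) hQ
    refine ker_card (lft s X) hgpos hL hw ?_ π hker
    intro z hz
    exact hψker z (mem_filter.1 hz).2
  · -- N L ≤ ν S
    rw [hL]
    calc N * L ≤ (g * ν) * L := Nat.mul_le_mul_right _ hNge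
      _ = ν * (g * L) := by ring

end

end Pool.Agent.Lib.MP_ee6709_co
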