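import Pool.Agent.Lib.MP_ee6709_co.Basic

/-!
# Mann-type growth theorem (MP_ee6709_co)
-/

set_option linter.style.longLine false
set_option linter.unusedSectionVars false

namespace Pool.Agent.Lib.MP_ee6709_co

open Finset
open scoped Pointwise

variable {K : Type*} [AddCommGroup K] [DecidableEq K]

/-- Finite subgroups, as finsets. -/
structure IsSubgp (H : Finset K) : Prop where
  zero : (0 : K) ∈ H
  sub : ∀ a ∈ H, ∀ b ∈ H, a - b ∈ H

lemma IsSubgp.neg {H : Finset K} (h : IsSubgp H) {a : K} (ha : a ∈ H) : -a ∈ H := by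
  have := h.sub 0 h.zero a ha
  simpa using this

lemma IsSubgp.add {H : Finset K} (h : IsSubgp H) {a b : K} (ha : a ∈ H) (hb : b ∈ H) :
    a + b ∈ H := by
  have := h.sub a ha (-b) (h.neg hb)
  simpa using this

lemma tr_add (M X : Finset K) (g : K) : tr M g + X = tr (M + X) g := by
  ext z
  rw [mem_add, mem_tr, mem_add]
  constructor
  · rintro ⟨a, ha, x, hx, rfl⟩
    rw [mem_tr] at ha
    exact ⟨a - g, ha, x, hx, by abel⟩
  · rintro ⟨a, ha, x, hx, h⟩
    refine ⟨a + g, by rw [mem_tr]; simpa using ha, x, hx, ?_⟩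
    have : z = a + x + g := by rw [h]; abel
    rw [this]; abel

lemma subset_add_of_zero {M X : Finset K} (h0 : (0 : K) ∈ X) : M ⊆ M + X := by
  intro z hz
  rw [mem_add]
  exact ⟨z, hz, 0, h0, by simp⟩

lemma add_subset_gp {G M X : Finset K} (hG : IsSubgp G) (hM : M ⊆ G) (hX : X ⊆ G) :
    M + X ⊆ G := by
  intro z hz
  rw [mem_add] at hz
  obtain ⟨a, ha, b, hb, rfl⟩ := hz
  exact hG.add (hM ha) (hX hb)

/-- Growth with constant `κ` inside the finite group `G`. -/
def Grows (G X : Finset K) (κ : ℝ) : Prop :=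
  ∀ Y ⊆ G, Y.Nonempty → Y + X = G ∨ (Y.card : ℝ) + κ ≤ ((Y + X).card : ℝ)

/-- Mann-type theorem: it is enough to check growth on subgroups. -/
theorem mann {G X : Finset K} (hG : IsSubgp G) (hX : X ⊆ G) (h0 : (0 : K) ∈ X)
    (hs : ∀ x ∈ X, -x ∈ X) {κ : ℝ}
    (hκ : ∀ H : Finset K, IsSubgp H → H ⊆ G → H + X ≠ G →
      (H.card : ℝ) + κ ≤ ((H + X).card : ℝ)) : Grows G X κ := by
  intro Y hYG hYne
  by_contra hcon
  push Not at hcon
  obtain ⟨hY1, hY2⟩ := hcon
  classical
  set F := G.powerset.filter (fun M => M.Nonempty ∧ M + X ≠ G) with hF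
  have hFmem : ∀ M, M ∈ F ↔ M ⊆ G ∧ M.Nonempty ∧ M + X ≠ G := by
    intro M; rw [hF, mem_filter, mem_powerset]
  have hYF : Y ∈ F := (hFmem Y).2 ⟨hYG, hYne, hY1⟩
  have hle : ∀ M : Finset K, M.card ≤ (M + X).card := fun M =>
    card_le_card (subset_add_of_zero h0)
  obtain ⟨M0, hM0F, hmin0⟩ := exists_min_image F (fun M => (M + X).card - M.card) ⟨Y, hYF⟩
  set κ1 := (M0 + X).card - M0.card with hκ1
  have hge : ∀ M ∈ F, M.card + κ1 ≤ (M + X).card := by
    intro M hM
    have h1 := hmin0 M hM
    have := hle M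
    omega
  have hM0eq : (M0 + X).card = M0.card + κ1 := by have := hle M0; omega
  obtain ⟨M, hMF', hminM⟩ := exists_min_image (F.filter (fun M => (M + X).card = M.card + κ1))
    (fun M => M.card) ⟨M0, by rw [mem_filter]; exact ⟨hM0F, hM0eq⟩⟩
  rw [mem_filter] at hMF'
  obtain ⟨hMF, hMeq⟩ := hMF'
  have hminM' : ∀ M' ∈ F, (M' + X).card = M'.card + κ1 → M.card ≤ M'.card := by
    intro M' h1 h2
    exact hminM M' (by rw [mem_filter]; exact ⟨h1, h2⟩)
  obtain ⟨hMG, ⟨m0, hm0⟩, hMne⟩ := (hFmem M).1 hMF
  -- translate to contain 0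
  set H := tr M (-m0) with hH
  have hcardH : H.card = M.card := card_tr _ _
  have hHX : H + X = tr (M + X) (-m0) := tr_add _ _ _
  have hcardHX : (H + X).card = H.card + κ1 := by
    rw [hHX, card_tr, hMeq, hcardH]
  have hHG : H ⊆ G := by
    intro z hz
    rw [hH, mem_tr] at hz
    have := hG.sub _ (hMG hz) m0 (hMG hm0)
    simpa using this
  have hH0 : (0 : K) ∈ H := by rw [hH, mem_tr]; simpa using hm0
  have hMXG : M + X ⊆ G := add_subset_gp hG hMG hX
  have hcardlt : (M + X).card < G.card := by
    by_contra hcon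
    exact hMne (eq_of_subset_of_card_le hMXG (by omega))
  have hHXne : H + X ≠ G := by
    intro h
    have : (H + X).card = G.card := by rw [h]
    rw [hHX, card_tr] at this
    omega
  have hHXG : H + X ⊆ G := add_subset_gp hG hHG hX
  -- dual fragment
  have hdual : 2 * H.card + κ1 ≤ G.card := by
    set D := G \ (H + X) with hD
    have hDcard : D.card + (H + X).card = G.card := by
      rw [hD]; exact card_sdiff_add_card_eq_card hHXG
    have hDne : D.Nonempty := by
      rw [← card_pos]
      rw [hHX, card_tr] at hDcard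
      omega
    have hDX : D + X ⊆ G \ H := by
      intro z hz
      rw [mem_add] at hz
      obtain ⟨d, hd, x, hx, rfl⟩ := hz
      rw [hD, mem_sdiff] at hd
      rw [mem_sdiff]
      refine ⟨hG.add hd.1 (hX hx), fun hcon => hd.2 ?_⟩
      rw [mem_add]
      exact ⟨d + x, hcon, -x, hs x hx, by abel⟩
    have hDXcard : (D + X).card + H.card ≤ G.card := by
      have h1 := card_le_card hDX
      have h2 : (G \ H).card + H.card = G.card := card_sdiff_add_card_eq_card hHG
      omega
    have hDF : D ∈ F := by
      rw [hFmem]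
      refine ⟨by rw [hD]; exact sdiff_subset, hDne, fun hcon => ?_⟩
      rw [hcon] at hDX
      have := hDX (hG.zero)
      rw [mem_sdiff] at this
      exact this.2 hH0
    have h3 := hge D hDF
    have h4 : (D + X).card = D.card + κ1 := by omega
    have h5 := hminM' D hDF h4
    omega
  have hHF : ∀ M' : Finset K, M' ⊆ H → M'.Nonempty → M' ∈ F := by
    intro M' h1 h2
    rw [hFmem]
    refine ⟨h1.trans hHG, h2, fun hcon => hHXne ?_⟩
    apply subset_antisymm hHXG
    rw [← hcon]
    exact add_subset_add_right h1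
  have hsubgp : IsSubgp H := by
    refine ⟨hH0, fun a ha b hb => ?_⟩
    have key : tr H (-b) = H := by
      by_contra hne
      set H2 := tr H (-b) with hH2
      have hcardH2 : H2.card = H.card := card_tr _ _
      have h02 : (0 : K) ∈ H2 := by rw [hH2, mem_tr]; simpa using hb
      have hH2X : (H2 + X).card = H.card + κ1 := by
        rw [hH2, tr_add, card_tr, hcardHX]
      have hH2G : H2 ⊆ G := by
        intro z hz
        rw [hH2, mem_tr] at hz
        have := hG.sub _ (hHG hz) b (hHG hb)
        simpa using this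
      have hintlt : (H ∩ H2).card < H.card := by
        by_contra hcon
        have h1 : H ∩ H2 = H := eq_of_subset_of_card_le inter_subset_left (by omega)
        have h2 : H ⊆ H2 := by rw [← h1]; exact inter_subset_right
        exact hne (eq_of_subset_of_card_le h2 (by omega)).symm
      have hintF : H ∩ H2 ∈ F := hHF _ inter_subset_left ⟨0, mem_inter.2 ⟨hH0, h02⟩⟩
      have h1 := hge _ hintF
      have h2 : ((H ∩ H2) + X).card ≠ (H ∩ H2).card + κ1 := by
        intro hcon
        have := hminM' _ hintF hcon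
        omega
      have h3 : ((H ∪ H2) + X).card + ((H ∩ H2) + X).card ≤ (H + X).card + (H2 + X).card := by
        rw [union_add]
        have h31 : (H ∩ H2) + X ⊆ (H + X) ∩ (H2 + X) :=
          subset_inter (add_subset_add_right inter_subset_left)
            (add_subset_add_right inter_subset_right)
        have h32 := card_le_card h31
        have h33 := card_union_add_card_inter (H + X) (H2 + X)
        omega
      have h4 := card_union_add_card_inter H H2
      have h5 : 0 < (H ∩ H2).card := card_pos.2 ⟨0, mem_inter.2 ⟨hH0, h02⟩⟩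
      by_cases h6 : (H ∪ H2) + X = G
      · have h7 : ((H ∪ H2) + X).card = G.card := by rw [h6]
        omega
      · have h7 : H ∪ H2 ∈ F := by
          rw [hFmem]
          exact ⟨union_subset hHG hH2G, ⟨0, mem_union_left _ hH0⟩, h6⟩
        have h8 := hge _ h7
        omega
    rw [← key, mem_tr]
    simpa using ha
  have hfin := hκ H hsubgp hHG hHXne
  have hYge := hge Y hYF
  have hYge' : (Y.card : ℝ) + κ1 ≤ ((Y + X).card : ℝ) := by exact_mod_cast hYge
  rw [hcardHX] at hfin
  push_cast at hfin
  linarith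

/-- Iterated sumsets. -/
def it (X : Finset K) : ℕ → Finset K
  | 0 => {0}
  | (n + 1) => it X n + X

@[simp] lemma it_zero (X : Finset K) : it X 0 = {0} := rfl
lemma it_succ (X : Finset K) (n : ℕ) : it X (n + 1) = it X n + X := rfl
lemma it_one (X : Finset K) : it X 1 = X := by
  rw [it_succ, it_zero, singleton_zero, zero_add]

lemma it_add (X : Finset K) (m n : ℕ) : it X (m + n) = it X m + it X n := by
  induction n with
  | zero => rw [add_zero, it_zero, singleton_zero, add_zero]
  | succ n ih => rw [← add_assoc, it_succ, ih, it_succ, add_assoc]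

lemma it_mul (X : Finset K) (m n : ℕ) : it X (m * n) = it (it X m) n := by
  induction n with
  | zero => simp
  | succ n ih => rw [mul_add, mul_one, it_add, ih, it_succ]

lemma it_mono_set {X X' : Finset K} (h : X ⊆ X') (n : ℕ) : it X n ⊆ it X' n := by
  induction n with
  | zero => simp
  | succ n ih => rw [it_succ, it_succ]; exact add_subset_add ih h

lemma zero_mem_it {X : Finset K} (h0 : (0 : K) ∈ X) (n : ℕ) : (0 : K) ∈ it X n := by
  induction n with
  | zero => simp
  | succ n ih => rw [it_succ, mem_add]; exact ⟨0, ih, 0, h0, by simp⟩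

lemma it_mono {X : Finset K} (h0 : (0 : K) ∈ X) {m n : ℕ} (h : m ≤ n) : it X m ⊆ it X n := by
  obtain ⟨k, rfl⟩ := Nat.exists_eq_add_of_le h
  rw [it_add]
  exact subset_add_of_zero (zero_mem_it h0 k)

lemma it_neg {X : Finset K} (hs : ∀ x ∈ X, -x ∈ X) (n : ℕ) : ∀ x ∈ it X n, -x ∈ it X n := by
  induction n with
  | zero => simp
  | succ n ih =>
    intro x hx
    rw [it_succ, mem_add] at hx
    obtain ⟨a, ha, b, hb, rfl⟩ := hx
    rw [it_succ, mem_add]
    exact ⟨-a, ih a ha, -b, hs b hb, by abel⟩

lemma it_subset_gp {G X : Finset K} (hG : IsSubgp G) (hX : X ⊆ G) (n : ℕ) : it X n ⊆ G := by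
  induction n with
  | zero => simpa using hG.zero
  | succ n ih => exact add_subset_gp hG ih hX

lemma it_nonempty {X : Finset K} (h0 : (0 : K) ∈ X) (n : ℕ) : (it X n).Nonempty :=
  ⟨0, zero_mem_it h0 n⟩

lemma one_le_card_it {X : Finset K} (h0 : (0 : K) ∈ X) (n : ℕ) : 1 ≤ (it X n).card :=
  card_pos.2 (it_nonempty h0 n)

/-- Iterating growth, starting from any set. -/
lemma Grows.iter_from {G X : Finset K} {κ : ℝ} (hg : Grows G X κ) (hG : IsSubgp G) (hX : X ⊆ G)
    (h0 : (0 : K) ∈ X) {Y : Finset K} (hY : Y ⊆ G) (hne : Y.Nonempty) (n : ℕ) :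
    Y + it X n = G ∨ (Y.card : ℝ) + n * κ ≤ ((Y + it X n).card : ℝ) := by
  induction n with
  | zero => right; simp
  | succ n ih =>
    rw [it_succ, ← add_assoc]
    have hsub : Y + it X n ⊆ G := add_subset_gp hG hY (it_subset_gp hG hX n)
    rcases ih with ih | ih
    · left
      apply subset_antisymm (add_subset_gp hG hsub hX)
      rw [ih]; exact subset_add_of_zero h0
    · have hne2 : (Y + it X n).Nonempty := hne.add (it_nonempty h0 n)
      rcases hg _ hsub hne2 with h | h
      · left; exact h
      · right; push_cast; linarith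

lemma Grows.iter {G X : Finset K} {κ : ℝ} (hg : Grows G X κ) (hG : IsSubgp G) (hX : X ⊆ G)
    (h0 : (0 : K) ∈ X) (n : ℕ) : it X n = G ∨ 1 + n * κ ≤ ((it X n).card : ℝ) := by
  have := hg.iter_from hG hX h0 (Y := {0}) (by simpa using hG.zero) (by simp) n
  rw [singleton_zero, zero_add] at this
  simpa using this

/-- `X` generates the finite group `G`. -/
structure Gen (X G : Finset K) : Prop where
  gp : IsSubgp G
  sub : X ⊆ G
  gen : ∀ H : Finset K, IsSubgp H → X ⊆ H → G ⊆ H

/-- If adding `X` does not enlarge `S ∋ 0` then `S` is everything. -/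
lemma Gen.eq_of_stable {X G S : Finset K} (hg : Gen X G) (hS : S ⊆ G) (h0 : (0 : K) ∈ S)
    (hst : S + X ⊆ S) : S = G := by
  have hstab : IsSubgp (G.filter (fun g => tr S g = S)) := by
    constructor
    · rw [mem_filter]
      refine ⟨hg.gp.zero, ?_⟩
      ext z; rw [mem_tr]; simp
    · intro a ha b hb
      rw [mem_filter] at *
      refine ⟨hg.gp.sub a ha.1 b hb.1, ?_⟩
      have h1 := ha.2
      have h2 := hb.2
      ext z
      rw [mem_tr]
      have e1 : z - (a - b) ∈ S ↔ z + b - a ∈ S := by
        have : z - (a - b) = z + b - a := by abel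
        rw [this]
      rw [e1, ← mem_tr, h1]
      have e2 : z + b ∈ S ↔ z + b ∈ tr S b := by rw [h2]
      rw [e2, mem_tr]; simp
  have hXs : X ⊆ G.filter (fun g => tr S g = S) := by
    intro x hx
    rw [mem_filter]
    refine ⟨hg.sub hx, ?_⟩
    apply eq_of_subset_of_card_le _ (by rw [card_tr])
    intro z hz
    rw [mem_tr] at hz
    have : z - x + x ∈ S + X := add_mem_add hz hx
    have := hst this
    simpa using this
  have hall := hg.gen _ hstab hXs
  apply subset_antisymm hS
  intro g hgG
  have := hall hgG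
  rw [mem_filter] at this
  rw [← this.2, mem_tr]
  simpa using h0

/-- Adding a generating set to a union of `H`-cosets adds at least one coset at a time. -/
lemma Gen.coset_growth {X G H : Finset K} (hg : Gen X G) (h0 : (0 : K) ∈ X)
    (hH : IsSubgp H) (hHG : H ⊆ G) (n : ℕ) :
    H + it X n = G ∨ (n + 1) * H.card ≤ (H + it X n).card := by
  induction n with
  | zero => right; simp
  | succ n ih =>
    rcases ih with ih | ih
    · left
      rw [it_succ, ← add_assoc, ih]
      exact subset_antisymm (add_subset_gp hg.gp (subset_refl _) hg.sub) (subset_add_of_zero h0)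
    · by_cases hst : (H + it X n) + X ⊆ H + it X n
      · left
        have hsub : H + it X n ⊆ G := add_subset_gp hg.gp hHG (it_subset_gp hg.gp hg.sub n)
        have h0' : (0 : K) ∈ H + it X n := by
          rw [mem_add]; exact ⟨0, hH.zero, 0, zero_mem_it h0 n, by simp⟩
        have := hg.eq_of_stable hsub h0' hst
        rw [it_succ, ← add_assoc]
        rw [this]
        exact subset_antisymm (add_subset_gp hg.gp (subset_refl _) hg.sub) (subset_add_of_zero h0)
      · right
        rw [not_subset] at hst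
        obtain ⟨z, hz, hz'⟩ := hst
        have hsub : (H + it X n) ∪ tr H z ⊆ H + it X (n + 1) := by
          apply union_subset
          · exact add_subset_add_left (it_mono h0 (Nat.le_succ n))
          · intro w hw
            rw [mem_tr] at hw
            rw [mem_add] at hz
            obtain ⟨a, ha, x, hx, rfl⟩ := hz
            rw [mem_add] at ha
            obtain ⟨h, hh, y, hy, rfl⟩ := ha
            rw [mem_add]
            refine ⟨w - (h + y + x) + h, hH.add hw hh, y + x, ?_, by abel⟩
            rw [it_succ, mem_add]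
            exact ⟨y, hy, x, hx, rfl⟩
        have hdisj : Disjoint (H + it X n) (tr H z) := by
          rw [disjoint_left]
          intro w hw hw'
          apply hz'
          rw [mem_tr] at hw'
          rw [mem_add] at hw
          obtain ⟨h, hh, y, hy, rfl⟩ := hw
          rw [mem_add]
          refine ⟨h - (h + y - z), hH.sub _ hh _ hw', y, hy, by abel⟩
        have h1 := card_le_card hsub
        rw [card_union_of_disjoint hdisj, card_tr] at h1
        nlinarith [h1, ih]

/-- Growth constant of `jX`: any `κ` with `(j+1) κ ≤ j |jX|`. -/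
lemma Gen.grows_it {X G : Finset K} (hg : Gen X G) (h0 : (0 : K) ∈ X)
    (hs : ∀ x ∈ X, -x ∈ X) (j : ℕ) {κ : ℝ} (hκ : (j + 1) * κ ≤ j * (it X j).card) :
    Grows G (it X j) κ := by
  apply mann hg.gp (it_subset_gp hg.gp hg.sub j) (zero_mem_it h0 j) (it_neg hs j)
  intro H hH hHG hne
  rcases hg.coset_growth h0 hH hHG j with h | h
  · exact absurd h hne
  · have h1 : (it X j).card ≤ (H + it X j).card := by
      rw [add_comm]
      exact card_le_card (subset_add_of_zero hH.zero)
    have h2 : ((j : ℝ) + 1) * H.card ≤ (H + it X j).card := by exact_mod_cast h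
    have h3 : ((it X j).card : ℝ) ≤ (H + it X j).card := by exact_mod_cast h1
    have hj : (0 : ℝ) ≤ j := Nat.cast_nonneg j
    have h4 : (j : ℝ) * (it X j).card ≤ j * (H + it X j).card := mul_le_mul_of_nonneg_left h3 hj
    have h5 : ((j : ℝ) + 1) * (H.card + κ) ≤ (j + 1) * (H + it X j).card := by nlinarith
    exact le_of_mul_le_mul_left h5 (by linarith)

/-- `|(kj)X| ≥ k (j/(j+1)) |jX|` unless everything is reached. -/
lemma Gen.card_it_mul {X G : Finset K} (hg : Gen X G) (h0 : (0 : K) ∈ X)
    (hs : ∀ x ∈ X, -x ∈ X) (j k : ℕ) :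
    it X (j * k) = G ∨ (k : ℝ) * (j * (it X j).card) ≤ (j + 1) * ((it X (j * k)).card : ℝ) := by
  have hj : (0 : ℝ) < (j : ℝ) + 1 := by positivity
  rw [it_mul]
  have h := (hg.grows_it h0 hs j (κ := j * (it X j).card / (j + 1)) (by
    rw [mul_div_cancel₀ _ hj.ne'])).iter hg.gp (it_subset_gp hg.gp hg.sub j) (zero_mem_it h0 j) k
  rcases h with h | h
  · left; exact h
  · right
    have h2 : (k : ℝ) * (j * (it X j).card / (j + 1)) ≤ ((it (it X j) k).card : ℝ) := by linarith
    calc (k : ℝ) * (j * (it X j).card) = (j + 1) * (k * (j * (it X j).card / (j + 1))) := by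
          field_simp
      _ ≤ _ := mul_le_mul_of_nonneg_left h2 hj.le

end Pool.Agent.Lib.MP_ee6709_co
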