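import Pool.Agent.Lib.MP_ee6709_co.Window
import Pool.Agent.Lib.MP_ee6709_co.Four
import Pool.Agent.Lib.MP_ee6709_co.Lift

/-!
# Structure of `R`, part 1 (MP_ee6709_co)
-/

set_option linter.style.longLine false
set_option linter.unusedSectionVars false

namespace Pool.Agent.Lib.MP_ee6709_co

open Finset
open scoped Pointwise

universe u

/-- Height of an element of `ZMod N`. -/
def ht {N : ℕ} (a : ZMod N) : ℕ := a.valMinAbs.natAbs

lemma ht_zero {N : ℕ} : ht (0 : ZMod N) = 0 := by rw [ht, ZMod.valMinAbs_zero]; rfl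

lemma ht_neg {N : ℕ} (a : ZMod N) : ht (-a) = ht a := ZMod.natAbs_valMinAbs_neg a

lemma ht_add_le {N : ℕ} (a b : ZMod N) : ht (a + b) ≤ ht a + ht b := by
  rw [ht, ht, ht]
  exact (ZMod.natAbs_valMinAbs_add_le a b).trans (Int.natAbs_add_le _ _)

section
variable {K : Type u} [AddCommGroup K] [DecidableEq K] [Fintype K]

lemma lin {R : Finset K} (hG : Gn R) {ε : ℝ} (hε : 0 < ε) (hε1 : ε ≤ 1) {J0 j : ℕ} (hj : 1 ≤ j)
    (hn : ((it (sym R) J0).card : ℝ) ≤ (2 + ε) * R.card * J0)
    (hK : (it (sym R) J0).card < Fintype.card K)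
    (hk : 1 / ε ≤ ((J0 / j : ℕ) : ℝ)) :
    ((it (sym R) j).card : ℝ) ≤ (2 + 4 * ε) * (j + 1) * R.card := by
  obtain ⟨k, hkdef⟩ : ∃ k : ℕ, k = J0 / j := ⟨_, rfl⟩
  rw [← hkdef] at hk
  have hkpos : (0 : ℝ) < k := by
    have : 0 < 1 / ε := by positivity
    linarith
  have hjk : j * k ≤ J0 := by rw [hkdef]; exact Nat.mul_div_le J0 j
  have hJ0 : J0 ≤ j * (k + 1) := by
    rw [hkdef]
    have := Nat.lt_mul_div_succ J0 (by omega : 0 < j)
    omega
  have hmono : (it (sym R) (j * k)).card ≤ (it (sym R) J0).card :=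
    card_le_card (it_mono (zero_mem_sym R) hjk)
  rcases hG.gen.card_it_mul (zero_mem_sym R) neg_mem_sym j k with h | h
  · exfalso
    have := congrArg Finset.card h
    rw [card_univ] at this
    omega
  · have hmono' : ((it (sym R) (j * k)).card : ℝ) ≤ (it (sym R) J0).card := by exact_mod_cast hmono
    have hJ0' : (J0 : ℝ) ≤ j * (k + 1) := by exact_mod_cast hJ0
    have hjpos : (0 : ℝ) < j := by exact_mod_cast (by omega : 0 < j)
    have hr : (0 : ℝ) ≤ R.card := Nat.cast_nonneg _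
    have h1 : (k : ℝ) * (j * (it (sym R) j).card) ≤ (j + 1) * ((2 + ε) * R.card * (j * (k + 1))) := by
      calc (k : ℝ) * (j * (it (sym R) j).card) ≤ (j + 1) * ((it (sym R) (j * k)).card : ℝ) := h
        _ ≤ (j + 1) * ((2 + ε) * R.card * J0) :=
          mul_le_mul_of_nonneg_left (hmono'.trans hn) (by positivity)
        _ ≤ _ := by
          apply mul_le_mul_of_nonneg_left _ (by positivity)
          exact mul_le_mul_of_nonneg_left hJ0' (by positivity)
    have h2 : (k : ℝ) * (it (sym R) j).card ≤ (j + 1) * ((2 + ε) * R.card * (k + 1)) := by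
      have e1 : (k : ℝ) * (it (sym R) j).card * j ≤ ((j + 1) * ((2 + ε) * R.card * (k + 1))) * j := by
        calc (k : ℝ) * (it (sym R) j).card * j = (k : ℝ) * (j * (it (sym R) j).card) := by ring
          _ ≤ _ := h1
          _ = _ := by ring
      exact le_of_mul_le_mul_right e1 hjpos
    have h3 : (k : ℝ) + 1 ≤ (1 + ε) * k := by
      rw [div_le_iff₀ hε] at hk
      linarith
    have h4 : (k : ℝ) * (it (sym R) j).card ≤ k * ((2 + 4 * ε) * (j + 1) * R.card) := by
      calc (k : ℝ) * (it (sym R) j).card ≤ (j + 1) * ((2 + ε) * R.card * (k + 1)) := h2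
        _ ≤ (j + 1) * ((2 + ε) * R.card * ((1 + ε) * k)) := by
          apply mul_le_mul_of_nonneg_left _ (by positivity)
          exact mul_le_mul_of_nonneg_left h3 (by positivity)
        _ = ((2 + ε) * (1 + ε)) * ((j + 1) * R.card * k) := by ring
        _ ≤ (2 + 4 * ε) * ((j + 1) * R.card * k) := by
          apply mul_le_mul_of_nonneg_right _ (by positivity)
          nlinarith
        _ = _ := by ring
    exact le_of_mul_le_mul_left h4 hkpos

/-- Slow growth at the top gives small `λ` for multiples. -/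
lemma lam_Y {R : Finset K} {ε c : ℝ} (hε : 0 < ε) (hc : 0 < c) (hc1 : c ≤ 1/100) (hεc : ε ≤ c / 4)
    {J0 I : ℕ} (hIc : (I : ℝ) ≤ c * J0)
    (hgrow : Grows (univ : Finset K) (sym R) ((2 - ε) * R.card))
    (hn : ((it (sym R) J0).card : ℝ) ≤ (2 + ε) * R.card * J0)
    (hK : (it (sym R) J0).card < Fintype.card K) :
    ∀ z ∈ it (sym R) I, (lam (it (sym R) (J0 - I)) z : ℝ) ≤ 2 * c * (it (sym R) (J0 - I)).card := by
  have hIJ : I ≤ J0 := by
    have : (I : ℝ) ≤ J0 := by
      have : c * (J0 : ℝ) ≤ 1 * J0 := mul_le_mul_of_nonneg_right (by linarith) (Nat.cast_nonneg _)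
      linarith
    exact_mod_cast this
  obtain ⟨Y, hY⟩ : ∃ Y, Y = it (sym R) (J0 - I) := ⟨_, rfl⟩
  rw [← hY]
  have hYJ : Y ⊆ it (sym R) J0 := by rw [hY]; exact it_mono (zero_mem_sym R) (by omega)
  have hYlow : 1 + ((J0 : ℝ) - I) * ((2 - ε) * R.card) ≤ Y.card := by
    have := hgrow.iter isSubgp_univ (subset_univ _) (zero_mem_sym R) (J0 - I)
    rw [← hY] at this
    rcases this with h | h
    · exfalso
      have h1 := card_le_card hYJ
      rw [h, card_univ] at h1
      omega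
    · rw [Nat.cast_sub hIJ] at h
      exact h
  intro z hz
  have hsub : tr Y z ⊆ it (sym R) J0 := by
    intro w hw
    rw [mem_tr, hY] at hw
    have h1 : (w - z) + z ∈ it (sym R) (J0 - I) + it (sym R) I := add_mem_add hw hz
    rw [← it_add, Nat.sub_add_cancel hIJ] at h1
    simpa using h1
  have hlam : lam Y z + Y.card ≤ (it (sym R) J0).card := by
    rw [lam, ← card_union_of_disjoint (disjoint_sdiff.symm : Disjoint (tr Y z \ Y) Y)]
    apply card_le_card
    exact union_subset (sdiff_subset.trans hsub) hYJ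
  have hlam' : (lam Y z : ℝ) + Y.card ≤ (it (sym R) J0).card := by exact_mod_cast hlam
  have hr : (0 : ℝ) ≤ R.card := Nat.cast_nonneg _
  have hJnn : (0 : ℝ) ≤ J0 := Nat.cast_nonneg _
  have hInn : (0 : ℝ) ≤ I := Nat.cast_nonneg _
  -- set q = r * J0
  obtain ⟨q, hq⟩ : ∃ q : ℝ, q = R.card * J0 := ⟨_, rfl⟩
  have hq0 : 0 ≤ q := by rw [hq]; positivity
  have hIr : (I : ℝ) * R.card ≤ c * q := by
    calc (I : ℝ) * R.card ≤ c * J0 * R.card := mul_le_mul_of_nonneg_right hIc hr
      _ = c * q := by rw [hq]; ring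
  have hn' : ((it (sym R) J0).card : ℝ) ≤ (2 + ε) * q := by
    calc ((it (sym R) J0).card : ℝ) ≤ (2 + ε) * R.card * J0 := hn
      _ = (2 + ε) * q := by rw [hq]; ring
  have hY2 : (2 - ε) * q - (2 - ε) * (I * R.card) ≤ Y.card := by
    have e1 : ((J0 : ℝ) - I) * ((2 - ε) * R.card) = (2 - ε) * q - (2 - ε) * (I * R.card) := by
      rw [hq]; ring
    linarith
  have hε2 : 0 < 2 - ε := by linarith
  have hY3 : (2 - ε) * q - 2 * (c * q) ≤ Y.card := by
    have e1 : (2 - ε) * (I * R.card) ≤ (2 - ε) * (c * q) := mul_le_mul_of_nonneg_left hIr hε2.le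
    have e2 : (2 - ε) * (c * q) ≤ 2 * (c * q) :=
      mul_le_mul_of_nonneg_right (by linarith) (by positivity)
    linarith
  have hεq : ε * q ≤ c / 4 * q := mul_le_mul_of_nonneg_right hεc hq0
  have hY4 : (39/20) * q ≤ Y.card := by
    have : c * q ≤ 1/100 * q := mul_le_mul_of_nonneg_right hc1 hq0
    linarith
  have h1 : (lam Y z : ℝ) ≤ (5/2) * (c * q) := by linarith
  have h2 : 2 * c * ((39/20) * q) ≤ 2 * c * Y.card := mul_le_mul_of_nonneg_left hY4 (by positivity)
  have hcq : 0 ≤ c * q := by positivity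
  linarith

lemma ht_it {X : Finset K} {N I B : ℕ} (φ : K →+ ZMod N) (hX : ∀ x ∈ X, I * ht (φ x) ≤ B) (j : ℕ) :
    ∀ z ∈ it X j, I * ht (φ z) ≤ j * B := by
  induction j with
  | zero =>
    intro z hz
    rw [it_zero, mem_singleton] at hz
    subst hz
    rw [map_zero, ht_zero]; simp
  | succ j ih =>
    intro z hz
    rw [it_succ, mem_add] at hz
    obtain ⟨a, ha, b, hb, rfl⟩ := hz
    rw [map_add]
    have h1 := ht_add_le (φ a) (φ b)
    have h2 := ih a ha
    have h3 := hX b hb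
    calc I * ht (φ a + φ b) ≤ I * (ht (φ a) + ht (φ b)) := Nat.mul_le_mul_left _ h1
      _ = I * ht (φ a) + I * ht (φ b) := by ring
      _ ≤ j * B + B := add_le_add h2 h3
      _ = _ := by ring

lemma ht_sym {R : Finset K} {N I B : ℕ} (φ : K →+ ZMod N) (hX : ∀ x ∈ R, I * ht (φ x) ≤ B) :
    ∀ x ∈ sym R, I * ht (φ x) ≤ B := by
  intro x hx
  rw [mem_sym] at hx
  rcases hx with h | h | h
  · exact hX x h
  · have := hX _ h
    rwa [map_neg, ht_neg] at this
  · subst h; rw [map_zero, ht_zero]; simp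

/-- From most elements to all elements. -/
lemma all_small {R Rg : Finset K} (hsub : Rg ⊆ R) {κ : ℝ}
    (hgrow : Grows (univ : Finset K) (sym Rg) κ)
    (hn3 : ((it (sym R) 3).card : ℝ) < 5 * κ) (hn3K : (it (sym R) 3).card < Fintype.card K)
    {N I : ℕ} (hN : 0 < N) (φ : K →+ ZMod N) (hg : ∀ x ∈ Rg, I * ht (φ x) < N) :
    ∀ x ∈ R, I * ht (φ x) < 5 * N := by
  intro x hx
  by_contra hcon
  push Not at hcon
  have hX : ∀ z ∈ sym Rg, I * ht (φ z) ≤ N - 1 := ht_sym φ (fun x hx => by have := hg x hx; omega)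
  have hU := ht_it φ hX 3
  have hV := ht_it φ hX 2
  have hUsub : it (sym Rg) 3 ⊆ it (sym R) 3 := it_mono_set (sym_mono hsub) 3
  have hVsub : tr (it (sym Rg) 2) x ⊆ it (sym R) 3 := by
    intro w hw
    rw [mem_tr] at hw
    have h1 : (w - x) + x ∈ it (sym R) 2 + sym R :=
      add_mem_add (it_mono_set (sym_mono hsub) 2 hw) (subset_sym R hx)
    rw [it_succ]
    simpa using h1
  have hdisj : Disjoint (it (sym Rg) 3) (tr (it (sym Rg) 2) x) := by
    rw [disjoint_left]
    intro w hw hw'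
    rw [mem_tr] at hw'
    have h1 := hU w hw
    have h2 := hV _ hw'
    have h3 : ht (φ x) ≤ ht (φ w) + ht (φ (w - x)) := by
      have e : φ x = φ w + -(φ (w - x)) := by rw [map_sub]; abel
      rw [e]
      refine (ht_add_le _ _).trans ?_
      rw [ht_neg]
    have h4 : I * ht (φ x) ≤ I * ht (φ w) + I * ht (φ (w - x)) := by
      rw [← mul_add]; exact Nat.mul_le_mul_left _ h3
    omega
  have hcard := card_le_card (union_subset hUsub hVsub)
  rw [card_union_of_disjoint hdisj, card_tr] at hcard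
  have hcard' : ((it (sym Rg) 3).card : ℝ) + (it (sym Rg) 2).card ≤ (it (sym R) 3).card := by
    exact_mod_cast hcard
  have h3 := hgrow.iter isSubgp_univ (subset_univ _) (zero_mem_sym Rg) 3
  have h2 := hgrow.iter isSubgp_univ (subset_univ _) (zero_mem_sym Rg) 2
  rcases h3 with h3 | h3
  · have := congrArg Finset.card h3
    rw [card_univ] at this
    omega
  rcases h2 with h2 | h2
  · have := congrArg Finset.card h2
    rw [card_univ] at this
    omega
  push_cast at h3 h2
  linarith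

/-- Core: existence of the fibration. -/
theorem core {R : Finset K} (hG : Gn R) {N I J2 : ℕ} (hN : 0 < N) (φ : K →+ ZMod N) (hφ0 : φ ≠ 0)
    (hall : ∀ x ∈ R, I * ht (φ x) < 5 * N) (hI : 10 * J2 ≤ I) (hJ5 : 5 ≤ J2)
    (hgr : (it (sym R) J2).card < (2 * J2 - 9) * (sym R).card) :
    ∃ ν : ℕ, 0 < ν ∧ ∃ ψ : K →+ ZMod ν, Function.Surjective ψ ∧ ∃ L : ℕ, 1 ≤ L ∧
      (∀ x ∈ sym R, ht (ψ x) ≤ L) ∧
      (2 * J2 - 9) * ((univ.filter (fun z => ψ z = 0)).card * L) ≤ (it (sym R) J2).card ∧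
      I * L < 5 * ν := by
  have : NeZero N := ⟨hN.ne'⟩
  have hallX : ∀ x ∈ sym R, I * ht (φ x) < 5 * N := by
    have h1 := ht_sym (I := I) (B := 5 * N - 1) φ (fun x hx => by have := hall x hx; omega)
    intro x hx
    have := h1 x hx
    omega
  obtain ⟨s, hs⟩ : ∃ s : K → ℤ, s = fun x => (φ x).valMinAbs := ⟨_, rfl⟩
  have hsx : ∀ x, s x = (φ x).valMinAbs := fun x => by rw [hs]
  have hs0 : s 0 = 0 := by rw [hsx, map_zero, ZMod.valMinAbs_zero]
  have hsn : ∀ x ∈ sym R, s (-x) = -s x := by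
    intro x hx
    rw [hsx, hsx, map_neg]
    apply ZMod.valMinAbs_neg_of_ne_half
    intro hcon
    have h1 := (ZMod.valMinAbs_mul_two_eq_iff (φ x)).2 hcon
    have h2 := hallX x hx
    rw [ht] at h2
    have h3 : (φ x).valMinAbs.natAbs * 2 = N := by omega
    nlinarith
  obtain ⟨xs, hxs, hmax⟩ := exists_max_image (sym R) s ⟨0, zero_mem_sym R⟩
  have hxs0 : 0 ≤ s xs := by rw [← hs0]; exact hmax 0 (zero_mem_sym R)
  obtain ⟨S, hS⟩ : ∃ S : ℕ, s xs = S := ⟨(s xs).toNat, (Int.toNat_of_nonneg hxs0).symm⟩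
  have hSb : ∀ x ∈ sym R, |s x| ≤ S := by
    intro x hx
    rw [← hS, abs_le]
    constructor
    · have := hmax (-x) (neg_mem_sym x hx)
      rw [hsn x hx] at this
      linarith
    · exact hmax x hx
  have hSpos : 0 < S := by
    by_contra hc
    have hS0 : S = 0 := by omega
    apply hφ0
    have hH : IsSubgp (univ.filter (fun z : K => φ z = 0)) := by
      constructor
      · rw [mem_filter]; exact ⟨mem_univ _, map_zero _⟩
      · intro a ha b hb
        rw [mem_filter] at *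
        exact ⟨mem_univ _, by rw [map_sub, ha.2, hb.2, sub_zero]⟩
    have hRH : R ⊆ univ.filter (fun z : K => φ z = 0) := by
      intro x hx
      rw [mem_filter]
      refine ⟨mem_univ _, ?_⟩
      have h1 := hSb x (subset_sym R hx)
      rw [hS0] at h1
      have h2 : s x = 0 := by
        have : |s x| ≤ 0 := by exact_mod_cast h1
        exact abs_nonpos_iff.1 this
      rw [hsx, ZMod.valMinAbs_eq_zero] at h2
      exact h2
    have h3 := hG _ hH hRH
    ext z
    have h4 : z ∈ univ.filter (fun z : K => φ z = 0) := by rw [h3]; exact mem_univ _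
    have h5 := (mem_filter.1 h4).2
    rw [h5]; rfl
  have hIS : I * S < 5 * N := by
    have h1 := hallX xs hxs
    rw [ht, ← hsx, hS] at h1
    simpa using h1
  have hJN : 2 * (J2 * S) < N := by
    have h1 : 10 * J2 * S ≤ I * S := Nat.mul_le_mul_right _ hI
    nlinarith
  obtain ⟨ν, hν, ψ, hsurj, L, hL, hψ, hker, hNL⟩ := lift_structure hG.gen (zero_mem_sym R)
    neg_mem_sym φ s (fun x _ => by rw [hsx, ZMod.coe_valMinAbs]) hs0 hsn hSb hxs hS hSpos hJ5 hJN hgr
  refine ⟨ν, hν, ψ, hsurj, L, hL, hψ, hker, ?_⟩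
  -- N L ≤ ν S, I S < 5 N
  by_contra hc
  push Not at hc
  have h1 : 5 * ν * S ≤ I * L * S := Nat.mul_le_mul_right _ hc
  have h2 : L * (I * S) < L * (5 * N) := Nat.mul_lt_mul_of_pos_left hIS (by omega)
  nlinarith

end

end Pool.Agent.Lib.MP_ee6709_co
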